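import Pool.Agent.Helper34.Slab.Basic

set_option autoImplicit false
set_option linter.unusedSectionVars false

open MeasureTheory Set Finset

namespace Pool.Agent.Helper34.Slab

variable {ι : Type*} [DecidableEq ι]

lemma fk_cont (k : ℕ) : Continuous (fk k) := by unfold fk; fun_prop

lemma fk_deriv (k : ℕ) (x : ℝ) : HasDerivAt (fk (k + 1)) (fk k x) x := by
  unfold fk
  have h := (hasDerivAt_pow (k + 1) x).div_const ((k + 1).factorial : ℝ)
  have e : ((k + 1 : ℕ) : ℝ) * x ^ (k + 1 - 1) / ((k + 1).factorial : ℝ) = x ^ k / (k.factorial : ℝ) := by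
    rw [Nat.factorial_succ]
    have : (k.factorial : ℝ) ≠ 0 := by positivity
    push_cast
    field_simp
  rw [e] at h
  exact h

lemma pk_eq_max {k : ℕ} (x : ℝ) : pk (k + 1) x = fk (k + 1) (max x 0) := by
  rcases le_or_gt 0 x with h | h
  · rw [pk_of_nonneg h, max_eq_left h]
  · rw [pk_of_neg h, max_eq_right h.le]; simp [fk]

lemma pk_cont (k : ℕ) : Continuous (pk (k + 1)) := by
  have : pk (k + 1) = fun x => fk (k + 1) (max x 0) := by ext x; exact pk_eq_max x
  rw [this]
  exact (fk_cont _).comp (by fun_prop)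

lemma pk_measurable (k : ℕ) : Measurable (pk k) := by
  unfold pk
  exact Measurable.ite measurableSet_Ici (by fun_prop) measurable_const

lemma pk_nonneg (k : ℕ) (x : ℝ) : 0 ≤ pk k x := by
  unfold pk; split_ifs <;> positivity

lemma pk_mono (k : ℕ) : Monotone (pk k) := by
  intro x y hxy
  rcases le_or_gt 0 x with h | h
  · rw [pk_of_nonneg h, pk_of_nonneg (h.trans hxy)]
    unfold fk
    gcongr
  · rw [pk_of_neg h]; exact pk_nonneg k y

lemma pk_rderiv (k : ℕ) (x : ℝ) : HasDerivWithinAt (pk (k + 1)) (pk k x) (Ioi x) x := by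
  rcases le_or_gt 0 x with h | h
  · rw [pk_of_nonneg h]
    refine (fk_deriv k x).hasDerivWithinAt.congr ?_ (pk_of_nonneg h)
    intro y hy
    exact pk_of_nonneg (h.trans (mem_Ioi.mp hy).le)
  · rw [pk_of_neg h]
    refine HasDerivAt.hasDerivWithinAt ?_
    refine (hasDerivAt_const x (0:ℝ)).congr_of_eventuallyEq ?_
    filter_upwards [Iio_mem_nhds h] with y hy
    exact pk_of_neg hy

lemma pk_deriv (k : ℕ) (x : ℝ) : HasDerivAt (pk (k + 2)) (pk (k + 1) x) x := by
  rcases lt_trichotomy x 0 with h | h | h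
  · rw [pk_of_neg h]
    refine (hasDerivAt_const x (0:ℝ)).congr_of_eventuallyEq ?_
    filter_upwards [Iio_mem_nhds h] with y hy
    exact pk_of_neg hy
  · subst h
    rw [pk_of_nonneg le_rfl]
    have h0 : fk (k + 1) 0 = 0 := by simp [fk]
    rw [h0]
    rw [hasDerivAt_iff_isLittleO_nhds_zero]
    simp only [zero_add, smul_zero, sub_zero]
    have h1 : pk (k + 2) 0 = 0 := by rw [pk_of_nonneg le_rfl]; simp [fk]
    simp only [h1, sub_zero]
    have h2 : (fun h : ℝ => pk (k + 2) h) =O[nhds 0] fun h : ℝ => h ^ 2 := by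
      apply Asymptotics.IsBigO.of_bound 1
      filter_upwards [Metric.ball_mem_nhds (0:ℝ) one_pos] with y hy
      rw [Metric.mem_ball, dist_zero_right, Real.norm_eq_abs] at hy
      rw [Real.norm_eq_abs, Real.norm_eq_abs, abs_of_nonneg (pk_nonneg _ _), one_mul]
      rcases le_or_gt 0 y with hy0 | hy0
      · rw [pk_of_nonneg hy0]
        rw [abs_of_nonneg hy0] at hy
        unfold fk
        rw [div_le_iff₀ (by positivity), abs_of_nonneg (by positivity)]
        have h3 : y ^ (k + 2) ≤ y ^ 2 := pow_le_pow_of_le_one hy0 hy.le (by omega)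
        have h4 : (1 : ℝ) ≤ ((k + 2).factorial : ℝ) := by
          exact_mod_cast Nat.succ_le_of_lt (Nat.factorial_pos _)
        nlinarith [sq_nonneg y]
      · rw [pk_of_neg hy0]; positivity
    refine h2.trans_isLittleO ?_
    have := Asymptotics.isLittleO_pow_id (𝕜 := ℝ) (n := 2) (by norm_num)
    simpa using this
  · rw [pk_of_nonneg h.le]
    refine (fk_deriv (k + 1) x).congr_of_eventuallyEq ?_
    filter_upwards [Ioi_mem_nhds h] with y hy
    exact pk_of_nonneg (le_of_lt hy)

lemma pk_intervalIntegrable (k : ℕ) (x y : ℝ) : IntervalIntegrable (pk k) volume x y :=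
  (pk_mono k).intervalIntegrable

lemma pk_integral (k : ℕ) (x y : ℝ) : ∫ z in x..y, pk k z = pk (k + 1) y - pk (k + 1) x := by
  apply intervalIntegral.integral_eq_sub_of_hasDeriv_right
  · exact (pk_cont k).continuousOn
  · intro z _
    exact pk_rderiv k z
  · exact pk_intervalIntegrable k x y

lemma Q_empty (b : ι → ℝ) (k : ℕ) (z : ℝ) : Q b k ∅ z = pk k z := N_empty b _ z

lemma Q_fun_insert {b : ι → ℝ} (k : ℕ) {s : Finset ι} {i : ι} (hi : i ∉ s) :
    Q b k (insert i s) = fun z => (Q b k s (z + b i) - Q b k s (z - b i)) / (2 * b i) := by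
  ext z; exact Q_insert k hi z

lemma Q_cont (b : ι → ℝ) (k : ℕ) (s : Finset ι) : Continuous (Q b (k + 1) s) := by
  induction s using Finset.induction_on with
  | empty =>
    have : Q b (k + 1) (∅ : Finset ι) = pk (k + 1) := by ext z; exact Q_empty b _ z
    rw [this]; exact pk_cont k
  | insert i s hi ih =>
    rw [Q_fun_insert _ hi]
    fun_prop

lemma Q_measurable (b : ι → ℝ) (k : ℕ) (s : Finset ι) : Measurable (Q b k s) := by
  induction s using Finset.induction_on with
  | empty =>
    have : Q b k (∅ : Finset ι) = pk k := by ext z; exact Q_empty b _ z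
    rw [this]; exact pk_measurable k
  | insert i s hi ih =>
    rw [Q_fun_insert _ hi]
    fun_prop

lemma Q_intervalIntegrable (b : ι → ℝ) (k : ℕ) (s : Finset ι) (x y : ℝ) :
    IntervalIntegrable (Q b k s) volume x y := by
  induction s using Finset.induction_on generalizing x y with
  | empty =>
    have : Q b k (∅ : Finset ι) = pk k := by ext z; exact Q_empty b _ z
    rw [this]; exact pk_intervalIntegrable k x y
  | insert i s hi ih =>
    rw [Q_fun_insert _ hi]
    have h1 := (ih (x + b i) (y + b i)).comp_add_right (b i)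
    have h2 := (ih (x - b i) (y - b i)).comp_sub_right (b i)
    simp only [add_sub_cancel_right, sub_add_cancel] at h1 h2
    exact (h1.sub h2).div_const _

lemma Q_deriv (b : ι → ℝ) (k : ℕ) (s : Finset ι) (z : ℝ) :
    HasDerivAt (Q b (k + 2) s) (Q b (k + 1) s z) z := by
  induction s using Finset.induction_on generalizing z with
  | empty =>
    have : ∀ k, Q b k (∅ : Finset ι) = pk k := by intro k; ext z; exact Q_empty b _ z
    rw [this, this]; exact pk_deriv k z
  | insert i s hi ih =>
    rw [Q_fun_insert _ hi, Q_fun_insert _ hi]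
    exact (((ih (z + b i)).comp_add_const z (b i)).sub ((ih (z - b i)).comp_sub_const z (b i))).div_const _

lemma Q_rderiv (b : ι → ℝ) (k : ℕ) (s : Finset ι) (z : ℝ) :
    HasDerivWithinAt (Q b (k + 1) s) (Q b k s z) (Ioi z) z := by
  induction s using Finset.induction_on generalizing z with
  | empty =>
    have : ∀ k, Q b k (∅ : Finset ι) = pk k := by intro k; ext z; exact Q_empty b _ z
    rw [this, this]; exact pk_rderiv k z
  | insert i s hi ih =>
    rw [Q_fun_insert _ hi, Q_fun_insert _ hi]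
    have h1 : HasDerivWithinAt (fun z => Q b (k + 1) s (z + b i)) (Q b k s (z + b i)) (Ioi z) z := by
      have h := (ih (z + b i)).scomp (x := z) (s := Ioi z) (h := fun z => z + b i)
        ((hasDerivAt_id z).add_const (b i)).hasDerivWithinAt
        (fun y hy => by simp only [Set.mem_Ioi] at hy ⊢; linarith)
      simpa only [one_smul, Function.comp_def] using h
    have h2 : HasDerivWithinAt (fun z => Q b (k + 1) s (z - b i)) (Q b k s (z - b i)) (Ioi z) z := by
      have h := (ih (z - b i)).scomp (x := z) (s := Ioi z) (h := fun z => z - b i)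
        ((hasDerivAt_id z).sub_const (b i)).hasDerivWithinAt
        (fun y hy => by simp only [Set.mem_Ioi] at hy ⊢; linarith)
      simpa only [one_smul, Function.comp_def] using h
    exact (h1.sub h2).div_const _

lemma Q_integral (b : ι → ℝ) (k : ℕ) (s : Finset ι) (x y : ℝ) :
    ∫ z in x..y, Q b k s z = Q b (k + 1) s y - Q b (k + 1) s x := by
  induction s using Finset.induction_on generalizing x y with
  | empty => simp only [Q_empty]; exact pk_integral k x y
  | insert i s hi ih =>
    rw [Q_fun_insert _ hi, Q_fun_insert _ hi, intervalIntegral.integral_div,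
      intervalIntegral.integral_sub, intervalIntegral.integral_comp_add_right (f := Q b k s),
      intervalIntegral.integral_comp_sub_right (f := Q b k s), ih, ih]
    · ring
    · have h1 := (Q_intervalIntegrable b k s (x + b i) (y + b i)).comp_add_right (b i)
      simpa only [add_sub_cancel_right] using h1
    · have h1 := (Q_intervalIntegrable b k s (x - b i) (y - b i)).comp_sub_right (b i)
      simpa only [sub_add_cancel] using h1

/-- Averaging. -/
lemma Q_avg {b : ι → ℝ} (k : ℕ) {s : Finset ι} {i : ι} (hi : i ∉ s) (z : ℝ) :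
    Q b (k + 1) (insert i s) z = (∫ y in (z - b i)..(z + b i), Q b k s y) / (2 * b i) := by
  rw [Q_integral, Q_insert _ hi]

lemma Q_bound {b : ι → ℝ} {k : ℕ} {s : Finset ι} (hb : ∀ i ∈ s, 0 < b i) (hk : k < s.card) :
    ∃ C : ℝ, ∀ z, |Q b k s z| ≤ C := by
  refine ⟨(∑ T ∈ s.powerset, pk k (2 * ∑ i ∈ s, b i)) / ∏ i ∈ s, (2 * b i), ?_⟩
  have hpos : 0 < ∏ i ∈ s, (2 * b i) := Finset.prod_pos (fun i hi => by have := hb i hi; positivity)
  intro z
  rcases le_or_gt (∑ i ∈ s, b i) z with h | h
  · rw [Q_high_zero hb hk h, abs_zero]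
    exact div_nonneg (Finset.sum_nonneg (fun _ _ => pk_nonneg _ _)) hpos.le
  · unfold Q N
    rw [abs_div, abs_of_pos hpos]
    gcongr
    refine (Finset.abs_sum_le_sum_abs _ _).trans (Finset.sum_le_sum ?_)
    intro T hT
    rw [abs_mul, abs_pow, abs_neg, abs_one, one_pow, one_mul, abs_of_nonneg (pk_nonneg _ _)]
    apply pk_mono
    have : 0 ≤ ∑ i ∈ T, b i :=
      Finset.sum_nonneg (fun i hi => (hb i (Finset.mem_powerset.mp hT hi)).le)
    linarith

/-- Scaling. -/
lemma pk_scale {c : ℝ} (hc : 0 < c) (k : ℕ) (x : ℝ) : pk k (c * x) = c ^ k * pk k x := by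
  rcases le_or_gt 0 x with h | h
  · rw [pk_of_nonneg h, pk_of_nonneg (by positivity)]; unfold fk; ring
  · rw [pk_of_neg h, pk_of_neg (by nlinarith)]; ring

lemma Q_scale (b : ι → ℝ) {c : ℝ} (hc : 0 < c) (k : ℕ) (s : Finset ι) (z : ℝ) :
    c ^ s.card * Q (fun i => c * b i) k s (c * z) = c ^ k * Q b k s z := by
  unfold Q N
  have h1 : ∏ i ∈ s, (2 * (c * b i)) = c ^ s.card * ∏ i ∈ s, (2 * b i) := by
    rw [← Finset.prod_const, ← Finset.prod_mul_distrib]
    apply Finset.prod_congr rfl
    intro i _; ring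
  rw [h1]
  have h2 : ∀ T ∈ s.powerset, (-1 : ℝ) ^ T.card * pk k (c * z + ∑ i ∈ s, c * b i - 2 * ∑ i ∈ T, c * b i) =
      c ^ k * ((-1 : ℝ) ^ T.card * pk k (z + ∑ i ∈ s, b i - 2 * ∑ i ∈ T, b i)) := by
    intro T _
    rw [← Finset.mul_sum, ← Finset.mul_sum,
      show c * z + c * ∑ i ∈ s, b i - 2 * (c * ∑ i ∈ T, b i) =
        c * (z + ∑ i ∈ s, b i - 2 * ∑ i ∈ T, b i) by ring, pk_scale hc]
    ring
  rw [Finset.sum_congr rfl h2, ← Finset.mul_sum]
  have hc' : c ^ s.card ≠ 0 := by positivity
  rcases eq_or_ne (∏ i ∈ s, (2 * b i)) 0 with h | h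
  · rw [h]; simp
  · field_simp

end Pool.Agent.Helper34.Slab
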