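import Pool.Agent.Helper34.Slab.FTwoLarge

set_option autoImplicit false

open MeasureTheory Set Real
open scoped ENNReal Topology

namespace Pool.Agent.Helper34.Slab

open Pool.Agent.Helper88.Slab

/-- The slab orthogonal to `f₂`. -/
lemma prob_f2 {n : ℕ} (hn : 2 ≤ n) {t : ℝ} (h1 : 1 / Real.sqrt 2 ≤ t) (h2 : t ≤ Real.sqrt 2) :
    prob (fun j : Fin n => if (j : ℕ) < 2 then 1 / Real.sqrt 2 else 0) t =
      Real.sqrt 2 * t - t^2/2 := by
  obtain ⟨m, rfl⟩ : ∃ m, n = m + 2 := ⟨n - 2, by omega⟩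
  obtain ⟨s, hs⟩ : ∃ s, s = 1 / Real.sqrt 2 := ⟨_, rfl⟩
  have hq0 : 0 < Real.sqrt 2 := by positivity
  have hq : Real.sqrt 2 ^ 2 = 2 := Real.sq_sqrt (by norm_num)
  have hs0 : 0 < s := by rw [hs]; positivity
  have hs2 : s^2 = 1/2 := by rw [hs, div_pow, hq]; norm_num
  have hqs : Real.sqrt 2 = 2 * s := by
    rw [hs]; field_simp; linarith
  rw [← hs] at h1
  simp_rw [← hs]
  have ht0 : 0 ≤ t := hs0.le.trans h1
  rw [prob_split _ 0, cube_split_cont 0 _ _ (by
    have e : |(if ((0 : Fin (m + 1 + 1)) : ℕ) < 2 then s else 0)| = s := by simp [abs_of_pos hs0]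
    rw [e]
    exact A_ind_cont hs0 ht0)]
  have e0 : |(if ((0 : Fin (m + 1 + 1)) : ℕ) < 2 then s else 0)| = s := by simp [abs_of_pos hs0]
  have e1 : (if ((((0 : Fin (m+1+1)).succAbove (0 : Fin (m + 1)) : Fin (m + 1 + 1))) : ℕ) < 2 then s else 0) = s := by
    simp
  have e2 : ∀ j : Fin m, (if ((((0 : Fin (m+1+1)).succAbove ((0 : Fin (m+1)).succAbove j) : Fin (m + 1 + 1))) : ℕ) < 2 then s else 0) = 0 := by
    intro j
    simp
  rw [e0, e1]
  simp only [e2, zero_mul, Finset.sum_const_zero, integral_const, probReal_univ, one_smul]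
  -- now compute `A s (A s (ind t)) 0`
  have heven : ∀ y, A s (ind t) (-y) = A s (ind t) y := A_even s (ind_even t)
  have hcont := A_ind_cont hs0 ht0
  rw [A_eq]
  simp only [add_zero]
  rw [intervalIntegral.integral_comp_mul_left (fun z => A s (ind t) z) hs0.ne']
  have hsym : ∫ z in (s * -1)..(s * 1), A s (ind t) z = 2 * ∫ z in (0:ℝ)..s, A s (ind t) z := by
    rw [mul_neg_one, mul_one,
      ← intervalIntegral.integral_add_adjacent_intervals (b := (0:ℝ))
      (hcont.intervalIntegrable _ _) (hcont.intervalIntegrable _ _)]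
    have := intervalIntegral.integral_comp_neg (a := 0) (b := s) (f := A s (ind t))
    simp only [neg_zero] at this
    rw [← this]
    have h3 : ∫ x in (0:ℝ)..s, A s (ind t) (-x) = ∫ x in (0:ℝ)..s, A s (ind t) x := by
      apply intervalIntegral.integral_congr
      intro x _
      exact heven x
    rw [h3]; ring
  rw [hsym]
  have hc : 0 ≤ t - s := by linarith
  have hval : ∫ z in (0:ℝ)..s, A s (ind t) z = ∫ z in (0:ℝ)..s, (1 - max 0 (z - (t - s)) / (2*s)) := by
    apply intervalIntegral.integral_congr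
    intro z hz
    rw [uIcc_of_le hs0.le] at hz
    simp only
    rw [A_ind hs0 ht0]
    unfold clamp
    rw [min_eq_right (by linarith [hz.1, hz.2] : z - s ≤ t),
      max_eq_right (by linarith [hz.1] : -t ≤ z - s),
      max_eq_right (by rw [le_min_iff]; constructor <;> linarith [hz.1] : -t ≤ min t (z + s))]
    rcases le_total (z - (t - s)) 0 with h | h
    · rw [max_eq_left h, min_eq_right (by linarith)]
      field_simp
      ring
    · rw [max_eq_right h, min_eq_left (by linarith)]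
      field_simp
      ring
  rw [hval, intervalIntegral.integral_sub, intervalIntegral.integral_div, integral_max hc hs0.le]
  · simp only [intervalIntegral.integral_const, sub_zero, smul_eq_mul, mul_one]
    rw [max_eq_right (by rw [hqs] at h2; linarith), hqs]
    field_simp
    nlinarith
  · exact Continuous.intervalIntegrable (by fun_prop) _ _
  · exact Continuous.intervalIntegrable (by fun_prop) _ _

theorem slab_f2_le (n : ℕ) (hn : 2 ≤ n) (t : ℝ) (ht0 : 2 * Real.sqrt 2 - 2 ≤ t) (ht1 : t ≤ 0.85)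
    (a : Fin n → ℝ) (ha : ∑ i, a i ^ 2 = 1) :
    volume {x : Fin n → ℝ | (∀ i, |x i| ≤ 1) ∧
        |∑ i : Fin n, (if (i : ℕ) < 2 then 1 / Real.sqrt 2 else 0) * x i| ≤ t} ≤
      volume {x : Fin n → ℝ | (∀ i, |x i| ≤ 1) ∧ |∑ i, a i * x i| ≤ t} := by
  obtain ⟨q1, q2⟩ := sqrt2_bounds
  rw [volume_slab_pi, volume_slab_pi]
  apply mul_le_mul_right
  apply ENNReal.ofReal_le_ofReal
  rw [prob_f2 hn]
  · exact prob_ge_v ht0 ht1 a ha
  · rw [div_le_iff₀ (by positivity)]
    nlinarith
  · linarith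

end Pool.Agent.Helper34.Slab
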