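import Mathlib

/-!
One-dimensional Prekopa-Leindler inequality and log-concavity of averages over windows.
-/

open MeasureTheory Set

namespace Pool.Agent.Helper34.Slab

/-- The volume of a set of convex combinations, when it is contained in a bounded interval. -/
theorem pl_vol {A B C : Set ℝ} (hA : A.Nonempty) (hB : B.Nonempty)
    (bA : BddAbove A ∧ BddBelow A) (bB : BddAbove B ∧ BddBelow B) (bC : BddAbove C ∧ BddBelow C)
    (oC : C.OrdConnected) {l : ℝ} (h0 : 0 < l) (h1 : l < 1)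
    (h : ∀ a ∈ A, ∀ b ∈ B, (1 - l) * a + l * b ∈ C) :
    ENNReal.ofReal (1 - l) * volume A + ENNReal.ofReal l * volume B ≤ volume C := by
  have hl1 : 0 < 1 - l := by linarith
  have hvol : ∀ S : Set ℝ, BddAbove S ∧ BddBelow S → S.Nonempty →
      volume S ≤ ENNReal.ofReal (sSup S - sInf S) ∧ 0 ≤ sSup S - sInf S := by
    intro S hS hne
    refine ⟨?_, ?_⟩
    · rw [← Real.volume_Icc]
      exact measure_mono (subset_Icc_csInf_csSup hS.2 hS.1)
    · obtain ⟨s, hs⟩ := hne
      have h2 := csInf_le hS.2 hs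
      have h3 := le_csSup hS.1 hs
      linarith
  have hC : ENNReal.ofReal (sSup C - sInf C) ≤ volume C := by
    rw [← Real.volume_Ioo]
    refine measure_mono fun x hx => ?_
    obtain ⟨a, ha⟩ := hA
    obtain ⟨b, hb⟩ := hB
    have hne : C.Nonempty := ⟨_, h a ha b hb⟩
    obtain ⟨c, hc, hcx⟩ := exists_lt_of_csInf_lt hne hx.1
    obtain ⟨d, hd, hxd⟩ := exists_lt_of_lt_csSup hne hx.2
    exact oC.out hc hd ⟨hcx.le, hxd.le⟩
  have hinf : sInf C ≤ (1 - l) * sInf A + l * sInf B := by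
    have h2 : ∀ b ∈ B, (sInf C - l * b) / (1 - l) ≤ sInf A := by
      intro b hb
      refine le_csInf hA fun a ha => ?_
      rw [div_le_iff₀ hl1]
      have := csInf_le bC.2 (h a ha b hb)
      linarith
    have h3 : (sInf C - (1 - l) * sInf A) / l ≤ sInf B := by
      refine le_csInf hB fun b hb => ?_
      have := h2 b hb
      rw [div_le_iff₀ hl1] at this
      rw [div_le_iff₀ h0]
      linarith
    rw [div_le_iff₀ h0] at h3
    linarith
  have hsup : (1 - l) * sSup A + l * sSup B ≤ sSup C := by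
    have h2 : ∀ b ∈ B, sSup A ≤ (sSup C - l * b) / (1 - l) := by
      intro b hb
      refine csSup_le hA fun a ha => ?_
      rw [le_div_iff₀ hl1]
      have := le_csSup bC.1 (h a ha b hb)
      linarith
    have h3 : sSup B ≤ (sSup C - (1 - l) * sSup A) / l := by
      refine csSup_le hB fun b hb => ?_
      have := h2 b hb
      rw [le_div_iff₀ hl1] at this
      rw [le_div_iff₀ h0]
      linarith
    rw [le_div_iff₀ h0] at h3
    linarith
  obtain ⟨vA, pA⟩ := hvol A bA hA
  obtain ⟨vB, pB⟩ := hvol B bB hB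
  calc ENNReal.ofReal (1 - l) * volume A + ENNReal.ofReal l * volume B
      ≤ ENNReal.ofReal (1 - l) * ENNReal.ofReal (sSup A - sInf A) +
        ENNReal.ofReal l * ENNReal.ofReal (sSup B - sInf B) := by gcongr
    _ = ENNReal.ofReal ((1 - l) * (sSup A - sInf A) + l * (sSup B - sInf B)) := by
        rw [← ENNReal.ofReal_mul hl1.le, ← ENNReal.ofReal_mul h0.le,
          ← ENNReal.ofReal_add (mul_nonneg hl1.le pA) (mul_nonneg h0.le pB)]
    _ ≤ ENNReal.ofReal (sSup C - sInf C) := ENNReal.ofReal_le_ofReal (by linarith)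
    _ ≤ volume C := hC

/-- Normalised form. -/
theorem pl_norm {f g h : ℝ → ℝ} (hf : Integrable f) (hg : Integrable g) (hh : Integrable h)
    (f0 : ∀ x, 0 ≤ f x) (g0 : ∀ x, 0 ≤ g x) (h0 : ∀ x, 0 ≤ h x) (f1 : ∀ x, f x ≤ 1)
    (g1 : ∀ x, g x ≤ 1) (f2 : ∀ c < 1, ∃ x, c < f x) (g2 : ∀ c < 1, ∃ x, c < g x) {R : ℝ}
    (fs : ∀ x, 0 < f x → |x| ≤ R) (gs : ∀ x, 0 < g x → |x| ≤ R) (hs : ∀ x, 0 < h x → |x| ≤ R)
    (hc : ∀ c, 0 ≤ c → OrdConnected {x | c < h x}) {l : ℝ} (l0 : 0 < l) (l1 : l < 1)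
    (hle : ∀ x y, f x ^ (1 - l) * g y ^ l ≤ h ((1 - l) * x + l * y)) :
    (1 - l) * (∫ x, f x) + l * (∫ x, g x) ≤ ∫ x, h x := by
  have hl1 : 0 < 1 - l := by linarith
  have hbd : ∀ (u : ℝ → ℝ) (_ : ∀ x, 0 < u x → |x| ≤ R) (c : ℝ) (_ : 0 ≤ c),
      BddAbove {x | c < u x} ∧ BddBelow {x | c < u x} := by
    intro u hu c hc0
    refine ⟨⟨R, fun x hx => (abs_le.1 (hu x (hc0.trans_lt hx))).2⟩,
      ⟨-R, fun x hx => (abs_le.1 (hu x (hc0.trans_lt hx))).1⟩⟩
  have hmeas : ∀ u : ℝ → ℝ, Measurable fun t : ℝ => volume {x | t < u x} := by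
    intro u
    refine Antitone.measurable fun s t hst => measure_mono fun x hx => ?_
    exact lt_of_le_of_lt hst hx
  have hlay : ∀ u : ℝ → ℝ, Integrable u → (∀ x, 0 ≤ u x) → (∀ x, u x ≤ 1) →
      ENNReal.ofReal (∫ x, u x) = ∫⁻ t in Ioo (0 : ℝ) 1, volume {x | t < u x} := by
    intro u hu u0 u1
    rw [ofReal_integral_eq_lintegral_ofReal hu (Filter.Eventually.of_forall u0),
      lintegral_eq_lintegral_meas_lt _ (Filter.Eventually.of_forall u0) hu.aemeasurable]
    rw [← lintegral_indicator measurableSet_Ioi, ← lintegral_indicator measurableSet_Ioo]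
    refine lintegral_congr fun t => ?_
    by_cases ht : t ∈ Ioo (0 : ℝ) 1
    · rw [indicator_of_mem ht, indicator_of_mem (show t ∈ Ioi (0 : ℝ) from ht.1)]
    · rw [indicator_of_notMem ht]
      by_cases ht0 : t ∈ Ioi (0 : ℝ)
      · rw [indicator_of_mem ht0]
        have h1t : 1 ≤ t := by
          by_contra hcon
          exact ht ⟨ht0, not_le.1 hcon⟩
        have : {x | t < u x} = ∅ := by
          ext x
          simp only [mem_ofPred_eq, mem_empty_iff_false, iff_false, not_lt]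
          exact (u1 x).trans h1t
        rw [this, measure_empty]
      · rw [indicator_of_notMem ht0]
  have hkey : ENNReal.ofReal (1 - l) * ENNReal.ofReal (∫ x, f x) +
      ENNReal.ofReal l * ENNReal.ofReal (∫ x, g x) ≤ ENNReal.ofReal (∫ x, h x) := by
    rw [hlay f hf f0 f1, hlay g hg g0 g1,
      ofReal_integral_eq_lintegral_ofReal hh (Filter.Eventually.of_forall h0),
      lintegral_eq_lintegral_meas_lt _ (Filter.Eventually.of_forall h0) hh.aemeasurable,
      ← lintegral_const_mul _ (hmeas f), ← lintegral_const_mul _ (hmeas g),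
      ← lintegral_add_left ((hmeas f).const_mul _)]
    refine le_trans (setLIntegral_mono (hmeas h) fun t ht => ?_)
      (lintegral_mono_set fun t ht => ht.1)
    obtain ⟨x, hx⟩ := f2 t ht.2
    obtain ⟨y, hy⟩ := g2 t ht.2
    refine pl_vol ⟨x, hx⟩ ⟨y, hy⟩ (hbd f fs t ht.1.le) (hbd g gs t ht.1.le) (hbd h hs t ht.1.le)
      (hc t ht.1.le) l0 l1 fun a ha b hb => ?_
    refine lt_of_lt_of_le ?_ (hle a b)
    have h3 : t = t ^ (1 - l) * t ^ l := by
      rw [← Real.rpow_add ht.1]
      simp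
    rw [h3]
    exact mul_lt_mul'' (Real.rpow_lt_rpow ht.1.le ha hl1) (Real.rpow_lt_rpow ht.1.le hb l0)
      (Real.rpow_nonneg ht.1.le _) (Real.rpow_nonneg ht.1.le _)
  have pf : 0 ≤ ∫ x, f x := integral_nonneg f0
  have pg : 0 ≤ ∫ x, g x := integral_nonneg g0
  have ph : 0 ≤ ∫ x, h x := integral_nonneg h0
  rw [← ENNReal.ofReal_mul hl1.le, ← ENNReal.ofReal_mul l0.le,
    ← ENNReal.ofReal_add (mul_nonneg hl1.le pf) (mul_nonneg l0.le pg),
    ENNReal.ofReal_le_ofReal_iff ph] at hkey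
  exact hkey

/-- The one-dimensional Prekopa-Leindler inequality for bounded functions with bounded support. -/
theorem pl_gen {f g h : ℝ → ℝ} (hf : Integrable f) (hg : Integrable g) (hh : Integrable h)
    (f0 : ∀ x, 0 ≤ f x) (g0 : ∀ x, 0 ≤ g x) (h0 : ∀ x, 0 ≤ h x) (f1 : BddAbove (range f))
    (g1 : BddAbove (range g)) {R : ℝ}
    (fs : ∀ x, 0 < f x → |x| ≤ R) (gs : ∀ x, 0 < g x → |x| ≤ R) (hs : ∀ x, 0 < h x → |x| ≤ R)
    (hc : ∀ c, 0 ≤ c → OrdConnected {x | c < h x}) {l : ℝ} (l0 : 0 < l) (l1 : l < 1)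
    (hle : ∀ x y, f x ^ (1 - l) * g y ^ l ≤ h ((1 - l) * x + l * y)) :
    (∫ x, f x) ^ (1 - l) * (∫ x, g x) ^ l ≤ ∫ x, h x := by
  have hl1 : 0 < 1 - l := by linarith
  have pf : 0 ≤ ∫ x, f x := integral_nonneg f0
  have pg : 0 ≤ ∫ x, g x := integral_nonneg g0
  have ph : 0 ≤ ∫ x, h x := integral_nonneg h0
  rcases pf.eq_or_lt with hf0 | hf0
  · rw [← hf0, Real.zero_rpow hl1.ne', zero_mul]
    exact ph
  rcases pg.eq_or_lt with hg0 | hg0
  · rw [← hg0, Real.zero_rpow l0.ne', mul_zero]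
    exact ph
  have hsup : ∀ u : ℝ → ℝ, (∀ x, 0 ≤ u x) → BddAbove (range u) → 0 < ∫ x, u x →
      0 < sSup (range u) ∧ (∀ x, u x ≤ sSup (range u)) ∧
        ∀ c < sSup (range u), ∃ x, c < u x := by
    intro u u0 ub ui
    have h1 : ∀ x, u x ≤ sSup (range u) := fun x => le_csSup ub ⟨x, rfl⟩
    refine ⟨?_, h1, fun c hc => ?_⟩
    · by_contra hcon
      have h2 : ∀ x, u x = 0 := fun x => le_antisymm ((h1 x).trans (not_lt.1 hcon)) (u0 x)
      simp only [h2, integral_zero, lt_irrefl] at ui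
    · obtain ⟨_, ⟨x, rfl⟩, hx⟩ := exists_lt_of_lt_csSup (range_nonempty u) hc
      exact ⟨x, hx⟩
  obtain ⟨F0, F1, F2⟩ := hsup f f0 f1 hf0
  obtain ⟨G0, G1, G2⟩ := hsup g g0 g1 hg0
  set F := sSup (range f) with hF
  set G := sSup (range g) with hG
  have hH : 0 < F ^ (1 - l) * G ^ l := by positivity
  have key := pl_norm (f := fun x => f x / F) (g := fun x => g x / G)
    (h := fun x => h x / (F ^ (1 - l) * G ^ l)) (hf.div_const _) (hg.div_const _) (hh.div_const _)
    (fun x => div_nonneg (f0 x) F0.le) (fun x => div_nonneg (g0 x) G0.le)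
    (fun x => div_nonneg (h0 x) hH.le) (fun x => (div_le_one F0).2 (F1 x))
    (fun x => (div_le_one G0).2 (G1 x))
    (fun c hc1 => by
      obtain ⟨x, hx⟩ := F2 (c * F) (by nlinarith)
      exact ⟨x, (lt_div_iff₀ F0).2 hx⟩)
    (fun c hc1 => by
      obtain ⟨x, hx⟩ := G2 (c * G) (by nlinarith)
      exact ⟨x, (lt_div_iff₀ G0).2 hx⟩) (R := R)
    (fun x hx => fs x (by
      by_contra hcon
      have : f x = 0 := le_antisymm (not_lt.1 hcon) (f0 x)
      simp [this] at hx))
    (fun x hx => gs x (by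
      by_contra hcon
      have : g x = 0 := le_antisymm (not_lt.1 hcon) (g0 x)
      simp [this] at hx))
    (fun x hx => hs x (by
      by_contra hcon
      have : h x = 0 := le_antisymm (not_lt.1 hcon) (h0 x)
      simp [this] at hx))
    (fun c hc0 => by
      have := hc (c * (F ^ (1 - l) * G ^ l)) (by positivity)
      simpa only [lt_div_iff₀ hH] using this) l0 l1
    (fun x y => by
      rw [Real.div_rpow (f0 x) F0.le, Real.div_rpow (g0 y) G0.le, div_mul_div_comm]
      exact div_le_div_of_nonneg_right (hle x y) hH.le)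
  rw [integral_div, integral_div, integral_div] at key
  have key2 := Real.geom_mean_le_arith_mean2_weighted hl1.le l0.le (div_nonneg pf F0.le)
    (div_nonneg pg G0.le) (by ring : 1 - l + l = 1)
  have key3 := key2.trans key
  rw [Real.div_rpow pf F0.le, Real.div_rpow pg G0.le, div_mul_div_comm,
    div_le_div_iff_of_pos_right hH] at key3
  exact key3

theorem window_logconcave {G : ℝ → ℝ} (hm : Measurable G) {C : ℝ} (hC : ∀ x, |G x| ≤ C)
    (h0 : ∀ x, 0 < x → 0 ≤ G x)
    (hlc : ∀ x, 0 < x → ∀ y, 0 < y → ∀ l : ℝ, 0 < l → l < 1 →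
      G x ^ (1 - l) * G y ^ l ≤ G ((1 - l) * x + l * y))
    {b : ℝ} (hb : 0 < b) :
    ∀ x, 0 < x → ∀ y, 0 < y → ∀ l : ℝ, 0 < l → l < 1 →
      (∫ p in |x - b|..(x + b), G p) ^ (1 - l) * (∫ p in |y - b|..(y + b), G p) ^ l
        ≤ ∫ p in |((1 - l) * x + l * y) - b|..(((1 - l) * x + l * y) + b), G p := by
  intro x hx y hy l l0 l1
  have hl1 : 0 < 1 - l := by linarith
  have hw : 0 < (1 - l) * x + l * y := by positivity
  set w := (1 - l) * x + l * y with hwdef
  -- the integrals as integrals over the line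
  have hint : ∀ z, 0 < z → ∫ p in |z - b|..(z + b), G p =
      ∫ p, (Ioo |z - b| (z + b)).indicator G p := by
    intro z hz
    have h1 : |z - b| ≤ z + b := abs_le.2 ⟨by linarith, by linarith⟩
    rw [intervalIntegral.integral_of_le h1, integral_Ioc_eq_integral_Ioo,
      integral_indicator measurableSet_Ioo]
  have hpos : ∀ z p, p ∈ Ioo |z - b| (z + b) → 0 < p := fun z p hp =>
    (abs_nonneg _).trans_lt hp.1
  have hi : ∀ z, Integrable ((Ioo |z - b| (z + b)).indicator G) := by
    intro z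
    rw [integrable_indicator_iff measurableSet_Ioo]
    refine Measure.integrableOn_of_bounded (M := C) ?_ hm.aestronglyMeasurable
      (Filter.Eventually.of_forall hC)
    rw [Real.volume_Ioo]
    exact ENNReal.ofReal_ne_top
  have hn : ∀ z p, 0 ≤ (Ioo |z - b| (z + b)).indicator G p := by
    intro z p
    exact indicator_nonneg (fun q hq => h0 q (hpos z q hq)) p
  have hbdd : ∀ z, BddAbove (range ((Ioo |z - b| (z + b)).indicator G)) := by
    intro z
    refine ⟨C, ?_⟩
    rintro _ ⟨p, rfl⟩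
    have hC0 : 0 ≤ C := (abs_nonneg _).trans (hC 0)
    by_cases hp : p ∈ Ioo |z - b| (z + b)
    · rw [indicator_of_mem hp]
      exact (le_abs_self _).trans (hC p)
    · rw [indicator_of_notMem hp]
      exact hC0
  have hmem : ∀ z p, 0 < (Ioo |z - b| (z + b)).indicator G p → p ∈ Ioo |z - b| (z + b) := by
    intro z p hp
    by_contra hcon
    rw [indicator_of_notMem hcon] at hp
    exact lt_irrefl _ hp
  have hsupp : ∀ z, |z| ≤ x + y → ∀ p, 0 < (Ioo |z - b| (z + b)).indicator G p →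
      |p| ≤ x + y + b := by
    intro z hz p hp
    have h1 := hmem z p hp
    rw [abs_of_pos (hpos z p h1)]
    have := (abs_le.1 hz).2
    linarith [h1.2]
  rw [hint x hx, hint y hy, hint w hw]
  refine pl_gen (hi x) (hi y) (hi w) (hn x) (hn y) (hn w) (hbdd x) (hbdd y) (R := x + y + b)
    (hsupp x (by rw [abs_of_pos hx]; linarith)) (hsupp y (by rw [abs_of_pos hy]; linarith))
    (hsupp w (by rw [abs_of_pos hw, hwdef]; nlinarith)) ?_ l0 l1 ?_
  · intro c hc
    refine ⟨?_⟩
    rintro p hp q hq r ⟨hpr, hrq⟩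
    have hp' : c < (Ioo |w - b| (w + b)).indicator G p := hp
    have hq' : c < (Ioo |w - b| (w + b)).indicator G q := hq
    have hpm := hmem w p (hc.trans_lt hp')
    have hqm := hmem w q (hc.trans_lt hq')
    have hrm : r ∈ Ioo |w - b| (w + b) := ⟨hpm.1.trans_le hpr, hrq.trans_lt hqm.2⟩
    rw [indicator_of_mem hpm] at hp'
    rw [indicator_of_mem hqm] at hq'
    show c < (Ioo |w - b| (w + b)).indicator G r
    rw [indicator_of_mem hrm]
    rcases hpr.eq_or_lt with h1 | h1
    · rw [← h1]; exact hp'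
    rcases hrq.eq_or_lt with h2 | h2
    · rw [h2]; exact hq'
    have hpq : 0 < q - p := by linarith
    have s0 : 0 < (r - p) / (q - p) := div_pos (by linarith) hpq
    have s1 : (r - p) / (q - p) < 1 := (div_lt_one hpq).2 (by linarith)
    have h3 := hlc p (hpos w p hpm) q (hpos w q hqm) _ s0 s1
    have h4 : (1 - (r - p) / (q - p)) * p + (r - p) / (q - p) * q = r := by
      field_simp
      ring
    rw [h4] at h3
    refine lt_of_lt_of_le ?_ h3
    have hs1 : 0 < 1 - (r - p) / (q - p) := by linarith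
    rcases hc.eq_or_lt with h5 | h5
    · rw [← h5] at hp' hq' ⊢
      positivity
    · have h6 : c = c ^ (1 - (r - p) / (q - p)) * c ^ ((r - p) / (q - p)) := by
        rw [← Real.rpow_add h5]
        simp
      rw [h6]
      exact mul_lt_mul'' (Real.rpow_lt_rpow hc hp' hs1) (Real.rpow_lt_rpow hc hq' s0)
        (Real.rpow_nonneg hc _) (Real.rpow_nonneg hc _)
  · intro p q
    by_cases hp : p ∈ Ioo |x - b| (x + b)
    swap
    · rw [indicator_of_notMem hp, Real.zero_rpow hl1.ne', zero_mul]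
      exact hn w _
    by_cases hq : q ∈ Ioo |y - b| (y + b)
    swap
    · rw [indicator_of_notMem hq, Real.zero_rpow l0.ne', mul_zero]
      exact hn w _
    have hm' : (1 - l) * p + l * q ∈ Ioo |w - b| (w + b) := by
      constructor
      · have h1 : w - b = (1 - l) * (x - b) + l * (y - b) := by rw [hwdef]; ring
        calc |w - b| ≤ |(1 - l) * (x - b)| + |l * (y - b)| := by rw [h1]; exact abs_add_le _ _
          _ = (1 - l) * |x - b| + l * |y - b| := by
            rw [abs_mul, abs_mul, abs_of_pos hl1, abs_of_pos l0]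
          _ < (1 - l) * p + l * q := by nlinarith [hp.1, hq.1]
      · rw [hwdef]
        nlinarith [hp.2, hq.2]
    rw [indicator_of_mem hp, indicator_of_mem hq, indicator_of_mem hm']
    exact hlc p (hpos x p hp) q (hpos y q hq) l l0 l1

end Pool.Agent.Helper34.Slab
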