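import Pool.Agent.Helper34.Slab.Analysis
import Pool.Agent.Helper34.Slab.PL

set_option autoImplicit false
set_option linter.unusedSectionVars false

open MeasureTheory

namespace Pool.Agent.Helper34.Slab

variable {ι : Type*} [DecidableEq ι]

/-- For `|r| = k + 2`, the function `G = -Q k r` is minus the derivative of the density. -/
lemma G_window {b : ι → ℝ} {k : ℕ} {r : Finset ι} (hb : ∀ i ∈ r, 0 < b i) (hr : r.card = k + 2)
    {i : ι} (hi : i ∉ r) {z : ℝ} :
    - Q b (k + 1) (insert i r) z = (∫ y in |z - b i|..(z + b i), - Q b k r y) / (2 * b i) := by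
  have heven : Q b (k + 1) r |z - b i| = Q b (k + 1) r (z - b i) := by
    rcases abs_choice (z - b i) with h | h
    · rw [h]
    · rw [h, Q_neg (by omega), (Qf_values r.card r rfl (fun i hi => (hb i hi).ne')).1 (k + 1) (by omega),
        hr, show k + 1 + (k + 2) = 2 * (k + 1) + 1 by ring, pow_succ, pow_mul]
      simp
  rw [Q_insert _ hi, intervalIntegral.integral_neg, Q_integral, heven]
  ring

lemma two_card {b : ι → ℝ} {r : Finset ι} (hb : ∀ i ∈ r, 0 < b i) (hr : r.card = 2) :
    ∃ c d e : ℝ, 0 ≤ c ∧ 0 ≤ d ∧ d ≤ e ∧ ∀ z, 0 < z → - Q b 0 r z = if d ≤ z ∧ z < e then c else 0 := by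
  obtain ⟨i, j, hij, rfl⟩ := Finset.card_eq_two.mp hr
  wlog hle : b j ≤ b i generalizing i j
  · have := this j i hij.symm (by rwa [Finset.pair_comm]) (by rwa [Finset.pair_comm]) (le_of_not_ge hle)
    rwa [Finset.pair_comm]
  have hbi : 0 < b i := hb i (by simp)
  have hbj : 0 < b j := hb j (by simp)
  refine ⟨1 / (4 * b i * b j), b i - b j, b i + b j, by positivity, by linarith, by linarith, ?_⟩
  intro z hz
  have hi : i ∉ ({j} : Finset ι) := by simpa using hij
  have hj : j ∉ (∅ : Finset ι) := by simp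
  have e1 : Q b 0 {i, j} z = (((pk 0 (z + b i + b j) - pk 0 (z + b i - b j)) / (2 * b j)) -
      ((pk 0 (z - b i + b j) - pk 0 (z - b i - b j)) / (2 * b j))) / (2 * b i) := by
    rw [Q_insert 0 hi]
    have : ∀ y, Q b 0 {j} y = (pk 0 (y + b j) - pk 0 (y - b j)) / (2 * b j) := by
      intro y
      have := Q_insert (b := b) 0 hj y
      simpa [Q_empty] using this
    rw [this, this]
  have p1 : ∀ x : ℝ, 0 ≤ x → pk 0 x = 1 := by
    intro x hx; rw [pk_of_nonneg hx]; simp [fk]
  rw [e1, p1 (z + b i + b j) (by linarith), p1 (z + b i - b j) (by linarith)]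
  by_cases h1 : b i - b j ≤ z
  · by_cases h2 : z < b i + b j
    · rw [if_pos ⟨h1, h2⟩, p1 (z - b i + b j) (by linarith), pk_of_neg (by linarith : z - b i - b j < 0)]
      field_simp
      ring
    · rw [if_neg (by tauto), p1 (z - b i + b j) (by linarith), p1 (z - b i - b j) (by linarith)]
      simp
  · rw [if_neg (by tauto), pk_of_neg (by linarith : z - b i + b j < 0),
      pk_of_neg (by linarith : z - b i - b j < 0)]
    simp

/-- `G` is nonnegative and log-concave on `(0, ∞)`. -/
lemma G_logconcave {b : ι → ℝ} (k : ℕ) : ∀ r : Finset ι, r.card = k + 2 → (∀ i ∈ r, 0 < b i) →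
    (∀ x, 0 < x → 0 ≤ - Q b k r x) ∧
    (∀ x, 0 < x → ∀ y, 0 < y → ∀ l : ℝ, 0 < l → l < 1 →
      (- Q b k r x) ^ (1 - l) * (- Q b k r y) ^ l ≤ - Q b k r ((1 - l) * x + l * y)) := by
  induction k with
  | zero =>
    intro r hr hb
    obtain ⟨c, d, e, hc, hd, hde, h⟩ := two_card hb hr
    have hnn : ∀ x, 0 < x → 0 ≤ - Q b 0 r x := by
      intro x hx; rw [h x hx]; split_ifs <;> simp [hc]
    refine ⟨hnn, ?_⟩
    intro x hx y hy l hl0 hl1
    have hw : 0 < (1 - l) * x + l * y := by
      have : 0 < (1 - l) * x := by apply mul_pos <;> linarith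
      positivity
    by_cases h1 : d ≤ x ∧ x < e
    · by_cases h2 : d ≤ y ∧ y < e
      · rw [h x hx, h y hy, h _ hw, if_pos h1, if_pos h2, if_pos]
        · rcases eq_or_lt_of_le hc with hc0 | hc0
          · rw [← hc0, Real.zero_rpow (by linarith)]; simp
          · rw [← Real.rpow_add hc0]; simp
        · constructor
          · nlinarith [h1.1, h2.1]
          · have a1 : (1 - l) * x < (1 - l) * e := mul_lt_mul_of_pos_left h1.2 (by linarith)
            have a2 : l * y < l * e := mul_lt_mul_of_pos_left h2.2 hl0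
            linarith
      · rw [h y hy, if_neg h2, Real.zero_rpow hl0.ne', mul_zero]
        exact hnn _ hw
    · rw [h x hx, if_neg h1, Real.zero_rpow (by linarith), zero_mul]
      exact hnn _ hw
  | succ k ih =>
    intro r hr hb
    obtain ⟨i, hi⟩ : r.Nonempty := by rw [← Finset.card_pos, hr]; omega
    have hc : (r.erase i).card = k + 2 := by rw [Finset.card_erase_of_mem hi, hr]; rfl
    have hb' : ∀ j ∈ r.erase i, 0 < b j := fun j hj => hb j (Finset.mem_of_mem_erase hj)
    obtain ⟨h1, h2⟩ := ih _ hc hb'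
    have hbi := hb i hi
    have hwin : ∀ z, - Q b (k + 1) r z =
        (∫ y in |z - b i|..(z + b i), - Q b k (r.erase i) y) / (2 * b i) := by
      intro z
      conv_lhs => rw [← Finset.insert_erase hi]
      exact G_window hb' hc (Finset.notMem_erase i r)
    have habs : ∀ z, 0 < z → |z - b i| ≤ z + b i := by
      intro z hz; rw [abs_le]; constructor <;> linarith
    have hnn : ∀ x, 0 < x → 0 ≤ ∫ y in |x - b i|..(x + b i), - Q b k (r.erase i) y := by
      intro x hx
      rw [intervalIntegral.integral_of_le (habs x hx)]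
      apply setIntegral_nonneg measurableSet_Ioc
      intro y hy
      exact h1 y (lt_of_le_of_lt (abs_nonneg _) hy.1)
    obtain ⟨C, hC⟩ := Q_bound (b := b) (k := k) hb' (by rw [hc]; omega)
    have hPL := window_logconcave (G := fun y => - Q b k (r.erase i) y)
      (Q_measurable b k (r.erase i)).neg (C := C) (fun x => by rw [abs_neg]; exact hC x) h1 h2 hbi
    refine ⟨?_, ?_⟩
    · intro x hx
      rw [hwin]
      exact div_nonneg (hnn x hx) (by positivity)
    · intro x hx y hy l hl0 hl1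
      have hw : 0 < (1 - l) * x + l * y := by
        have : 0 < (1 - l) * x := by apply mul_pos <;> linarith
        positivity
      rw [hwin, hwin, hwin]
      have h3 := hPL x hx y hy l hl0 hl1
      have hpos : 0 < 2 * b i := by positivity
      rw [Real.div_rpow (hnn x hx) hpos.le, Real.div_rpow (hnn y hy) hpos.le, div_mul_div_comm,
        ← Real.rpow_add hpos]
      simp only [sub_add_cancel, Real.rpow_one]
      gcongr

/-- Tilts of `G` are quasi-concave. -/
lemma G_tilt {b : ι → ℝ} {k : ℕ} {r : Finset ι} (hr : r.card = k + 2) (hb : ∀ i ∈ r, 0 < b i)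
    (a : ℝ) {x y z : ℝ} (hx : 0 < x) (hxy : x ≤ y) (hyz : y ≤ z) :
    min (Real.exp (a * x) * - Q b k r x) (Real.exp (a * z) * - Q b k r z) ≤
      Real.exp (a * y) * - Q b k r y := by
  obtain ⟨h1, h2⟩ := G_logconcave k r hr hb
  rcases eq_or_lt_of_le hxy with rfl | hxy'
  · exact min_le_left _ _
  rcases eq_or_lt_of_le hyz with rfl | hyz'
  · exact min_le_right _ _
  set l : ℝ := (y - x) / (z - x) with hl
  have hzx : 0 < z - x := by linarith
  have hl0 : 0 < l := div_pos (by linarith) hzx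
  have hl1 : l < 1 := by rw [hl, div_lt_one hzx]; linarith
  have hy : (1 - l) * x + l * z = y := by rw [hl]; field_simp; ring
  have h3 := h2 x hx z (by linarith) l hl0 hl1
  rw [hy] at h3
  set u := Real.exp (a * x) * - Q b k r x with hu
  set v := Real.exp (a * z) * - Q b k r z with hv
  have hu0 : 0 ≤ u := mul_nonneg (Real.exp_pos _).le (h1 x hx)
  have hv0 : 0 ≤ v := mul_nonneg (Real.exp_pos _).le (h1 z (by linarith))
  have hmin0 : 0 ≤ min u v := le_min hu0 hv0
  have h4 : u ^ (1 - l) * v ^ l ≤ Real.exp (a * y) * - Q b k r y := by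
    rw [hu, hv, Real.mul_rpow (Real.exp_pos _).le (h1 x hx),
      Real.mul_rpow (Real.exp_pos _).le (h1 z (by linarith)), ← Real.exp_mul, ← Real.exp_mul]
    rw [mul_mul_mul_comm, ← Real.exp_add]
    have : a * x * (1 - l) + a * z * l = a * y := by rw [← hy]; ring
    rw [this]
    gcongr
  have h5 : min u v ≤ u ^ (1 - l) * v ^ l := by
    rcases eq_or_lt_of_le hmin0 with h | h
    · rw [← h]; positivity
    · calc min u v = (min u v) ^ (1 - l) * (min u v) ^ l := by
            rw [← Real.rpow_add h]; simp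
        _ ≤ u ^ (1 - l) * v ^ l :=
            mul_le_mul (Real.rpow_le_rpow hmin0 (min_le_left _ _) (by linarith))
              (Real.rpow_le_rpow hmin0 (min_le_right _ _) hl0.le) (by positivity) (by positivity)
  exact h5.trans h4

/-- First and third moments of `G` on `(0, ∞)`. -/
lemma G_moments {b : ι → ℝ} {k : ℕ} {r : Finset ι} (hr : r.card = k + 2) (hb : ∀ i ∈ r, 0 < b i)
    {Z : ℝ} (hZ : ∑ i ∈ r, b i ≤ Z) (c : ℝ) :
    ∫ z in (0:ℝ)..Z, z * (z ^ 2 - c) * (- Q b k r z) = (∑ i ∈ r, b i ^ 2 - c) / 2 := by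
  have hb0 : ∀ i ∈ r, b i ≠ 0 := fun i hi => (hb i hi).ne'
  obtain ⟨v0, v1, v2, v3⟩ := Qf_values (k + 2) r hr hb0
  set Ψ : ℝ → ℝ := fun z => - (z ^ 3 - c * z) * Q b (k + 1) r z + (3 * z ^ 2 - c) * Q b (k + 2) r z
    - 6 * z * Q b (k + 3) r z + 6 * Q b (k + 4) r z with hΨ
  have hcont : Continuous Ψ := by
    have c1 := Q_cont b k r
    have c2 := Q_cont b (k + 1) r
    have c3 := Q_cont b (k + 2) r
    have c4 := Q_cont b (k + 3) r
    rw [hΨ]
    fun_prop
  have hint : ∫ z in (0:ℝ)..Z, z * (z ^ 2 - c) * (- Q b k r z) = Ψ Z - Ψ 0 := by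
    apply intervalIntegral.integral_eq_sub_of_hasDeriv_right
    · exact hcont.continuousOn
    · intro z _
      have d1 := Q_rderiv b k r z
      have d2 := (Q_deriv b k r z).hasDerivWithinAt (s := Set.Ioi z)
      have d3 : HasDerivWithinAt (Q b (k + 3) r) (Q b (k + 2) r z) (Set.Ioi z) z :=
        (Q_deriv b (k + 1) r z).hasDerivWithinAt
      have d4 : HasDerivWithinAt (Q b (k + 4) r) (Q b (k + 3) r z) (Set.Ioi z) z :=
        (Q_deriv b (k + 2) r z).hasDerivWithinAt
      have p1 : HasDerivWithinAt (fun z : ℝ => - (z ^ 3 - c * z)) (-(3 * z ^ 2 - c)) (Set.Ioi z) z := by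
        refine HasDerivAt.hasDerivWithinAt ?_
        refine HasDerivAt.congr_deriv (((hasDerivAt_pow 3 z).sub ((hasDerivAt_id z).const_mul c)).neg) ?_
        norm_num
      have p2 : HasDerivWithinAt (fun z : ℝ => 3 * z ^ 2 - c) (6 * z) (Set.Ioi z) z := by
        refine HasDerivAt.hasDerivWithinAt ?_
        refine HasDerivAt.congr_deriv (((hasDerivAt_pow 2 z).const_mul 3).sub_const c) ?_
        norm_num
        ring
      have p3 : HasDerivWithinAt (fun z : ℝ => 6 * z) 6 (Set.Ioi z) z := by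
        refine HasDerivAt.hasDerivWithinAt ?_
        refine HasDerivAt.congr_deriv ((hasDerivAt_id z).const_mul (6:ℝ)) ?_
        norm_num
      have := (((p1.mul d1).add (p2.mul d2)).sub (p3.mul d3)).add (d4.const_mul 6)
      refine HasDerivWithinAt.congr_deriv this ?_
      ring
    · apply IntervalIntegrable.continuousOn_mul (Q_intervalIntegrable b k r 0 Z).neg
      fun_prop
  have hz1 : Q b (k + 1) r Z = 0 := Q_high_zero hb (by omega) hZ
  have hz2 : Q b (k + 2) r Z = 1 := by rw [Q_eq_Qf _ hb hZ, v1]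
  have hz3 : Q b (k + 3) r Z = Z := by rw [Q_eq_Qf _ hb hZ, v2]
  have hz4 : Q b (k + 4) r Z = Z ^ 2 / 2 + (∑ i ∈ r, b i ^ 2) / 6 := by rw [Q_eq_Qf _ hb hZ, v3]
  have h02 : Q b (k + 2) r 0 = 1 / 2 := by
    have h := Q_neg (b := b) (k := k + 2) (by omega) r 0
    rw [v1, hr, neg_zero, show k + 2 + (k + 2) = 2 * (k + 2) by ring, pow_mul] at h
    norm_num at h
    linarith
  have h04 : Q b (k + 4) r 0 = (∑ i ∈ r, b i ^ 2) / 12 := by
    have h := Q_neg (b := b) (k := k + 4) (by omega) r 0
    rw [v3, hr, neg_zero, show k + 4 + (k + 2) = 2 * (k + 3) by ring, pow_mul] at h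
    norm_num at h
    linarith
  rw [hint, hΨ]
  simp only
  rw [hz1, hz2, hz3, hz4, h02, h04]
  ring

end Pool.Agent.Helper34.Slab
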