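import Mathlib

set_option autoImplicit false

open MeasureTheory Set Finset

namespace Pool.Agent.Helper34.Slab

set_option linter.unusedSectionVars false

variable {ι : Type*} [DecidableEq ι]

/-- Iterated normalised central difference of `φ` with steps `b i`, `i ∈ s`. -/
noncomputable def N (b : ι → ℝ) (φ : ℝ → ℝ) (s : Finset ι) (z : ℝ) : ℝ :=
  (∑ T ∈ s.powerset, (-1 : ℝ) ^ T.card * φ (z + ∑ i ∈ s, b i - 2 * ∑ i ∈ T, b i)) /
    ∏ i ∈ s, (2 * b i)

lemma N_empty (b : ι → ℝ) (φ : ℝ → ℝ) (z : ℝ) : N b φ ∅ z = φ z := by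
  simp [N]

lemma N_insert {b : ι → ℝ} (φ : ℝ → ℝ) {s : Finset ι} {i : ι} (hi : i ∉ s) (z : ℝ) :
    N b φ (insert i s) z = (N b φ s (z + b i) - N b φ s (z - b i)) / (2 * b i) := by
  unfold N
  rw [Finset.sum_powerset_insert hi, Finset.prod_insert hi, Finset.sum_insert hi]
  have h1 : ∀ T ∈ s.powerset, (-1 : ℝ) ^ (insert i T).card *
      φ (z + (b i + ∑ j ∈ s, b j) - 2 * ∑ j ∈ insert i T, b j) =
      - ((-1 : ℝ) ^ T.card * φ (z - b i + ∑ j ∈ s, b j - 2 * ∑ j ∈ T, b j)) := by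
    intro T hT
    have hiT : i ∉ T := fun h => hi (Finset.mem_powerset.mp hT h)
    rw [Finset.card_insert_of_notMem hiT, Finset.sum_insert hiT, pow_succ]
    rw [show z + (b i + ∑ j ∈ s, b j) - 2 * (b i + ∑ j ∈ T, b j) =
      z - b i + ∑ j ∈ s, b j - 2 * ∑ j ∈ T, b j by ring]
    ring
  rw [Finset.sum_congr rfl h1, Finset.sum_neg_distrib]
  have h2 : ∀ T ∈ s.powerset, (-1 : ℝ) ^ T.card *
      φ (z + (b i + ∑ j ∈ s, b j) - 2 * ∑ j ∈ T, b j) =
      (-1 : ℝ) ^ T.card * φ (z + b i + ∑ j ∈ s, b j - 2 * ∑ j ∈ T, b j) := by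
    intro T _
    rw [show z + (b i + ∑ j ∈ s, b j) - 2 * ∑ j ∈ T, b j =
      z + b i + ∑ j ∈ s, b j - 2 * ∑ j ∈ T, b j by ring]
  rw [Finset.sum_congr rfl h2, ← sub_eq_add_neg, ← sub_div, div_div, mul_comm (2 * b i)]

/-- Euler identity. -/
lemma N_euler {b : ι → ℝ} (φ : ℝ → ℝ) (s : Finset ι) (hb : ∀ i ∈ s, b i ≠ 0) (z : ℝ) :
    N b (fun x => x * φ x) s z = (z - ∑ i ∈ s, b i) * N b φ s z +
      ∑ i ∈ s, N b φ (s.erase i) (z + b i) := by
  induction s using Finset.induction_on generalizing z with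
  | empty => simp [N_empty]
  | insert j s hj ih =>
    have hb' : ∀ i ∈ s, b i ≠ 0 := fun i hi => hb i (Finset.mem_insert_of_mem hi)
    have hbj : b j ≠ 0 := hb j (Finset.mem_insert_self j s)
    rw [N_insert _ hj, ih hb', ih hb', N_insert φ hj, Finset.sum_insert hj, Finset.sum_insert hj,
      Finset.erase_insert hj]
    have h1 : ∀ i ∈ s, N b φ ((insert j s).erase i) (z + b i) =
        (N b φ (s.erase i) (z + b j + b i) - N b φ (s.erase i) (z - b j + b i)) / (2 * b j) := by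
      intro i hi
      have hij : i ≠ j := fun h => hj (h ▸ hi)
      rw [Finset.erase_insert_of_ne hij.symm]
      rw [N_insert φ (fun h => hj (Finset.mem_of_mem_erase h))]
      rw [show z + b i + b j = z + b j + b i by ring, show z + b i - b j = z - b j + b i by ring]
    rw [Finset.sum_congr rfl h1, ← Finset.sum_div, Finset.sum_sub_distrib]
    field_simp
    ring

/-- Truncated power `x_+^k / k!` (equal to `1` at `x = 0` when `k = 0`). -/
noncomputable def pk (k : ℕ) (x : ℝ) : ℝ := if 0 ≤ x then x ^ k / k.factorial else 0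

/-- Full power `x^k / k!`. -/
noncomputable def fk (k : ℕ) (x : ℝ) : ℝ := x ^ k / k.factorial

lemma pk_of_nonneg {k : ℕ} {x : ℝ} (hx : 0 ≤ x) : pk k x = fk k x := by
  simp [pk, fk, hx]

lemma pk_of_neg {k : ℕ} {x : ℝ} (hx : x < 0) : pk k x = 0 := by
  simp [pk, not_le.mpr hx]

lemma fk_mul (k : ℕ) (x : ℝ) : (k + 1 : ℝ) * fk (k + 1) x = x * fk k x := by
  unfold fk
  rw [Nat.factorial_succ, pow_succ]
  have : (k.factorial : ℝ) ≠ 0 := by positivity
  push_cast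
  field_simp

lemma pk_mul (k : ℕ) (x : ℝ) : (k + 1 : ℝ) * pk (k + 1) x = x * pk k x := by
  rcases le_or_gt 0 x with h | h
  · rw [pk_of_nonneg h, pk_of_nonneg h, fk_mul]
  · rw [pk_of_neg h, pk_of_neg h]; ring

/-- `Q k s` : for `m = |s|`, `Q m` is the distribution function of `∑ b i U i`, `Q (m-1)` its
density, and so on. -/
noncomputable def Q (b : ι → ℝ) (k : ℕ) (s : Finset ι) (z : ℝ) : ℝ := N b (pk k) s z

noncomputable def Qf (b : ι → ℝ) (k : ℕ) (s : Finset ι) (z : ℝ) : ℝ := N b (fk k) s z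

lemma Q_insert {b : ι → ℝ} (k : ℕ) {s : Finset ι} {i : ι} (hi : i ∉ s) (z : ℝ) :
    Q b k (insert i s) z = (Q b k s (z + b i) - Q b k s (z - b i)) / (2 * b i) :=
  N_insert _ hi z

lemma Qf_insert {b : ι → ℝ} (k : ℕ) {s : Finset ι} {i : ι} (hi : i ∉ s) (z : ℝ) :
    Qf b k (insert i s) z = (Qf b k s (z + b i) - Qf b k s (z - b i)) / (2 * b i) :=
  N_insert _ hi z

lemma Q_erase {b : ι → ℝ} (k : ℕ) {s : Finset ι} {i : ι} (hi : i ∈ s) (z : ℝ) :
    Q b k s z = (Q b k (s.erase i) (z + b i) - Q b k (s.erase i) (z - b i)) / (2 * b i) := by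
  conv_lhs => rw [← Finset.insert_erase hi]
  exact Q_insert k (Finset.notMem_erase i s) z

lemma N_smul (b : ι → ℝ) (c : ℝ) (φ : ℝ → ℝ) (s : Finset ι) (z : ℝ) :
    N b (fun x => c * φ x) s z = c * N b φ s z := by
  unfold N
  rw [← mul_div_assoc, Finset.mul_sum]
  congr 1
  apply Finset.sum_congr rfl
  intro T _
  ring

lemma Q_euler {b : ι → ℝ} (k : ℕ) (s : Finset ι) (hb : ∀ i ∈ s, b i ≠ 0) (z : ℝ) :
    (k + 1 : ℝ) * Q b (k + 1) s z = (z - ∑ i ∈ s, b i) * Q b k s z +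
      ∑ i ∈ s, Q b k (s.erase i) (z + b i) := by
  unfold Q
  rw [← N_euler (pk k) s hb z, ← N_smul]
  congr 1
  ext x
  exact pk_mul k x

lemma Qf_euler {b : ι → ℝ} (k : ℕ) (s : Finset ι) (hb : ∀ i ∈ s, b i ≠ 0) (z : ℝ) :
    (k + 1 : ℝ) * Qf b (k + 1) s z = (z - ∑ i ∈ s, b i) * Qf b k s z +
      ∑ i ∈ s, Qf b k (s.erase i) (z + b i) := by
  unfold Qf
  rw [← N_euler (fk k) s hb z, ← N_smul]
  congr 1
  ext x
  exact fk_mul k x

lemma Qf_erase {b : ι → ℝ} (k : ℕ) {s : Finset ι} {i : ι} (hi : i ∈ s) (z : ℝ) :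
    Qf b k s z = (Qf b k (s.erase i) (z + b i) - Qf b k (s.erase i) (z - b i)) / (2 * b i) := by
  conv_lhs => rw [← Finset.insert_erase hi]
  exact Qf_insert k (Finset.notMem_erase i s) z

/-- Values of the full-power differences. -/
lemma Qf_values {b : ι → ℝ} (m : ℕ) : ∀ s : Finset ι, s.card = m → (∀ i ∈ s, b i ≠ 0) →
    (∀ k < m, ∀ z, Qf b k s z = 0) ∧ (∀ z, Qf b m s z = 1) ∧ (∀ z, Qf b (m + 1) s z = z) ∧
    (∀ z, Qf b (m + 2) s z = z ^ 2 / 2 + (∑ i ∈ s, b i ^ 2) / 6) := by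
  induction m with
  | zero =>
    intro s hs _
    rw [Finset.card_eq_zero] at hs
    subst hs
    refine ⟨by simp, ?_, ?_, ?_⟩ <;> intro z <;> simp [Qf, N_empty, fk]
  | succ m ih =>
    intro s hs hb
    have hb' : ∀ j ∈ s, ∀ i ∈ s.erase j, b i ≠ 0 := fun j _ i hi => hb i (Finset.mem_of_mem_erase hi)
    have hc : ∀ j ∈ s, (s.erase j).card = m := by
      intro j hj
      rw [Finset.card_erase_of_mem hj, hs]; rfl
    have h0 : ∀ k < m + 1, ∀ z, Qf b k s z = 0 := by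
      intro k hk z
      obtain ⟨i, hi⟩ : s.Nonempty := by
        rw [← Finset.card_pos, hs]; omega
      obtain ⟨h1, h2, -, -⟩ := ih _ (hc i hi) (hb' i hi)
      rw [Qf_erase k hi]
      rcases Nat.lt_succ_iff_lt_or_eq.mp hk with h | h
      · rw [h1 k h, h1 k h]; simp
      · rw [h, h2, h2]; simp
    have h1 : ∀ z, Qf b (m + 1) s z = 1 := by
      intro z
      have he := Qf_euler m s hb z
      have h3 : ∀ j ∈ s, Qf b m (s.erase j) (z + b j) = 1 := fun j hj =>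
        (ih _ (hc j hj) (hb' j hj)).2.1 _
      rw [h0 m (Nat.lt_succ_self m), Finset.sum_congr rfl h3, Finset.sum_const, hs] at he
      have hm : (m + 1 : ℝ) ≠ 0 := by positivity
      apply mul_left_cancel₀ hm
      rw [he]
      simp
    have h2 : ∀ z, Qf b (m + 1 + 1) s z = z := by
      intro z
      have he := Qf_euler (m + 1) s hb z
      have h3 : ∀ j ∈ s, Qf b (m + 1) (s.erase j) (z + b j) = z + b j := fun j hj =>
        (ih _ (hc j hj) (hb' j hj)).2.2.1 _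
      rw [h1, Finset.sum_congr rfl h3, Finset.sum_add_distrib, Finset.sum_const, hs] at he
      have hm : ((m + 1 : ℕ) + 1 : ℝ) ≠ 0 := by positivity
      apply mul_left_cancel₀ hm
      rw [he]
      simp
      ring
    refine ⟨h0, h1, h2, ?_⟩
    intro z
    have he := Qf_euler (m + 1 + 1) s hb z
    have h3 : ∀ j ∈ s, Qf b (m + 1 + 1) (s.erase j) (z + b j) =
        z ^ 2 / 2 + z * b j + b j ^ 2 / 2 + ((∑ i ∈ s, b i ^ 2) - b j ^ 2) / 6 := by
      intro j hj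
      rw [(ih _ (hc j hj) (hb' j hj)).2.2.2 _, ← Finset.add_sum_erase s (fun i => b i ^ 2) hj]
      ring
    rw [h2, Finset.sum_congr rfl h3] at he
    simp only [Finset.sum_add_distrib, Finset.sum_const, hs, ← Finset.sum_div,
      Finset.sum_sub_distrib, ← Finset.mul_sum] at he
    have hm : ((m + 1 + 1 : ℕ) + 1 : ℝ) ≠ 0 := by positivity
    apply mul_left_cancel₀ hm
    rw [he]
    simp
    ring

/-- Parity. -/
lemma pk_neg {k : ℕ} (hk : 1 ≤ k) (x : ℝ) : pk k (-x) = (-1) ^ k * (fk k x - pk k x) := by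
  rcases lt_trichotomy x 0 with h | h | h
  · rw [pk_of_nonneg (by linarith), pk_of_neg h]
    unfold fk
    rw [neg_pow]; ring
  · subst h
    rw [neg_zero, pk_of_nonneg le_rfl]
    unfold fk
    rw [zero_pow (by omega)]; simp
  · rw [pk_of_neg (by linarith), pk_of_nonneg h.le]; simp

lemma Q_neg {b : ι → ℝ} {k : ℕ} (hk : 1 ≤ k) (s : Finset ι) (z : ℝ) :
    Q b k s (-z) = (-1) ^ (k + s.card) * (Qf b k s z - Q b k s z) := by
  induction s using Finset.induction_on generalizing z with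
  | empty => simp [Q, Qf, N_empty, pk_neg hk]
  | insert i s hi ih =>
    rw [Q_insert k hi, Q_insert k hi, Qf_insert k hi, Finset.card_insert_of_notMem hi]
    rw [show -z + b i = -(z - b i) by ring, show -z - b i = -(z + b i) by ring, ih, ih, ← add_assoc,
      pow_succ]
    ring

lemma Q_eq_Qf {b : ι → ℝ} (k : ℕ) {s : Finset ι} (hb : ∀ i ∈ s, 0 < b i) {z : ℝ}
    (hz : ∑ i ∈ s, b i ≤ z) : Q b k s z = Qf b k s z := by
  unfold Q Qf N
  congr 1
  apply Finset.sum_congr rfl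
  intro T hT
  congr 1
  apply pk_of_nonneg
  have : ∑ i ∈ T, b i ≤ ∑ i ∈ s, b i :=
    Finset.sum_le_sum_of_subset_of_nonneg (Finset.mem_powerset.mp hT) (fun i hi _ => (hb i hi).le)
  linarith

lemma Q_eq_zero {b : ι → ℝ} (k : ℕ) {s : Finset ι} (hb : ∀ i ∈ s, 0 < b i) {z : ℝ}
    (hz : z < - ∑ i ∈ s, b i) : Q b k s z = 0 := by
  unfold Q N
  rw [Finset.sum_eq_zero, zero_div]
  intro T hT
  rw [pk_of_neg, mul_zero]
  have : 0 ≤ ∑ i ∈ T, b i :=
    Finset.sum_nonneg (fun i hi => (hb i (Finset.mem_powerset.mp hT hi)).le)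
  linarith

lemma Q_high_zero {b : ι → ℝ} {k : ℕ} {s : Finset ι} (hb : ∀ i ∈ s, 0 < b i) (hk : k < s.card)
    {z : ℝ} (hz : ∑ i ∈ s, b i ≤ z) : Q b k s z = 0 := by
  rw [Q_eq_Qf k hb hz]
  exact (Qf_values s.card s rfl (fun i hi => (hb i hi).ne')).1 k hk z

end Pool.Agent.Helper34.Slab
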