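import Pool.Agent.Helper88.SlabSmall
import Pool.Agent.Helper88.SlabLarge

/-!
Near-Gaussian inequality.
-/

open MeasureTheory Set Real
open scoped Topology

namespace Pool.Agent.Helper34.Slab

open Pool.Agent.Helper88.Slab (sinc_le sinc_ge sinc_tail abs_sinc_le_inv gauss_cos sinc_nonneg
  sqrt2_bounds)

/-! ### Gaussian integrals -/

theorem ng_int_pow (n : ℕ) : Integrable fun t : ℝ => t ^ n * Real.exp (-t ^ 2 / 6) := by
  have h := integrable_rpow_mul_exp_neg_mul_sq (b := 1 / 6) (by norm_num) (s := n)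
    (by have : (0 : ℝ) ≤ n := Nat.cast_nonneg n
        linarith)
  refine h.congr (Filter.Eventually.of_forall fun t => ?_)
  change t ^ (n : ℝ) * Real.exp (-(1 / 6) * t ^ 2) = _
  rw [Real.rpow_natCast]
  congr 2
  ring

theorem ng_bdd_int (n : ℕ) (h : ℝ → ℝ) (hc : Continuous h) (hb : ∀ t, |h t| ≤ 1) :
    Integrable fun t : ℝ => t ^ n * h t * Real.exp (-t ^ 2 / 6) := by
  refine (ng_int_pow n).norm.mono ?_ ?_
  · exact (by fun_prop : Continuous fun t : ℝ => t ^ n * h t * Real.exp (-t ^ 2 / 6)).aestronglyMeasurable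
  · refine Filter.Eventually.of_forall fun t => ?_
    rw [norm_norm, norm_mul, norm_mul, norm_mul]
    have : ‖h t‖ ≤ 1 := hb t
    have h2 : 0 ≤ ‖t ^ n‖ := norm_nonneg _
    have h3 : 0 ≤ ‖Real.exp (-t ^ 2 / 6)‖ := norm_nonneg _
    apply mul_le_mul_of_nonneg_right _ h3
    nlinarith

theorem ng_deriv_G (t : ℝ) : HasDerivAt (fun t : ℝ => Real.exp (-t ^ 2 / 6))
    (-(t / 3) * Real.exp (-t ^ 2 / 6)) t := by
  have h1 : HasDerivAt (fun t : ℝ => -t ^ 2 / 6) (-(2 * t) / 6) t := by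
    have := ((hasDerivAt_pow 2 t).neg).div_const 6
    simpa using this
  have h2 := h1.exp
  convert h2 using 1
  ring

theorem ng_moment (n : ℕ) : ∫ t : ℝ, t ^ (n + 2) * Real.exp (-t ^ 2 / 6) =
    3 * (n + 1) * ∫ t : ℝ, t ^ n * Real.exp (-t ^ 2 / 6) := by
  have hd : ∀ t : ℝ, HasDerivAt (fun t : ℝ => t ^ (n + 1) * Real.exp (-t ^ 2 / 6))
      ((n + 1) * (t ^ n * Real.exp (-t ^ 2 / 6)) -
        1 / 3 * (t ^ (n + 2) * Real.exp (-t ^ 2 / 6))) t := by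
    intro t
    have h1 := (hasDerivAt_pow (n + 1) t).fun_mul (ng_deriv_G t)
    refine h1.congr_deriv ?_
    rw [Nat.add_sub_cancel]
    push_cast
    ring
  have h := integral_eq_zero_of_hasDerivAt_of_integrable hd
    (((ng_int_pow n).const_mul _).sub ((ng_int_pow (n + 2)).const_mul _)) (ng_int_pow (n + 1))
  rw [integral_sub ((ng_int_pow n).const_mul _) ((ng_int_pow (n + 2)).const_mul _),
    integral_const_mul, integral_const_mul] at h
  linarith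

theorem ng_M0 : ∫ t : ℝ, t ^ 0 * Real.exp (-t ^ 2 / 6) = √(6 * π) := by
  have h := gauss_cos 0
  simpa using h

theorem ng_M6 : ∫ t : ℝ, t ^ 6 * Real.exp (-t ^ 2 / 6) = 405 * √(6 * π) := by
  have h1 := ng_moment 0
  have h2 := ng_moment 2
  have h3 := ng_moment 4
  rw [ng_M0] at h1
  have e1 : (3 : ℝ) * ((0 : ℕ) + 1) = 3 := by norm_num
  have e2 : (3 : ℝ) * ((2 : ℕ) + 1) = 9 := by norm_num
  have e3 : (3 : ℝ) * ((4 : ℕ) + 1) = 15 := by norm_num
  rw [e1] at h1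
  rw [e2] at h2
  rw [e3] at h3
  change ∫ t : ℝ, t ^ (4 + 2) * Real.exp (-t ^ 2 / 6) = _
  rw [h3]
  change 15 * ∫ t : ℝ, t ^ (2 + 2) * Real.exp (-t ^ 2 / 6) = _
  rw [h2]
  change 15 * (9 * ∫ t : ℝ, t ^ (0 + 2) * Real.exp (-t ^ 2 / 6)) = _
  rw [h1]
  ring

theorem ng_J0 (z : ℝ) : ∫ t : ℝ, t ^ 2 * Real.cos (t * z) * Real.exp (-t ^ 2 / 6) =
    √(6 * π) * ((3 - 9 * z ^ 2) * Real.exp (-(3 / 2) * z ^ 2)) := by
  have hcos : ∀ n : ℕ, Integrable fun t : ℝ => t ^ n * Real.cos (t * z) * Real.exp (-t ^ 2 / 6) :=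
    fun n => ng_bdd_int n _ (by fun_prop) fun t => abs_cos_le_one _
  have hsin : ∀ n : ℕ, Integrable fun t : ℝ => t ^ n * Real.sin (t * z) * Real.exp (-t ^ 2 / 6) :=
    fun n => ng_bdd_int n _ (by fun_prop) fun t => abs_sin_le_one _
  have hdz : ∀ t : ℝ, HasDerivAt (fun t : ℝ => t * z) z t := fun t => by
    simpa using (hasDerivAt_id t).mul_const z
  have hd1 : ∀ t : ℝ, HasDerivAt (fun t : ℝ => t ^ 0 * Real.sin (t * z) * Real.exp (-t ^ 2 / 6))
      (z * (t ^ 0 * Real.cos (t * z) * Real.exp (-t ^ 2 / 6)) -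
        1 / 3 * (t ^ 1 * Real.sin (t * z) * Real.exp (-t ^ 2 / 6))) t := by
    intro t
    have h1 := ((hasDerivAt_const t (1 : ℝ)).fun_mul (hdz t).sin).fun_mul (ng_deriv_G t)
    simp only [pow_zero]
    refine h1.congr_deriv ?_
    ring
  have hd2 : ∀ t : ℝ, HasDerivAt (fun t : ℝ => t ^ 1 * Real.cos (t * z) * Real.exp (-t ^ 2 / 6))
      (t ^ 0 * Real.cos (t * z) * Real.exp (-t ^ 2 / 6) -
        z * (t ^ 1 * Real.sin (t * z) * Real.exp (-t ^ 2 / 6)) -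
        1 / 3 * (t ^ 2 * Real.cos (t * z) * Real.exp (-t ^ 2 / 6))) t := by
    intro t
    have h1 := ((hasDerivAt_pow 1 t).fun_mul (hdz t).cos).fun_mul (ng_deriv_G t)
    refine h1.congr_deriv ?_
    simp only [Nat.sub_self, Nat.cast_one, pow_zero, pow_one]
    ring
  have e1 := integral_eq_zero_of_hasDerivAt_of_integrable hd1
    (((hcos 0).const_mul _).sub ((hsin 1).const_mul _)) (hsin 0)
  have e2 := integral_eq_zero_of_hasDerivAt_of_integrable hd2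
    (((hcos 0).sub ((hsin 1).const_mul _)).sub ((hcos 2).const_mul _)) (hcos 1)
  rw [integral_sub ((hcos 0).const_mul _) ((hsin 1).const_mul _), integral_const_mul,
    integral_const_mul] at e1
  have i1 : Integrable fun t : ℝ => t ^ 0 * Real.cos (t * z) * Real.exp (-t ^ 2 / 6) -
      z * (t ^ 1 * Real.sin (t * z) * Real.exp (-t ^ 2 / 6)) := (hcos 0).sub ((hsin 1).const_mul z)
  rw [integral_sub i1 ((hcos 2).const_mul _),
    integral_sub (hcos 0) ((hsin 1).const_mul _), integral_const_mul, integral_const_mul] at e2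
  have e3 : ∫ t : ℝ, t ^ 0 * Real.cos (t * z) * Real.exp (-t ^ 2 / 6) =
      √(6 * π) * Real.exp (-(3 / 2) * z ^ 2) := by
    rw [← gauss_cos z]
    simp
  rw [e3] at e1 e2
  have e4 : ∫ t : ℝ, t ^ 1 * Real.sin (t * z) * Real.exp (-t ^ 2 / 6) =
      3 * z * (√(6 * π) * Real.exp (-(3 / 2) * z ^ 2)) := by linarith
  rw [e4] at e2
  linarith

/-! ### the product -/

section prod

variable {ι : Type*} (s : Finset ι) (b : ι → ℝ) (β : ℝ)

theorem ng_prod_exp (t : ℝ) (h1 : ∑ i ∈ s, b i ^ 2 = 1) :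
    ∏ i ∈ s, Real.exp (-((b i * t) ^ 2 / 6)) = Real.exp (-t ^ 2 / 6) := by
  rw [← Real.exp_sum]
  congr 1
  have : ∀ i ∈ s, -((b i * t) ^ 2 / 6) = b i ^ 2 * (-t ^ 2 / 6) := fun i _ => by ring
  rw [Finset.sum_congr rfl this, ← Finset.sum_mul, h1, one_mul]

theorem ng_abs_le (hb : ∀ i ∈ s, 0 < b i) (hβ : ∀ i ∈ s, b i ≤ β) {t c : ℝ}
    (ht : β * |t| ≤ c) : ∀ i ∈ s, |b i * t| ≤ c := by
  intro i hi
  rw [abs_mul, abs_of_pos (hb i hi)]
  exact (mul_le_mul_of_nonneg_right (hβ i hi) (abs_nonneg _)).trans ht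

theorem ng_le (hb : ∀ i ∈ s, 0 < b i) (hβ : ∀ i ∈ s, b i ≤ β) (h1 : ∑ i ∈ s, b i ^ 2 = 1)
    {t : ℝ} (ht : β * |t| ≤ π) : 0 ≤ ∏ i ∈ s, Real.sinc (b i * t) ∧
      ∏ i ∈ s, Real.sinc (b i * t) ≤ Real.exp (-t ^ 2 / 6) := by
  have h := ng_abs_le s b β hb hβ ht
  refine ⟨Finset.prod_nonneg fun i hi => sinc_nonneg (h i hi), ?_⟩
  rw [← ng_prod_exp s b t h1]
  exact Finset.prod_le_prod (fun i hi => sinc_nonneg (h i hi)) fun i hi => sinc_le (h i hi)

theorem ng_ge (hb : ∀ i ∈ s, 0 < b i) (hβ : ∀ i ∈ s, b i ≤ β) (h1 : ∑ i ∈ s, b i ^ 2 = 1)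
    {t : ℝ} (ht : β * |t| ≤ 1.9) :
    Real.exp (-t ^ 2 / 6) * (1 - β ^ 2 * t ^ 4 / 125) ≤ ∏ i ∈ s, Real.sinc (b i * t) := by
  have h := ng_abs_le s b β hb hβ ht
  have h2 : ∏ i ∈ s, Real.exp (-((b i * t) ^ 2 / 6 + (b i * t) ^ 4 / 125)) ≤
      ∏ i ∈ s, Real.sinc (b i * t) :=
    Finset.prod_le_prod (fun i _ => (Real.exp_pos _).le) fun i hi => sinc_ge (h i hi)
  refine le_trans ?_ h2
  rw [← Real.exp_sum]
  have h3 : ∑ i ∈ s, -((b i * t) ^ 2 / 6 + (b i * t) ^ 4 / 125) =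
      -t ^ 2 / 6 + -((∑ i ∈ s, b i ^ 4) * t ^ 4 / 125) := by
    have : ∀ i ∈ s, -((b i * t) ^ 2 / 6 + (b i * t) ^ 4 / 125) =
        b i ^ 2 * (-t ^ 2 / 6) + b i ^ 4 * (-(t ^ 4 / 125)) := fun i _ => by ring
    rw [Finset.sum_congr rfl this, Finset.sum_add_distrib, ← Finset.sum_mul, ← Finset.sum_mul, h1]
    ring
  rw [h3, Real.exp_add]
  apply mul_le_mul_of_nonneg_left _ (Real.exp_pos _).le
  have h4 : ∑ i ∈ s, b i ^ 4 ≤ β ^ 2 := by
    calc ∑ i ∈ s, b i ^ 4 ≤ ∑ i ∈ s, β ^ 2 * b i ^ 2 := by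
          refine Finset.sum_le_sum fun i hi => ?_
          have e1 : b i ^ 2 ≤ β ^ 2 := pow_le_pow_left₀ (hb i hi).le (hβ i hi) 2
          have e2 : 0 ≤ b i ^ 2 := sq_nonneg _
          nlinarith
      _ = β ^ 2 := by rw [← Finset.mul_sum, h1, mul_one]
  have h5 := Real.add_one_le_exp (-((∑ i ∈ s, b i ^ 4) * t ^ 4 / 125))
  have h6 : (∑ i ∈ s, b i ^ 4) * t ^ 4 ≤ β ^ 2 * t ^ 4 :=
    mul_le_mul_of_nonneg_right h4 (by positivity)
  linarith

theorem ng_tail (hb : ∀ i ∈ s, 0 < b i) (hβ : ∀ i ∈ s, b i ≤ β) (h1 : ∑ i ∈ s, b i ^ 2 = 1)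
    (hβ0 : 0 < β) {t : ℝ} (ht : π ≤ β * |t|) :
    |∏ i ∈ s, Real.sinc (b i * t)| ≤ Real.exp (-(1 / β ^ 2 * Real.log (β * |t|))) := by
  rw [Finset.abs_prod]
  have h2 : ∏ i ∈ s, |Real.sinc (b i * t)| ≤
      ∏ i ∈ s, Real.exp (-(b i ^ 2 * (1 / β ^ 2 * Real.log (β * |t|)))) := by
    refine Finset.prod_le_prod (fun i _ => abs_nonneg _) fun i hi => ?_
    have e1 : |b i / (2 * β)| ≤ 1 / 2 := by
      rw [abs_of_pos (div_pos (hb i hi) (by positivity)), div_le_div_iff₀ (by positivity)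
        (by norm_num)]
      linarith [hβ i hi]
    have e2 := sinc_tail e1 ht
    have e3 : b i / (2 * β) * (2 * (β * |t|)) = b i * |t| := by
      field_simp
    have e4 : |Real.sinc (b i * t)| = |Real.sinc (b i * |t|)| := by
      rcases abs_choice t with h | h
      · rw [h]
      · rw [h, mul_neg, sinc_neg]
    rw [e4, ← e3]
    refine e2.trans (le_of_eq ?_)
    congr 1
    field_simp
    ring
  refine h2.trans (le_of_eq ?_)
  rw [← Real.exp_sum]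
  congr 1
  rw [Finset.sum_neg_distrib, ← Finset.sum_mul, h1, one_mul]

theorem ng_num (w : ℝ) (hw : 15 ≤ w) : 2 * w ^ 3 ≤ Real.exp (w - 4) := by
  have h1 : w / 15 ≤ Real.exp ((w - 15) / 15) := by
    have := Real.add_one_le_exp ((w - 15) / 15)
    linarith
  have h2 : (w / 15) ^ 3 ≤ Real.exp ((w - 15) / 5) := by
    calc (w / 15) ^ 3 ≤ Real.exp ((w - 15) / 15) ^ 3 := pow_le_pow_left₀ (by positivity) h1 3
      _ = _ := by
        rw [← Real.exp_nat_mul]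
        congr 1
        push_cast
        ring
  have h3 : Real.exp ((w - 15) / 5) ≤ Real.exp (w - 15) := Real.exp_le_exp.2 (by linarith)
  have h4 : Real.exp (w - 4) = Real.exp (w - 15) * Real.exp 1 ^ 11 := by
    rw [← Real.exp_nat_mul, ← Real.exp_add]
    congr 1
    push_cast
    ring
  have h5 : (6750 : ℝ) ≤ Real.exp 1 ^ 11 := by
    have := Real.exp_one_gt_d9
    calc (6750 : ℝ) ≤ 2.7 ^ 11 := by norm_num
      _ ≤ _ := pow_le_pow_left₀ (by norm_num) (by linarith) 11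
  rw [h4]
  have h6 : 2 * w ^ 3 = 6750 * (w / 15) ^ 3 := by ring
  rw [h6, mul_comm (Real.exp (w - 15))]
  exact mul_le_mul h5 (h2.trans h3) (by positivity) (by positivity)

/-- pointwise bound -/
theorem ng_point (hb : ∀ i ∈ s, 0 < b i) (hβ : ∀ i ∈ s, b i ≤ β) (h1 : ∑ i ∈ s, b i ^ 2 = 1)
    (hβ0 : 0 < β) (hβ2 : β ^ 2 ≤ 1 / 15) (t : ℝ) :
    |t ^ 2 * (∏ i ∈ s, Real.sinc (b i * t)) - t ^ 2 * Real.exp (-t ^ 2 / 6)| ≤
      β ^ 2 / 125 * (t ^ 6 * Real.exp (-t ^ 2 / 6)) + β ^ 2 * (1 + t ^ 2)⁻¹ := by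
  have hG : 0 < Real.exp (-t ^ 2 / 6) := Real.exp_pos _
  set G := Real.exp (-t ^ 2 / 6) with hGd
  set P := ∏ i ∈ s, Real.sinc (b i * t) with hP
  have hlast : 0 ≤ β ^ 2 * (1 + t ^ 2)⁻¹ := by positivity
  have hu : (β * |t|) ^ 2 = β ^ 2 * t ^ 2 := by rw [mul_pow, sq_abs]
  have hu4 : (β * |t|) ^ 4 = β ^ 4 * t ^ 4 := by
    rw [show (β * |t|) ^ 4 = ((β * |t|) ^ 2) ^ 2 by ring, hu]
    ring
  have hfac : t ^ 2 * P - t ^ 2 * G = t ^ 2 * (P - G) := by ring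
  rw [hfac, abs_mul, abs_of_nonneg (sq_nonneg t)]
  have hmid : 1.9 ≤ β * |t| → G ≤ β ^ 2 * t ^ 4 / 125 * G := by
    intro h
    have e1 : (1.9 : ℝ) ^ 4 ≤ β ^ 4 * t ^ 4 := by
      rw [← hu4]
      exact pow_le_pow_left₀ (by norm_num) h 4
    have e2 : (1 : ℝ) ≤ β ^ 2 * t ^ 4 / 125 := by
      rw [le_div_iff₀ (by norm_num)]
      have e3 : β ^ 4 * t ^ 4 ≤ 1 / 15 * (β ^ 2 * t ^ 4) := by
        have : 0 ≤ β ^ 2 * t ^ 4 := by positivity
        nlinarith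
      norm_num at e1
      linarith
    nlinarith
  rcases le_or_gt (β * |t|) 1.9 with h | h
  · have e1 := ng_ge s b β hb hβ h1 h
    have e2 := (ng_le s b β hb hβ h1 (h.trans (by have := Real.pi_gt_three; linarith))).2
    have e3 : |P - G| ≤ G * (β ^ 2 * t ^ 4 / 125) := by
      rw [abs_le]
      constructor
      · have : G * (1 - β ^ 2 * t ^ 4 / 125) ≤ P := e1
        linarith
      · have : P ≤ G := e2
        have : 0 ≤ G * (β ^ 2 * t ^ 4 / 125) := by positivity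
        linarith
    have e4 := mul_le_mul_of_nonneg_left e3 (sq_nonneg t)
    have e5 : t ^ 2 * (G * (β ^ 2 * t ^ 4 / 125)) = β ^ 2 / 125 * (t ^ 6 * G) := by ring
    linarith
  rcases le_or_gt (β * |t|) π with h' | h'
  · obtain ⟨e1, e2⟩ := ng_le s b β hb hβ h1 h'
    have e3 : |P - G| ≤ G := by
      rw [abs_le]
      have : 0 ≤ P := e1
      have : P ≤ G := e2
      constructor <;> linarith
    have e4 := mul_le_mul_of_nonneg_left (e3.trans (hmid h.le)) (sq_nonneg t)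
    have e5 : t ^ 2 * (β ^ 2 * t ^ 4 / 125 * G) = β ^ 2 / 125 * (t ^ 6 * G) := by ring
    linarith
  · have e1 := ng_tail s b β hb hβ h1 hβ0 h'.le
    set u := β * |t| with hud
    have hpi := Real.pi_gt_three
    have hlog : 1 ≤ Real.log u := by
      rw [Real.le_log_iff_exp_le (by linarith)]
      have := Real.exp_one_lt_d9
      linarith
    have hu0 : 0 < u := by linarith
    set w := 1 / β ^ 2 with hw
    have hβsq : 0 < β ^ 2 := by positivity
    have hw15 : 15 ≤ w := by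
      rw [hw, le_div_iff₀ hβsq]
      linarith
    have hwβ : w * β ^ 2 = 1 := by
      rw [hw]
      field_simp
    have ht4 : t ^ 4 = u ^ 4 * w ^ 2 := by
      rw [hu4, hw]
      field_simp
    have e2 : u ^ 4 * Real.exp (-(w * Real.log u)) ≤ Real.exp (-(w - 4)) := by
      have : u ^ 4 = Real.exp (4 * Real.log u) := by
        have := Real.exp_nat_mul (Real.log u) 4
        push_cast at this
        rw [this, Real.exp_log hu0]
      rw [this, ← Real.exp_add]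
      apply Real.exp_le_exp.2
      nlinarith
    have e3 : t ^ 4 * |P| ≤ w ^ 2 * Real.exp (-(w - 4)) := by
      calc t ^ 4 * |P| ≤ t ^ 4 * Real.exp (-(w * Real.log u)) :=
            mul_le_mul_of_nonneg_left e1 (by positivity)
        _ = w ^ 2 * (u ^ 4 * Real.exp (-(w * Real.log u))) := by rw [ht4]; ring
        _ ≤ _ := mul_le_mul_of_nonneg_left e2 (by positivity)
    have e4 : 2 * (w ^ 2 * Real.exp (-(w - 4))) ≤ β ^ 2 := by
      have h3 := ng_num w hw15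
      have h4 : 2 * w ^ 3 * Real.exp (-(w - 4)) ≤ 1 := by
        rw [Real.exp_neg, ← div_eq_mul_inv, div_le_one (Real.exp_pos _)]
        exact h3
      calc 2 * (w ^ 2 * Real.exp (-(w - 4))) =
          (w * β ^ 2) * (2 * (w ^ 2 * Real.exp (-(w - 4)))) := by rw [hwβ, one_mul]
        _ = β ^ 2 * (2 * w ^ 3 * Real.exp (-(w - 4))) := by ring
        _ ≤ β ^ 2 * 1 := mul_le_mul_of_nonneg_left h4 hβsq.le
        _ = β ^ 2 := mul_one _
    have ht1 : 1 ≤ t ^ 2 := by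
      have : (3 : ℝ) ^ 2 ≤ u ^ 2 := pow_le_pow_left₀ (by norm_num) (by linarith) 2
      rw [hu] at this
      nlinarith [sq_nonneg t]
    have e5 : t ^ 2 * |P| ≤ β ^ 2 * (1 + t ^ 2)⁻¹ := by
      rw [← div_eq_mul_inv, le_div_iff₀ (by positivity)]
      have h5 : t ^ 2 * |P| * (1 + t ^ 2) ≤ 2 * (t ^ 4 * |P|) := by
        have : 0 ≤ t ^ 2 * |P| := by positivity
        nlinarith
      linarith
    have e6 : |P - G| ≤ |P| + G := by
      refine (abs_sub _ _).trans ?_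
      rw [abs_of_pos hG]
    have e7 := mul_le_mul_of_nonneg_left (e6.trans (add_le_add_right (hmid h.le) |P|))
      (sq_nonneg t)
    have e8 : t ^ 2 * (|P| + β ^ 2 * t ^ 4 / 125 * G) =
      t ^ 2 * |P| + β ^ 2 / 125 * (t ^ 6 * G) := by ring
    linarith

end prod

/-! ### the Gaussian side -/

theorem ng_F_deriv (z : ℝ) : HasDerivAt (fun z : ℝ => (3 - 9 * z ^ 2) * Real.exp (-(3 / 2) * z ^ 2))
    ((27 * z ^ 3 - 27 * z) * Real.exp (-(3 / 2) * z ^ 2)) z := by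
  have h1 : HasDerivAt (fun z : ℝ => 3 - 9 * z ^ 2) (-(18 * z)) z := by
    refine (((hasDerivAt_pow 2 z).const_mul 9).const_sub 3).congr_deriv ?_
    push_cast
    ring
  have h2 : HasDerivAt (fun z : ℝ => Real.exp (-(3 / 2) * z ^ 2))
      (Real.exp (-(3 / 2) * z ^ 2) * (-(3 * z))) z := by
    refine ((hasDerivAt_pow 2 z).const_mul (-(3 / 2))).exp.congr_deriv ?_
    push_cast
    ring
  refine (h1.fun_mul h2).congr_deriv ?_
  ring

theorem ng_F_deriv2 (z : ℝ) :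
    HasDerivAt (fun z : ℝ => (27 * z ^ 3 - 27 * z) * Real.exp (-(3 / 2) * z ^ 2))
    ((-81 * z ^ 4 + 162 * z ^ 2 - 27) * Real.exp (-(3 / 2) * z ^ 2)) z := by
  have h1 : HasDerivAt (fun z : ℝ => 27 * z ^ 3 - 27 * z) (81 * z ^ 2 - 27) z := by
    refine (((hasDerivAt_pow 3 z).const_mul 27).fun_sub ((hasDerivAt_id z).const_mul 27)).congr_deriv ?_
    push_cast
    ring
  have h2 : HasDerivAt (fun z : ℝ => Real.exp (-(3 / 2) * z ^ 2))
      (Real.exp (-(3 / 2) * z ^ 2) * (-(3 * z))) z := by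
    refine ((hasDerivAt_pow 2 z).const_mul (-(3 / 2))).exp.congr_deriv ?_
    push_cast
    ring
  refine (h1.fun_mul h2).congr_deriv ?_
  ring

theorem ng_concave : ConcaveOn ℝ (Ici (√2))
    (fun z : ℝ => (3 - 9 * z ^ 2) * Real.exp (-(3 / 2) * z ^ 2)) := by
  have hs2 : (0 : ℝ) < √2 := by positivity
  refine concaveOn_of_hasDerivWithinAt2_nonpos (convex_Ici _) ?_
    (f' := fun z => (27 * z ^ 3 - 27 * z) * Real.exp (-(3 / 2) * z ^ 2))
    (f'' := fun z => (-81 * z ^ 4 + 162 * z ^ 2 - 27) * Real.exp (-(3 / 2) * z ^ 2)) ?_ ?_ ?_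
  · exact fun z _ => (ng_F_deriv z).continuousAt.continuousWithinAt
  · exact fun z _ => (ng_F_deriv z).hasDerivWithinAt
  · exact fun z _ => (ng_F_deriv2 z).hasDerivWithinAt
  · intro z hz
    rw [interior_Ici] at hz
    have h1 : (2 : ℝ) ≤ z ^ 2 := by
      have : √2 ^ 2 ≤ z ^ 2 := pow_le_pow_left₀ hs2.le hz.le 2
      rwa [Real.sq_sqrt (by norm_num)] at this
    have h2 : -81 * z ^ 4 + 162 * z ^ 2 - 27 ≤ 0 := by nlinarith
    exact mul_nonpos_of_nonpos_of_nonneg h2 (Real.exp_pos _).le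

theorem ng_gauss (β : ℝ) (hβ0 : 0 < β) (hβ2 : β ^ 2 ≤ 1 / 15) :
    (3 - 9 * √2 ^ 2) * Real.exp (-(3 / 2) * √2 ^ 2) + 8 * β ^ 2 ≤
      (3 - 9 * (√2 + 2 * β) ^ 2) * Real.exp (-(3 / 2) * (√2 + 2 * β) ^ 2) := by
  obtain ⟨r1, r2⟩ := sqrt2_bounds
  set F : ℝ → ℝ := fun z => (3 - 9 * z ^ 2) * Real.exp (-(3 / 2) * z ^ 2) with hF
  have hβ1 : β ≤ 0.2582 := by nlinarith
  set c : ℝ := β / 0.2582 with hc
  have hc0 : 0 ≤ c := by positivity
  have hc1 : c ≤ 1 := by rw [hc, div_le_one (by norm_num)]; exact hβ1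
  have h1 := ng_concave.2 (x := √2) (y := √2 + 0.5164) (self_mem_Ici)
    (by rw [mem_Ici]; linarith) (sub_nonneg.2 hc1) hc0 (by ring)
  simp only [smul_eq_mul] at h1
  have h2 : (1 - c) * √2 + c * (√2 + 0.5164) = √2 + 2 * β := by
    rw [hc]
    ring
  rw [h2] at h1
  have hsq : √2 ^ 2 = 2 := Real.sq_sqrt (by norm_num)
  -- numeric values
  have hF1 : (3 - 9 * √2 ^ 2) * Real.exp (-(3 / 2) * √2 ^ 2) ≤ -0.74 := by
    rw [hsq]
    have e1 : Real.exp (-(3 / 2) * 2) = (Real.exp 1 ^ 3)⁻¹ := by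
      rw [← Real.exp_nat_mul, ← Real.exp_neg]
      congr 1
      norm_num
    rw [e1]
    have e2 : Real.exp 1 ^ 3 ≤ 20.1 := by
      have := Real.exp_one_lt_d9
      calc Real.exp 1 ^ 3 ≤ 2.7182818286 ^ 3 := pow_le_pow_left₀ (Real.exp_pos _).le this.le 3
        _ ≤ 20.1 := by norm_num
    have e3 : (20.1 : ℝ)⁻¹ ≤ (Real.exp 1 ^ 3)⁻¹ := inv_anti₀ (by positivity) e2
    have e4 : (0.0497 : ℝ) ≤ (20.1 : ℝ)⁻¹ := by norm_num
    linarith
  have hF2 : -0.2 ≤ (3 - 9 * (√2 + 0.5164) ^ 2) * Real.exp (-(3 / 2) * (√2 + 0.5164) ^ 2) := by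
    have e0 : (√2 + 0.5164) ^ 2 = 2 + 2 * 0.5164 * √2 + 0.5164 ^ 2 := by
      have : (√2 + 0.5164) ^ 2 = √2 ^ 2 + 2 * 0.5164 * √2 + 0.5164 ^ 2 := by ring
      rw [this, hsq]
    have e1 : (3.727 : ℝ) ≤ (√2 + 0.5164) ^ 2 := by rw [e0]; norm_num at r1 ⊢; linarith
    have e2 : (√2 + 0.5164) ^ 2 ≤ 3.728 := by rw [e0]; norm_num at r2 ⊢; linarith
    have e3 : Real.exp (-(3 / 2) * (√2 + 0.5164) ^ 2) ≤ 0.0052 := by
      have e4 : Real.exp (-(3 / 2) * (√2 + 0.5164) ^ 2) ≤ Real.exp (-5.59) := by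
        apply Real.exp_le_exp.2
        linarith
      refine e4.trans ?_
      have e5 : Real.exp (-5.59) = (Real.exp 1 ^ 5 * Real.exp 0.59)⁻¹ := by
        rw [← Real.exp_nat_mul, ← Real.exp_add, ← Real.exp_neg]
        congr 1
        norm_num
      rw [e5]
      have e6 : (148 : ℝ) ≤ Real.exp 1 ^ 5 := by
        have := Real.exp_one_gt_d9
        calc (148 : ℝ) ≤ 2.718 ^ 5 := by norm_num
          _ ≤ _ := pow_le_pow_left₀ (by norm_num) (by linarith) 5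
      have e7 : (1.59 : ℝ) ≤ Real.exp 0.59 := by
        have := Real.add_one_le_exp (0.59 : ℝ)
        linarith
      have e8 : (148 * 1.59 : ℝ) ≤ Real.exp 1 ^ 5 * Real.exp 0.59 :=
        mul_le_mul e6 e7 (by norm_num) (by positivity)
      refine (inv_anti₀ (by norm_num) e8).trans (by norm_num)
    have e9 := Real.exp_pos (-(3 / 2) * (√2 + 0.5164) ^ 2)
    nlinarith
  have h3 : F √2 ≤ -0.74 := hF1
  have h4 : -0.2 ≤ F (√2 + 0.5164) := hF2
  have h5 : 8 * β ^ 2 ≤ c * 0.54 := by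
    have : c * 0.54 = β * (0.54 / 0.2582) := by rw [hc]; ring
    rw [this]
    have e1 : 8 * β ≤ 0.54 / 0.2582 := by norm_num; linarith
    nlinarith
  change F √2 + 8 * β ^ 2 ≤ F (√2 + 2 * β)
  have h6 : c * 0.54 ≤ c * (F (√2 + 0.5164) - F √2) :=
    mul_le_mul_of_nonneg_left (by linarith) hc0
  have h7 : (1 - c) * F √2 + c * F (√2 + 0.5164) ≤ F (√2 + 2 * β) := h1
  have h8 : (1 - c) * F √2 + c * F (√2 + 0.5164) = F √2 + c * (F (√2 + 0.5164) - F √2) := by ring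
  linarith

theorem near_gauss {ι : Type*} (s : Finset ι) (b : ι → ℝ) (β : ℝ) (hb : ∀ i ∈ s, 0 < b i)
    (hβ : ∀ i ∈ s, b i ≤ β) (h1 : ∑ i ∈ s, b i ^ 2 = 1) (hβ2 : β ^ 2 ≤ 1 / 15) :
    ∫ t : ℝ, t ^ 2 * Real.cos (t * √2) * ∏ i ∈ s, Real.sinc (b i * t) ≤
      ∫ t : ℝ, t ^ 2 * Real.cos (t * (√2 + 2 * β)) * ∏ i ∈ s, Real.sinc (b i * t) := by
  have hβ0 : 0 < β := by
    have hne : s.Nonempty := by
      by_contra h
      rw [Finset.not_nonempty_iff_eq_empty] at h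
      rw [h] at h1
      simp at h1
    obtain ⟨i, hi⟩ := hne
    exact (hb i hi).trans_le (hβ i hi)
  set P : ℝ → ℝ := fun t => ∏ i ∈ s, Real.sinc (b i * t) with hP
  have hPc : Continuous P := by
    rw [hP]
    refine continuous_finsetProd _ fun i _ => ?_
    exact Real.continuous_sinc.comp (continuous_const.mul continuous_id)
  set B : ℝ → ℝ := fun t => β ^ 2 / 125 * (t ^ 6 * Real.exp (-t ^ 2 / 6)) +
    β ^ 2 * (1 + t ^ 2)⁻¹ with hB
  have hBint : Integrable B := ((ng_int_pow 6).const_mul _).add (integrable_inv_one_add_sq.const_mul _)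
  have hBval : ∫ t, B t = β ^ 2 * (81 / 25 * √(6 * π) + π) := by
    rw [hB, integral_add ((ng_int_pow 6).const_mul _) (integrable_inv_one_add_sq.const_mul _),
      integral_const_mul, integral_const_mul, ng_M6, integral_univ_inv_one_add_sq]
    ring
  have hpt := ng_point s b β hb hβ h1 hβ0 hβ2
  have hdint : Integrable fun t => t ^ 2 * P t - t ^ 2 * Real.exp (-t ^ 2 / 6) := by
    refine hBint.mono ?_ ?_
    · exact (by fun_prop : Continuous fun t => t ^ 2 * P t -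
        t ^ 2 * Real.exp (-t ^ 2 / 6)).aestronglyMeasurable
    · refine Filter.Eventually.of_forall fun t => ?_
      rw [Real.norm_eq_abs, Real.norm_eq_abs]
      exact (hpt t).trans (le_abs_self _)
  have key : ∀ z : ℝ, |(∫ t : ℝ, t ^ 2 * Real.cos (t * z) * P t) -
      √(6 * π) * ((3 - 9 * z ^ 2) * Real.exp (-(3 / 2) * z ^ 2))| ≤
      β ^ 2 * (81 / 25 * √(6 * π) + π) := by
    intro z
    have i1 : Integrable fun t : ℝ => t ^ 2 * Real.cos (t * z) * Real.exp (-t ^ 2 / 6) :=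
      ng_bdd_int 2 _ (by fun_prop) fun t => abs_cos_le_one _
    have i2 : Integrable fun t : ℝ => Real.cos (t * z) *
        (t ^ 2 * P t - t ^ 2 * Real.exp (-t ^ 2 / 6)) := by
      refine hdint.mono ?_ ?_
      · exact (by fun_prop : Continuous fun t => Real.cos (t * z) * (t ^ 2 * P t -
          t ^ 2 * Real.exp (-t ^ 2 / 6))).aestronglyMeasurable
      · refine Filter.Eventually.of_forall fun t => ?_
        rw [norm_mul]
        exact mul_le_of_le_one_left (norm_nonneg _) (abs_cos_le_one _)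
    have e1 : ∫ t : ℝ, t ^ 2 * Real.cos (t * z) * P t =
        (∫ t : ℝ, t ^ 2 * Real.cos (t * z) * Real.exp (-t ^ 2 / 6)) +
        ∫ t : ℝ, Real.cos (t * z) * (t ^ 2 * P t - t ^ 2 * Real.exp (-t ^ 2 / 6)) := by
      rw [← integral_add i1 i2]
      congr 1
      ext t
      ring
    rw [e1, ng_J0, add_sub_cancel_left]
    rw [← hBval]
    refine (abs_integral_le_integral_abs).trans ?_
    refine integral_mono i2.abs hBint fun t => ?_
    rw [abs_mul]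
    calc |Real.cos (t * z)| * |t ^ 2 * P t - t ^ 2 * Real.exp (-t ^ 2 / 6)| ≤
        1 * |t ^ 2 * P t - t ^ 2 * Real.exp (-t ^ 2 / 6)| :=
          mul_le_mul_of_nonneg_right (abs_cos_le_one _) (abs_nonneg _)
      _ ≤ B t := by rw [one_mul]; exact hpt t
  have k1 := key √2
  have k2 := key (√2 + 2 * β)
  have hg := ng_gauss β hβ0 hβ2
  have hN : (4.34 : ℝ) ≤ √(6 * π) := by
    apply Real.le_sqrt_of_sq_le
    have := Real.pi_gt_d2
    norm_num at this ⊢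
    linarith
  have hpi : π ≤ 3.15 := Real.pi_lt_d2.le
  rw [abs_le] at k1 k2
  have hg2 := mul_le_mul_of_nonneg_left hg (by positivity : (0 : ℝ) ≤ √(6 * π))
  have hβsq : 0 ≤ β ^ 2 := sq_nonneg β
  have hfin : 2 * (β ^ 2 * (81 / 25 * √(6 * π) + π)) ≤ √(6 * π) * (8 * β ^ 2) := by
    have : 2 * (81 / 25 * √(6 * π) + π) ≤ √(6 * π) * 8 := by
      norm_num at hN hpi ⊢
      linarith
    nlinarith
  have k3 : ∫ t : ℝ, t ^ 2 * Real.cos (t * √2) * P t ≤
      √(6 * π) * ((3 - 9 * √2 ^ 2) * Real.exp (-(3 / 2) * √2 ^ 2)) +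
        β ^ 2 * (81 / 25 * √(6 * π) + π) := by linarith [k1.2]
  have k4 : √(6 * π) * ((3 - 9 * (√2 + 2 * β) ^ 2) * Real.exp (-(3 / 2) * (√2 + 2 * β) ^ 2)) -
      β ^ 2 * (81 / 25 * √(6 * π) + π) ≤
      ∫ t : ℝ, t ^ 2 * Real.cos (t * (√2 + 2 * β)) * P t := by linarith [k2.1]
  refine k3.trans (le_trans ?_ k4)
  rw [mul_add] at hg2
  linarith

end Pool.Agent.Helper34.Slab
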