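import Pool.Agent.Helper34.Slab.Analysis
import Pool.Agent.Helper34.Slab.NG
import Pool.Agent.Helper88.SlabFourier

set_option autoImplicit false
set_option linter.unusedSectionVars false

open MeasureTheory

namespace Pool.Agent.Helper34.Slab

open Pool.Agent.Helper88.Slab (A A_eq A_cos ind clamp A_ind A_ind_fourier integrable_sinc_mul)

variable {ι : Type*} [DecidableEq ι]

lemma prod_sinc_integrable {b : ι → ℝ} {s : Finset ι} (hb : ∀ i ∈ s, 0 < b i) (hs : 2 ≤ s.card) :
    Integrable (fun t : ℝ => ∏ i ∈ s, Real.sinc (b i * t)) := by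
  obtain ⟨i, hi, j, hj, hij⟩ := Finset.one_lt_card.mp (by omega : 1 < s.card)
  have hj' : j ∈ s.erase i := Finset.mem_erase.mpr ⟨hij.symm, hj⟩
  have hint := integrable_sinc_mul (hb j hj) (hb i hi)
  refine hint.mono ?_ ?_
  · apply Continuous.aestronglyMeasurable
    have := Real.continuous_sinc
    fun_prop
  · filter_upwards with t
    rw [← Finset.mul_prod_erase s _ hi, ← Finset.mul_prod_erase _ _ hj', ← mul_assoc, norm_mul]
    refine mul_le_of_le_one_right (norm_nonneg _) ?_
    rw [Real.norm_eq_abs, Finset.abs_prod]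
    exact Finset.prod_le_one (fun _ _ => abs_nonneg _) (fun _ _ => Real.abs_sinc_le_one _)

lemma Q_single (b : ι → ℝ) (k : ℕ) (j : ι) (y : ℝ) :
    Q b k {j} y = (pk k (y + b j) - pk k (y - b j)) / (2 * b j) := by
  have := Q_insert (b := b) k (Finset.notMem_empty j) y
  simpa [Q_empty] using this

lemma dens_fourier {b : ι → ℝ} (k : ℕ) : ∀ s : Finset ι, s.card = k + 2 → (∀ i ∈ s, 0 < b i) →
    ∀ z, Q b (k + 1) s z = (1 / (2 * Real.pi)) *
      ∫ t : ℝ, (∏ i ∈ s, Real.sinc (b i * t)) * Real.cos (t * z) := by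
  induction k with
  | zero =>
    intro s hs hb z
    obtain ⟨i, j, hij, rfl⟩ := Finset.card_eq_two.mp hs
    have hbi : 0 < b i := hb i (by simp)
    have hbj : 0 < b j := hb j (by simp)
    have hi : i ∉ ({j} : Finset ι) := by simpa using hij
    have hcl : ∀ y : ℝ, pk 1 (y + b j) - pk 1 (y - b j) = clamp (b j) y + b j := by
      intro y
      unfold clamp pk
      simp only [pow_one, Nat.factorial_one, Nat.cast_one, div_one]
      rcases le_total y (b j) with h1 | h1
      · rw [min_eq_right h1]
        rcases le_total (-(b j)) y with h2 | h2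
        · rw [max_eq_right h2, if_pos (by linarith)]
          split_ifs with h3
          · have : y = b j := by linarith
            linarith
          · ring
        · rw [max_eq_left h2]
          have h3 : ¬ (0 ≤ y - b j) := by
            intro h; linarith
          rw [if_neg h3]
          split_ifs with h4
          · have : y = - b j := by linarith
            linarith
          · ring
      · rw [min_eq_left h1, max_eq_right (by linarith), if_pos (by linarith), if_pos (by linarith)]
        ring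
    have e1 : Q b (0 + 1) {i, j} z = A (b i) (ind (b j)) z / (2 * b j) := by
      rw [Q_insert _ hi, Q_single, Q_single, A_ind hbi hbj.le]
      simp only [zero_add]
      rw [hcl, hcl]
      field_simp
      ring
    rw [e1, A_ind_fourier hbi hbj]
    rw [mul_div_right_comm]
    congr 1
    · field_simp
    · congr 1
      ext t
      rw [Finset.prod_pair hij]
      ring
  | succ k ih =>
    intro s hs hb z
    obtain ⟨i, hi⟩ : s.Nonempty := by rw [← Finset.card_pos, hs]; omega
    set s' := s.erase i with hs'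
    have hc : s'.card = k + 2 := by rw [hs', Finset.card_erase_of_mem hi, hs]; rfl
    have hb' : ∀ j ∈ s', 0 < b j := fun j hj => hb j (Finset.mem_of_mem_erase hj)
    have hbi := hb i hi
    have hins : insert i s' = s := Finset.insert_erase hi
    have hnot : i ∉ s' := Finset.notMem_erase i s
    have e1 : Q b (k + 1 + 1) s z = A (b i) (Q b (k + 1) s') z := by
      rw [← hins, Q_avg _ hnot, A_eq, intervalIntegral.integral_comp_mul_add _ hbi.ne',
        show b i * -1 + z = z - b i by ring, show b i * 1 + z = z + b i by ring, smul_eq_mul]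
      field_simp
    rw [e1, A]
    simp_rw [ih s' hc hb']
    rw [integral_const_mul]
    congr 1
    have hjoint : Integrable (Function.uncurry fun (u : ℝ) (t : ℝ) =>
        (∏ j ∈ s', Real.sinc (b j * t)) * Real.cos (t * (b i * u + z)))
        (Pool.Agent.Helper88.Slab.U.prod volume) := by
      have hdom : Integrable (fun p : ℝ × ℝ => (1:ℝ) * (∏ j ∈ s', Real.sinc (b j * p.2)))
          (Pool.Agent.Helper88.Slab.U.prod volume) :=
        Integrable.mul_prod (f := fun _ : ℝ => (1:ℝ))
          (g := fun x : ℝ => ∏ j ∈ s', Real.sinc (b j * x)) (integrable_const _)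
          (prod_sinc_integrable hb' (by omega))
      refine hdom.mono ?_ ?_
      · have hc : Continuous (Function.uncurry fun (u : ℝ) (t : ℝ) =>
          (∏ j ∈ s', Real.sinc (b j * t)) * Real.cos (t * (b i * u + z))) := by
          have := Real.continuous_sinc
          unfold Function.uncurry
          fun_prop
        exact hc.aestronglyMeasurable
      · filter_upwards with p
        simp only [Function.uncurry, one_mul]
        rw [norm_mul]
        exact mul_le_of_le_one_right (norm_nonneg _) (Real.abs_cos_le_one _)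
    rw [integral_integral_swap hjoint]
    congr 1
    ext t
    rw [integral_const_mul]
    have h2 : ∫ u, Real.cos (t * (b i * u + z)) ∂Pool.Agent.Helper88.Slab.U =
        Real.sinc (b i * t) * Real.cos (t * z) := A_cos (b i) t z
    rw [h2, ← Finset.mul_prod_erase s _ hi]
    ring

lemma second_fourier {b : ι → ℝ} {k : ℕ} {s : Finset ι} (hs : s.card = k + 4)
    (hb : ∀ i ∈ s, 0 < b i) (z : ℝ) :
    Q b (k + 1) s z = - (1 / (2 * Real.pi)) *
      ∫ t : ℝ, t ^ 2 * Real.cos (t * z) * ∏ i ∈ s, Real.sinc (b i * t) := by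
  obtain ⟨i, hi, j, hj, hij⟩ := Finset.one_lt_card.mp (by omega : 1 < s.card)
  have hj' : j ∈ s.erase i := Finset.mem_erase.mpr ⟨hij.symm, hj⟩
  set r := (s.erase i).erase j with hr
  have hcr : r.card = k + 2 := by
    rw [hr, Finset.card_erase_of_mem hj', Finset.card_erase_of_mem hi, hs]; rfl
  have hbr : ∀ l ∈ r, 0 < b l := fun l hl =>
    hb l (Finset.mem_of_mem_erase (Finset.mem_of_mem_erase hl))
  have hbi := hb i hi
  have hbj := hb j hj
  have hI := prod_sinc_integrable hbr (by omega)
  have hIc : ∀ w : ℝ, Integrable (fun t : ℝ => (∏ i ∈ r, Real.sinc (b i * t)) * Real.cos (t * w)) := by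
    intro w
    refine hI.mono ?_ ?_
    · apply Continuous.aestronglyMeasurable
      have := Real.continuous_sinc
      fun_prop
    · filter_upwards with t
      rw [norm_mul]
      exact mul_le_of_le_one_right (norm_nonneg _) (Real.abs_cos_le_one _)
  rw [Q_erase _ hi, Q_erase _ hj', Q_erase _ hj', ← hr]
  rw [dens_fourier k r hcr hbr, dens_fourier k r hcr hbr, dens_fourier k r hcr hbr,
    dens_fourier k r hcr hbr]
  have h1 := integral_sub (hIc (z + b i + b j)) (hIc (z + b i - b j))
  have h2 := integral_sub (hIc (z - b i + b j)) (hIc (z - b i - b j))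
  have h3 := integral_sub ((hIc (z + b i + b j)).sub (hIc (z + b i - b j)))
    ((hIc (z - b i + b j)).sub (hIc (z - b i - b j)))
  have h4 : ∀ t : ℝ, ((∏ i ∈ r, Real.sinc (b i * t)) * Real.cos (t * (z + b i + b j)) -
      (∏ i ∈ r, Real.sinc (b i * t)) * Real.cos (t * (z + b i - b j))) -
      ((∏ i ∈ r, Real.sinc (b i * t)) * Real.cos (t * (z - b i + b j)) -
      (∏ i ∈ r, Real.sinc (b i * t)) * Real.cos (t * (z - b i - b j))) =
      (- 4 * b i * b j) * (t ^ 2 * Real.cos (t * z) * ∏ i ∈ s, Real.sinc (b i * t)) := by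
    intro t
    rw [← Finset.mul_prod_erase s _ hi, ← Finset.mul_prod_erase _ _ hj', ← hr]
    have hc : Real.cos (t * (z + b i + b j)) - Real.cos (t * (z + b i - b j)) -
        (Real.cos (t * (z - b i + b j)) - Real.cos (t * (z - b i - b j))) =
        - 4 * Real.cos (t * z) * (Real.sin (b i * t) * Real.sin (b j * t)) := by
      rw [show t * (z + b i + b j) = t * z + b i * t + b j * t by ring,
        show t * (z + b i - b j) = t * z + b i * t - b j * t by ring,
        show t * (z - b i + b j) = t * z - b i * t + b j * t by ring,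
        show t * (z - b i - b j) = t * z - b i * t - b j * t by ring]
      simp only [Real.cos_add, Real.cos_sub, Real.sin_add, Real.sin_sub]
      ring
    have hs1 : b i * t * Real.sinc (b i * t) = Real.sin (b i * t) := by
      rcases eq_or_ne (b i * t) 0 with h | h
      · rw [h]; simp
      · rw [Real.sinc_of_ne_zero h, mul_div_cancel₀ _ h]
    have hs2 : b j * t * Real.sinc (b j * t) = Real.sin (b j * t) := by
      rcases eq_or_ne (b j * t) 0 with h | h
      · rw [h]; simp
      · rw [Real.sinc_of_ne_zero h, mul_div_cancel₀ _ h]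
    rw [← mul_sub, ← mul_sub, ← mul_sub, hc, ← hs1, ← hs2]
    ring
  have h5 : ∫ t : ℝ, (((∏ i ∈ r, Real.sinc (b i * t)) * Real.cos (t * (z + b i + b j)) -
      (∏ i ∈ r, Real.sinc (b i * t)) * Real.cos (t * (z + b i - b j))) -
      ((∏ i ∈ r, Real.sinc (b i * t)) * Real.cos (t * (z - b i + b j)) -
      (∏ i ∈ r, Real.sinc (b i * t)) * Real.cos (t * (z - b i - b j)))) =
      (- 4 * b i * b j) * ∫ t : ℝ, (t ^ 2 * Real.cos (t * z) * ∏ i ∈ s, Real.sinc (b i * t)) := by
    simp_rw [h4]
    rw [integral_const_mul]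
  simp only [Pi.sub_apply] at h3
  rw [h5, h1, h2] at h3
  have hpi := Real.pi_pos
  clear h1 h2 h4 h5 hIc hI
  generalize (∫ t : ℝ, t ^ 2 * Real.cos (t * z) * ∏ i ∈ s, Real.sinc (b i * t)) = X at h3 ⊢
  generalize (∫ a : ℝ, (∏ i ∈ r, Real.sinc (b i * a)) * Real.cos (a * (z + b i + b j))) = I1 at h3 ⊢
  generalize (∫ a : ℝ, (∏ i ∈ r, Real.sinc (b i * a)) * Real.cos (a * (z + b i - b j))) = I2 at h3 ⊢
  generalize (∫ a : ℝ, (∏ i ∈ r, Real.sinc (b i * a)) * Real.cos (a * (z - b i + b j))) = I3 at h3 ⊢
  generalize (∫ a : ℝ, (∏ i ∈ r, Real.sinc (b i * a)) * Real.cos (a * (z - b i - b j))) = I4 at h3 ⊢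
  have h6 : ((1 / (2 * Real.pi) * I1 - 1 / (2 * Real.pi) * I2) / (2 * b j) -
      (1 / (2 * Real.pi) * I3 - 1 / (2 * Real.pi) * I4) / (2 * b j)) / (2 * b i) =
      1 / (2 * Real.pi) * (I1 - I2 - (I3 - I4)) / (4 * b i * b j) := by
    field_simp
    ring
  rw [h6, ← h3]
  field_simp

theorem near_gauss_Q {b : ι → ℝ} {k : ℕ} {s : Finset ι} (hs : s.card = k + 3)
    (hb : ∀ i ∈ s, 0 < b i) {β : ℝ} (hβ : ∀ i ∈ s, b i ≤ β) (hβ0 : 0 < β)
    (h15 : 15 * β ^ 2 ≤ ∑ i ∈ s, b i ^ 2) :
    Q b k s (Real.sqrt (2 * ∑ i ∈ s, b i ^ 2) + 2 * β) ≤ Q b k s (Real.sqrt (2 * ∑ i ∈ s, b i ^ 2)) := by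
  have hcard : 1 ≤ k := by
    by_contra hcon
    have hk : k = 0 := by omega
    subst hk
    have : ∑ i ∈ s, b i ^ 2 ≤ ∑ i ∈ s, β ^ 2 := by
      apply Finset.sum_le_sum
      intro i hi
      exact pow_le_pow_left₀ (hb i hi).le (hβ i hi) 2
    rw [Finset.sum_const, hs] at this
    have h5 : 0 < β ^ 2 := by positivity
    simp only [nsmul_eq_mul] at this
    push_cast at this
    linarith
  obtain ⟨n, rfl⟩ : ∃ n, k = n + 1 := ⟨k - 1, by omega⟩
  set R := ∑ i ∈ s, b i ^ 2 with hR
  have hRpos : 0 < R := by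
    have : 0 < β ^ 2 := by positivity
    linarith
  set c := 1 / Real.sqrt R with hc
  have hsR : 0 < Real.sqrt R := Real.sqrt_pos.mpr hRpos
  have hsq : Real.sqrt R ^ 2 = R := Real.sq_sqrt hRpos.le
  have hc0 : 0 < c := by positivity
  have hc2 : c ^ 2 * R = 1 := by rw [hc, div_pow, hsq]; field_simp
  have hscale : ∀ z, Q b (n + 1) s z = c ^ 3 * Q (fun i => c * b i) (n + 1) s (c * z) := by
    intro z
    have h := Q_scale b hc0 (n + 1) s z
    rw [hs, show n + 1 + 3 = (n + 1) + 3 by ring, pow_add, mul_assoc] at h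
    have hcn : c ^ (n + 1) ≠ 0 := by positivity
    exact (mul_left_cancel₀ hcn h).symm
  have hbs : ∀ i ∈ s, 0 < (fun i => c * b i) i := fun i hi => mul_pos hc0 (hb i hi)
  have hcs2 : c * Real.sqrt (2 * R) = Real.sqrt 2 := by
    rw [Real.sqrt_mul (by norm_num), hc]; field_simp
  rw [hscale, hscale, mul_add, hcs2, show c * (2 * β) = 2 * (c * β) by ring]
  have hNG := near_gauss s (fun i => c * b i) (c * β) hbs
    (fun i hi => mul_le_mul_of_nonneg_left (hβ i hi) hc0.le)
    (by
      have : ∀ i ∈ s, (fun i => c * b i) i ^ 2 = c ^ 2 * b i ^ 2 := by intro i _; ring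
      rw [Finset.sum_congr rfl this, ← Finset.mul_sum, ← hR, hc2])
    (by
      rw [mul_pow]
      have : c ^ 2 * (15 * β ^ 2) ≤ c ^ 2 * R := by gcongr
      rw [hc2] at this
      linarith)
  rw [second_fourier (k := n) (b := fun i => c * b i) (by rw [hs]) hbs,
    second_fourier (k := n) (b := fun i => c * b i) (by rw [hs]) hbs]
  have hpi := Real.pi_pos
  have h2 : 0 ≤ 1 / (2 * Real.pi) := by positivity
  have h3 := mul_le_mul_of_nonneg_left hNG h2
  have h4 : 0 ≤ c ^ 3 := by positivity
  apply mul_le_mul_of_nonneg_left _ h4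
  linarith

end Pool.Agent.Helper34.Slab
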