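import Pool.Agent.Helper34.Slab.LemmaA
import Pool.Agent.Helper34.Slab.Fourier

set_option autoImplicit false
set_option linter.unusedSectionVars false

open MeasureTheory

namespace Pool.Agent.Helper34.Slab

variable {ι : Type*} [DecidableEq ι]

/-- `T(s) = b₁ + √2 |b₋₁|`. -/
noncomputable def TT (b : ι → ℝ) (s : Finset ι) (i : ι) : ℝ :=
  b i + Real.sqrt (2 * ∑ j ∈ s.erase i, b j ^ 2)

lemma regimeA {b : ι → ℝ} {m : ℕ} {s : Finset ι} (hs : s.card = m + 4) (hb : ∀ i ∈ s, 0 < b i)
    {i₁ i₂ : ι} (h1 : i₁ ∈ s) (h2 : i₂ ∈ s.erase i₁) (h12 : b i₂ ≤ b i₁)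
    (hR : ∑ i ∈ (s.erase i₁).erase i₂, b i ^ 2 ≤ 14 * b i₂ ^ 2) {z : ℝ} (hz : TT b s i₁ ≤ z) :
    Q b m s z ≤ 0 := by
  set s' := s.erase i₁ with hs'
  set r := s'.erase i₂ with hr
  have hc' : s'.card = m + 3 := by rw [hs', Finset.card_erase_of_mem h1, hs]; rfl
  have hcr : r.card = m + 2 := by rw [hr, Finset.card_erase_of_mem h2, hc']; rfl
  have hb' : ∀ i ∈ s', 0 < b i := fun i hi => hb i (Finset.mem_of_mem_erase hi)
  have hbr : ∀ i ∈ r, 0 < b i := fun i hi => hb' i (Finset.mem_of_mem_erase hi)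
  have p1 : 0 < b i₁ := hb i₁ h1
  have p2 : 0 < b i₂ := hb' i₂ h2
  set u := z - b i₁ - b i₂ with hu
  have hsum : ∑ j ∈ s', b j ^ 2 = b i₂ ^ 2 + ∑ j ∈ r, b j ^ 2 := by
    rw [hr, Finset.add_sum_erase s' (fun j => b j ^ 2) h2]
  have hu1 : Real.sqrt (2 * (b i₂ ^ 2 + ∑ i ∈ r, b i ^ 2)) - b i₂ ≤ u := by
    unfold TT at hz
    rw [← hs', hsum] at hz
    rw [hu]
    linarith
  have hupos : 0 < u := by
    refine lt_of_lt_of_le ?_ hu1
    rw [sub_pos]
    apply Real.lt_sqrt_of_sq_lt
    have : 0 ≤ ∑ i ∈ r, b i ^ 2 := Finset.sum_nonneg (fun i _ => sq_nonneg _)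
    nlinarith
  have hA1 := lemmaA hcr hbr p2 hR hu1 (L := u + 2 * b i₂) le_rfl
  have hA2 := lemmaA hcr hbr p2 hR hu1 (L := u + 2 * b i₁) (by linarith)
  have hnn := (G_logconcave m r hcr hbr).1 (u + 2 * b i₁ + 2 * b i₂) (by linarith)
  rw [Q_erase m h1, Q_erase m h2, Q_erase m h2, ← hr]
  have e1 : z + b i₁ + b i₂ = u + 2 * b i₁ + 2 * b i₂ := by rw [hu]; ring
  have e2 : z + b i₁ - b i₂ = u + 2 * b i₁ := by rw [hu]; ring
  have e3 : z - b i₁ + b i₂ = u + 2 * b i₂ := by rw [hu]; ring
  have e4 : z - b i₁ - b i₂ = u := by rw [hu]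
  rw [e1, e2, e3, e4, ← sub_div, div_div]
  apply div_nonpos_of_nonpos_of_nonneg _ (by positivity)
  linarith

theorem third_nonpos {b : ι → ℝ} (m : ℕ) : ∀ s : Finset ι, s.card = m + 4 → (∀ i ∈ s, 0 < b i) →
    ∀ i₁ ∈ s, (∀ i ∈ s, b i ≤ b i₁) → ∀ z, TT b s i₁ ≤ z → Q b m s z ≤ 0 := by
  induction m with
  | zero =>
    intro s hs hb i₁ h1 hmax z hz
    -- only regime A can occur
    have hne : (s.erase i₁).Nonempty := by
      rw [← Finset.card_pos, Finset.card_erase_of_mem h1, hs]; norm_num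
    obtain ⟨i₂, h2, hmax2⟩ := Finset.exists_max_image (s.erase i₁) b hne
    apply regimeA hs hb h1 h2 (hmax i₂ (Finset.mem_of_mem_erase h2)) _ hz
    have hcard : ((s.erase i₁).erase i₂).card = 2 := by
      rw [Finset.card_erase_of_mem h2, Finset.card_erase_of_mem h1, hs]
    have : ∑ i ∈ (s.erase i₁).erase i₂, b i ^ 2 ≤ ∑ i ∈ (s.erase i₁).erase i₂, b i₂ ^ 2 := by
      apply Finset.sum_le_sum
      intro i hi
      have h3 := hmax2 i (Finset.mem_of_mem_erase hi)
      have h4 := hb i (Finset.mem_of_mem_erase (Finset.mem_of_mem_erase hi))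
      exact pow_le_pow_left₀ h4.le h3 2
    rw [Finset.sum_const, hcard] at this
    have h5 := sq_nonneg (b i₂)
    simp only [nsmul_eq_mul] at this
    push_cast at this
    linarith
  | succ m ih =>
    intro s hs hb i₁ h1 hmax
    have hne : (s.erase i₁).Nonempty := by
      rw [← Finset.card_pos, Finset.card_erase_of_mem h1, hs]; omega
    obtain ⟨i₂, h2, hmax2⟩ := Finset.exists_max_image (s.erase i₁) b hne
    have h21 : b i₂ ≤ b i₁ := hmax i₂ (Finset.mem_of_mem_erase h2)
    by_cases hR : ∑ i ∈ (s.erase i₁).erase i₂, b i ^ 2 ≤ 14 * b i₂ ^ 2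
    · intro z hz
      exact regimeA hs hb h1 h2 h21 hR hz
    push Not at hR
    set s' := s.erase i₁ with hs'
    have hc' : s'.card = m + 4 := by rw [hs', Finset.card_erase_of_mem h1, hs]; rfl
    have hb' : ∀ i ∈ s', 0 < b i := fun i hi => hb i (Finset.mem_of_mem_erase hi)
    have p1 : 0 < b i₁ := hb i₁ h1
    have p2 : 0 < b i₂ := hb' i₂ h2
    have hsum : ∑ j ∈ s', b j ^ 2 = b i₂ ^ 2 + ∑ j ∈ s'.erase i₂, b j ^ 2 := by
      rw [Finset.add_sum_erase s' (fun j => b j ^ 2) h2]
    -- m is large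
    have hm : 1 ≤ m := by
      by_contra hcon
      have hm0 : m = 0 := by omega
      subst hm0
      have hcard : (s'.erase i₂).card = 3 := by
        rw [Finset.card_erase_of_mem h2, hc']
      have : ∑ i ∈ s'.erase i₂, b i ^ 2 ≤ ∑ i ∈ s'.erase i₂, b i₂ ^ 2 := by
        apply Finset.sum_le_sum
        intro i hi
        have h3 := hmax2 i (Finset.mem_of_mem_erase hi)
        have h4 := hb' i (Finset.mem_of_mem_erase hi)
        exact pow_le_pow_left₀ h4.le h3 2
      rw [Finset.sum_const, hcard] at this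
      have h5 := sq_nonneg (b i₂)
      simp only [nsmul_eq_mul] at this
      push_cast at this
      linarith
    obtain ⟨n, rfl⟩ : ∃ n, m = n + 1 := ⟨m - 1, by omega⟩
    set T := TT b s i₁ with hT
    -- the induction hypothesis at the erased sets
    have hTs' : TT b s' i₂ ≤ T := by
      rw [hT]
      unfold TT
      have : Real.sqrt (2 * ∑ j ∈ s'.erase i₂, b j ^ 2) ≤ Real.sqrt (2 * ∑ j ∈ s.erase i₁, b j ^ 2) := by
        apply Real.sqrt_le_sqrt
        rw [← hs', hsum]
        nlinarith [sq_nonneg (b i₂)]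
      linarith
    have herase : ∀ i ∈ s, ∀ z, T ≤ z → Q b (n + 1) (s.erase i) (z + b i) ≤ 0 := by
      intro i hi z hz
      have hbi := hb i hi
      by_cases hi1 : i = i₁
      · subst hi1
        exact ih _ hc' hb' i₂ h2 hmax2 _ (by linarith)
      · have hmem : i₁ ∈ s.erase i := Finset.mem_erase.mpr ⟨fun h => hi1 h.symm, h1⟩
        refine ih (s.erase i) ?_ ?_ i₁ hmem ?_ _ ?_
        · rw [Finset.card_erase_of_mem hi, hs]; rfl
        · exact fun j hj => hb j (Finset.mem_of_mem_erase hj)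
        · exact fun j hj => hmax j (Finset.mem_of_mem_erase hj)
        · have : TT b (s.erase i) i₁ ≤ T := by
            rw [hT]
            unfold TT
            have : Real.sqrt (2 * ∑ j ∈ (s.erase i).erase i₁, b j ^ 2) ≤
                Real.sqrt (2 * ∑ j ∈ s.erase i₁, b j ^ 2) := by
              apply Real.sqrt_le_sqrt
              apply mul_le_mul_of_nonneg_left _ (by norm_num)
              apply Finset.sum_le_sum_of_subset_of_nonneg
              · exact Finset.erase_subset_erase _ (Finset.erase_subset _ _)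
              · exact fun j _ _ => sq_nonneg _
            linarith
          linarith
    -- the boundary point
    have hbd : Q b (n + 1 + 1) s T ≤ 0 := by
      rw [Q_erase _ h1]
      apply div_nonpos_of_nonpos_of_nonneg _ (by positivity)
      rw [← hs', sub_nonpos]
      set v := Real.sqrt (2 * ∑ j ∈ s', b j ^ 2) with hv
      have hTv : T = b i₁ + v := by rw [hT, hv]; rfl
      have e1 : T + b i₁ = v + 2 * b i₁ := by rw [hTv]; ring
      have e2 : T - b i₁ = v := by rw [hTv]; ring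
      rw [e1, e2]
      have hNG : Q b (n + 1 + 1) s' (v + 2 * b i₂) ≤ Q b (n + 1 + 1) s' v :=
        near_gauss_Q (k := n + 2) (by rw [hc']) hb' hmax2 p2 (by rw [hsum]; linarith)
      refine le_trans ?_ hNG
      -- antitone beyond T(s')
      have hanti : AntitoneOn (Q b (n + 1 + 1) s') (Set.Ici (TT b s' i₂)) := by
        apply antitoneOn_of_deriv_nonpos (convex_Ici _) (Q_cont b (n + 1) s').continuousOn
        · intro y _
          exact (Q_deriv b n s' y).differentiableAt.differentiableWithinAt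
        · intro y hy
          rw [interior_Ici] at hy
          rw [(Q_deriv b n s' y).deriv]
          exact ih _ hc' hb' i₂ h2 hmax2 _ (le_of_lt hy)
      have hv2 : TT b s' i₂ ≤ v + 2 * b i₂ := by
        unfold TT
        have : Real.sqrt (2 * ∑ j ∈ s'.erase i₂, b j ^ 2) ≤ v := by
          rw [hv]
          apply Real.sqrt_le_sqrt
          rw [hsum]
          nlinarith [sq_nonneg (b i₂)]
        linarith
      exact hanti (by simpa using hv2) (by
        simp only [Set.mem_Ici]; linarith) (by linarith)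
    -- maximum principle
    intro z hz
    by_contra hcon
    push Not at hcon
    set σ := ∑ i ∈ s, b i with hσ
    have hσ0 : ∀ y, σ ≤ y → Q b (n + 1 + 1) s y = 0 := fun y hy => Q_high_zero hb (by omega) hy
    have hzσ : z < σ := by
      by_contra h
      push Not at h
      rw [hσ0 z h] at hcon
      exact lt_irrefl _ hcon
    obtain ⟨w, hw, hwmax⟩ := isCompact_Icc.exists_isMaxOn (s := Set.Icc T σ) ⟨z, hz, hzσ.le⟩
      (Q_cont b (n + 1) s).continuousOn
    have hwpos : 0 < Q b (n + 1 + 1) s w := lt_of_lt_of_le hcon (hwmax ⟨hz, hzσ.le⟩)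
    have hwσ : w < σ := by
      by_contra h
      push Not at h
      rw [hσ0 w h] at hwpos
      exact lt_irrefl _ hwpos
    have hwT : T < w := by
      rcases eq_or_lt_of_le hw.1 with h | h
      · rw [← h] at hwpos; linarith
      · exact h
    have hloc : IsLocalMax (Q b (n + 1 + 1) s) w :=
      hwmax.isLocalMax (Icc_mem_nhds hwT hwσ)
    have hd0 : Q b (n + 1) s w = 0 := hloc.hasDerivAt_eq_zero (Q_deriv b n s w)
    have he := Q_euler (b := b) (n + 1) s (fun i hi => (hb i hi).ne') w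
    rw [hd0, mul_zero, zero_add] at he
    have hle : ∑ i ∈ s, Q b (n + 1) (s.erase i) (w + b i) ≤ 0 :=
      Finset.sum_nonpos (fun i hi => herase i hi w hwT.le)
    rw [← he] at hle
    have : 0 < ((n + 1 : ℕ) + 1 : ℝ) * Q b (n + 1 + 1) s w := by positivity
    linarith

end Pool.Agent.Helper34.Slab
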