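import Pool.Agent.Helper88.SlabVolume

set_option autoImplicit false

open MeasureTheory Set Real
open scoped ENNReal Topology

namespace Pool.Agent.Helper34.Slab

open Pool.Agent.Helper88.Slab

/-- the difference integrand -/
noncomputable def FF {n : ℕ} (t : ℝ) (a : Fin n → ℝ) (x : ℝ) : ℝ := sinc (t * x) * (P a x - g x)

lemma FF_int {n : ℕ} {t : ℝ} (ht : 0 < t) (a : Fin n → ℝ) (i : Fin n) (hi : a i ≠ 0) :
    Integrable (FF t a) := by
  have := (sincP_integrable a i hi ht).sub (sincg_integrable (T := t))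
  refine this.congr ?_
  filter_upwards with x
  simp only [Pi.sub_apply, FF]
  ring

lemma t_sinc {t : ℝ} (ht : 0 < t) {x : ℝ} (hx : 0 < x) : t * sinc (t * x) = Real.sin (t * x) / x := by
  rw [sinc_of_ne_zero (by positivity)]
  field_simp

lemma FF_ge1 {n : ℕ} {t : ℝ} (ht : 0 < t) {a : Fin n → ℝ} (ha : ∑ j, a j ^ 2 = 1)
    (hs : ∀ j, |a j| ≤ 1/2) {x : ℝ} (hx0 : 0 < x) (hx : x ≤ 3.8) :
    -(x^3 * g x / 500) ≤ t * FF t a x := by
  have hpi := Real.pi_gt_three
  have h1 : P a x ≤ g x := P_le ha hs (by rw [abs_of_pos hx0]; linarith)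
  have h2 := P_ge ha hs (x := x) (by rw [abs_of_pos hx0]; exact hx)
  have hg := g_pos x
  rw [FF, ← mul_assoc, t_sinc ht hx0]
  have h3 : 0 ≤ g x - P a x := by linarith
  have h4 : g x - P a x ≤ g x * (x^4/500) := by linarith
  have h5 : Real.sin (t * x) / x * (g x - P a x) ≤ 1 / x * (g x * (x^4/500)) := by
    have h6 : Real.sin (t * x) / x ≤ 1/x := by
      gcongr
      exact sin_le_one _
    calc Real.sin (t * x) / x * (g x - P a x) ≤ 1/x * (g x - P a x) :=
          mul_le_mul_of_nonneg_right h6 h3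
      _ ≤ 1 / x * (g x * (x^4/500)) := mul_le_mul_of_nonneg_left h4 (by positivity)
  have h7 : 1 / x * (g x * (x^4/500)) = x^3 * g x / 500 := by
    field_simp
  linarith

lemma FF_ge2 {n : ℕ} {t : ℝ} (ht0 : 0.82842 ≤ t) (ht1 : t ≤ 1) {a : Fin n → ℝ}
    (ha : ∑ j, a j ^ 2 = 1) (hs : ∀ j, |a j| ≤ 1/2) {x : ℝ}
    (hx0 : 3.8 ≤ x) (hx : x ≤ 2 * π) : 0 ≤ t * FF t a x := by
  have hpi := Real.pi_lt_d4
  have hpos : 0 < x := by linarith
  have h1 : P a x ≤ g x := P_le ha hs (by rw [abs_of_pos hpos]; linarith)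
  rw [FF, ← mul_assoc, t_sinc (by linarith) hpos]
  have h3 : P a x - g x ≤ 0 := by linarith
  apply mul_nonneg_of_nonpos_of_nonpos _ h3
  apply div_nonpos_of_nonpos_of_nonneg _ hpos.le
  have hlow : π ≤ t * x := by
    have : 0.82842 * 3.8 ≤ t * x := by
      apply mul_le_mul ht0 hx0 (by norm_num) (by linarith)
    linarith
  have hup : t * x ≤ 2 * π := by
    have : t * x ≤ 1 * x := by
      apply mul_le_mul_of_nonneg_right _ hpos.le
      linarith
    linarith
  have : Real.sin (t * x) = - Real.sin (t * x - π) := by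
    rw [Real.sin_sub_pi]; ring
  rw [this]
  have h5 : 0 ≤ Real.sin (t * x - π) := Real.sin_nonneg_of_nonneg_of_le_pi (by linarith) (by linarith)
  linarith

lemma FF_ge3 {n : ℕ} {t : ℝ} (ht : 0 < t) {a : Fin n → ℝ} (ha : ∑ j, a j ^ 2 = 1)
    (hs : ∀ j, |a j| ≤ 1/2) {x : ℝ}
    (hx : 2 * π ≤ x) : -(16 / x^5 + x * g x / (4*π^2)) ≤ t * FF t a x := by
  have hpi := Real.pi_pos
  have hpos : 0 < x := by linarith
  have hg := g_pos x
  have h1 := P_tail ha hs hx
  rw [FF, ← mul_assoc, t_sinc ht hpos]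
  have h2 : |Real.sin (t * x) / x * (P a x - g x)| ≤ 1/x * (16/x^4 + g x) := by
    rw [abs_mul]
    apply mul_le_mul
    · rw [abs_div, abs_of_pos hpos]
      gcongr
      exact abs_sin_le_one _
    · calc |P a x - g x| ≤ |P a x| + |g x| := abs_sub _ _
        _ ≤ 16/x^4 + g x := by rw [abs_of_pos hg]; linarith
    · exact abs_nonneg _
    · positivity
  have h3 : 1/x * (16/x^4 + g x) ≤ 16 / x^5 + x * g x / (4*π^2) := by
    have h4 : 1/x ≤ x/(4*π^2) := by
      rw [div_le_div_iff₀ hpos (by positivity)]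
      nlinarith
    have h5 : 1/x * g x ≤ x/(4*π^2) * g x := mul_le_mul_of_nonneg_right h4 hg.le
    have h6 : 1/x * (16/x^4) = 16/x^5 := by field_simp
    have h7 : x/(4*π^2) * g x = x * g x / (4*π^2) := by ring
    rw [mul_add, h6, ← h7]
    linarith
  have := neg_abs_le (Real.sin (t * x) / x * (P a x - g x))
  linarith

/-- The error estimate. -/
lemma FF_integral {n : ℕ} {t : ℝ} (ht0 : 0.82842 ≤ t) (ht1 : t ≤ 1) {a : Fin n → ℝ}
    (ha : ∑ j, a j ^ 2 = 1) (hs : ∀ j, |a j| ≤ 1/2)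
    (i : Fin n) (hi : a i ≠ 0) :
    -((18 - 61.32 * Real.exp (-(3.8^2/6)))/500 + (4 * ((2*π)^4)⁻¹ + 3 * g (2*π) / (4*π^2))) ≤
      ∫ x in Ioi (0:ℝ), t * FF t a x := by
  have ht : 0 < t := by linarith
  have hpi := Real.pi_gt_three
  have hpi' := Real.pi_pos
  have hF : Integrable (fun x => t * FF t a x) := (FF_int ht a i hi).const_mul t
  have hsplit : Ioi (0:ℝ) = (Ioc 0 3.8 ∪ Ioc 3.8 (2*π)) ∪ Ioi (2*π) := by
    rw [Ioc_union_Ioc_eq_Ioc (by norm_num) (by linarith), Ioc_union_Ioi_eq_Ioi (by linarith)]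
  have hd1 : Disjoint (Ioc (0:ℝ) 3.8 ∪ Ioc 3.8 (2*π)) (Ioi (2*π)) := by
    rw [Ioc_union_Ioc_eq_Ioc (by norm_num) (by linarith)]
    exact Ioc_disjoint_Ioi le_rfl
  have hd2 : Disjoint (Ioc (0:ℝ) 3.8) (Ioc 3.8 (2*π)) := Ioc_disjoint_Ioc_of_le le_rfl
  rw [hsplit, setIntegral_union hd1 measurableSet_Ioi hF.integrableOn hF.integrableOn,
    setIntegral_union hd2 measurableSet_Ioc hF.integrableOn hF.integrableOn]
  have h1 : -((18 - 61.32 * Real.exp (-(3.8^2/6)))/500) ≤ ∫ x in Ioc (0:ℝ) 3.8, t * FF t a x := by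
    rw [← int1, intervalIntegral.integral_of_le (by norm_num), ← integral_neg]
    apply setIntegral_mono_on _ hF.integrableOn measurableSet_Ioc
    · intro x hx
      exact FF_ge1 ht ha hs hx.1 hx.2
    · have : Continuous fun x : ℝ => -(x^3 * g x / 500) :=
        ((by fun_prop : Continuous fun x : ℝ => x^3).mul g_cont |>.div_const 500).neg
      exact (this.continuousOn.integrableOn_compact isCompact_Icc).mono_set Ioc_subset_Icc_self
  have h2 : 0 ≤ ∫ x in Ioc (3.8:ℝ) (2*π), t * FF t a x := by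
    apply setIntegral_nonneg measurableSet_Ioc
    intro x hx
    exact FF_ge2 ht0 ht1 ha hs hx.1.le hx.2
  have h3 : -(4 * ((2*π)^4)⁻¹ + 3 * g (2*π) / (4*π^2)) ≤ ∫ x in Ioi (2*π), t * FF t a x := by
    rw [← int3.2, ← integral_neg]
    apply setIntegral_mono_on int3.1.neg hF.integrableOn measurableSet_Ioi
    intro x hx
    exact FF_ge3 ht ha hs (le_of_lt hx)
  linarith

lemma int_gauss_t {t : ℝ} (ht0 : 0.82842 ≤ t) (ht1 : t ≤ 0.85) :
    0.6214 - 0.3576 * (0.85 - t) ≤ ∫ y in (0:ℝ)..t, Real.exp (-(3/2) * y^2) := by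
  have h1 := int_gauss_poly 0.85 (by norm_num)
  have hc : Continuous fun y : ℝ => Real.exp (-(3/2) * y^2) := by fun_prop
  have h2 := intervalIntegral.integral_add_adjacent_intervals (a := (0:ℝ)) (b := t) (c := (0.85:ℝ))
      (hc.intervalIntegrable (μ := volume) _ _) (hc.intervalIntegrable _ _)
  have h3 : ∫ y in t..(0.85:ℝ), Real.exp (-(3/2) * y^2) ≤ ∫ y in t..(0.85:ℝ), (0.3576:ℝ) := by
    apply intervalIntegral.integral_mono_on ht1 (hc.intervalIntegrable (μ := volume) _ _)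
      (continuous_const.intervalIntegrable _ _)
    intro y hy
    have h4 : Real.exp (-(3/2) * y^2) ≤ Real.exp (-(1.02941)) := by
      apply Real.exp_le_exp.mpr
      have : (0.82842:ℝ)^2 ≤ y^2 := by
        apply pow_le_pow_left₀ (by norm_num)
        linarith [hy.1]
      norm_num at this ⊢
      linarith
    refine h4.trans ?_
    have h5 := exp_neg_le (1.02941/4) (by norm_num)
    have h6 : Real.exp (-1.02941) = Real.exp (-(1.02941/4))^4 := by
      rw [← Real.exp_nat_mul]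
      congr 1
      norm_num
    rw [h6]
    have h7 : Real.exp (-(1.02941/4)) ≤ 0.77313 := h5.trans (by norm_num)
    have h8 : Real.exp (-(1.02941/4))^4 ≤ (0.77313:ℝ)^4 := by
      apply pow_le_pow_left₀ (Real.exp_pos _).le h7
    refine h8.trans (by norm_num)
  rw [intervalIntegral.integral_const, smul_eq_mul] at h3
  have h4 : (0.6214:ℝ) ≤ ∫ y in (0:ℝ)..0.85, Real.exp (-(3/2) * y^2) := by
    refine le_trans ?_ h1
    norm_num
  linarith

theorem small_case_t {n : ℕ} {t : ℝ} (ht0 : 0.82842 ≤ t) (ht1 : t ≤ 0.85) (a : Fin n → ℝ)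
    (ha : ∑ j, a j ^ 2 = 1) (hs : ∀ j, |a j| ≤ 1/2) :
    Real.sqrt 2 * t - t^2/2 ≤ prob a t := by
  obtain ⟨i, hi⟩ : ∃ i, a i ≠ 0 := by
    by_contra hcon
    push Not at hcon
    simp [hcon] at ha
  have hT : 0 < t := by linarith
  have hpi := Real.pi_pos
  have h1 := prob_fourier a i hi hT
  have h2 : ∫ x, sinc (t * x) * ∏ j, sinc (a j * x) =
      (∫ x, sinc (t * x) * g x) + ∫ x, FF t a x := by
    rw [← integral_add sincg_integrable (FF_int hT a i hi)]
    congr 1
    ext x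
    rw [FF, P]
    ring
  have h3 : t * ∫ x, FF t a x = 2 * ∫ x in Ioi (0:ℝ), t * FF t a x := by
    rw [← integral_comp_abs (f := fun x => t * FF t a x), ← integral_const_mul]
    congr 1
    ext x
    rw [FF, FF, P_even, g_even]
    congr 2
    rcases abs_choice x with h | h
    · rw [h]
    · rw [h, mul_neg, sinc_neg]
  have h4 := FF_integral ht0 (by linarith) ha hs i hi
  have h5 := err_bound
  have h6 := int_gauss_t ht0 ht1
  have h7 := gauss_value hT
  have hq : 4.3415 ≤ Real.sqrt (6 * π) := by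
    apply Real.le_sqrt_of_sq_le
    have := Real.pi_gt_d4
    norm_num at *
    linarith
  have h8 : prob a t * π = Real.sqrt (6 * π) * (∫ y in (0:ℝ)..t, Real.exp (-(3/2) * y^2)) +
      2 * ∫ x in Ioi (0:ℝ), t * FF t a x := by
    rw [h1, h2, mul_add, h7, ← h3]
    field_simp
  have h9 : 4.3415 * (0.6214 - 0.3576 * (0.85 - t)) ≤
      Real.sqrt (6 * π) * (∫ y in (0:ℝ)..t, Real.exp (-(3/2) * y^2)) := by
    apply mul_le_mul hq h6 _ (by positivity)
    linarith
  obtain ⟨q1, q2⟩ := sqrt2_bounds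
  have h10 : (Real.sqrt 2 * t - t^2/2) * π ≤ prob a t * π := by
    rw [h8]
    have hv : Real.sqrt 2 * t - t^2/2 ≤ 1.41422 * t - t^2/2 := by
      have := mul_le_mul_of_nonneg_right q2.le hT.le
      linarith
    have hv0 : 0 ≤ 1.41422 * t - t^2/2 := by nlinarith
    have h11 : (Real.sqrt 2 * t - t^2/2) * π ≤ (1.41422 * t - t^2/2) * 3.1416 := by
      apply mul_le_mul hv Real.pi_lt_d4.le hpi.le hv0
    have h12 : (1.41422 * t - t^2/2) * 3.1416 ≤ 4.3415 * (0.6214 - 0.3576 * (0.85 - t)) - 2 * 0.0278 := by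
      nlinarith [sq_nonneg (0.85 - t)]
    linarith
  exact le_of_mul_le_mul_right h10 hpi

end Pool.Agent.Helper34.Slab
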