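import Pool.Agent.Helper34.Slab.FTwo

set_option autoImplicit false

open MeasureTheory Set Real
open scoped ENNReal Topology

namespace Pool.Agent.Helper34.Slab

open Pool.Agent.Helper88.Slab

lemma alg_fac {q σ t : ℝ} (hq : q^2 = 2) :
    (σ^2 - 1) * (q - t)^2 - (σ - t)^2 =
      (q - σ) * ((1 - (q - t)^2) * σ - (q - 2 * t + q * t^2)) := by
  linear_combination (t^2 - 2*σ*t + σ*q) * hq

lemma alg_v {q t : ℝ} (hq : q^2 = 2) : q * t - t^2/2 = 1 - (q - t)^2/2 := by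
  linear_combination (1/2) * hq

/-- tangent at `r` -/
lemma caseA {q s r t : ℝ} (hq : q^2 = 2) (q1 : 1.41421 < q) (q2 : q < 1.41422)
    (ht0 : 0.82842 ≤ t) (ht1 : t ≤ 0.85) (hs : 1/2 ≤ s) (hs96 : s ≤ 0.96) (hr0 : 0 < r)
    (hr2 : r^2 = 1 - s^2) : q * t - t^2/2 ≤ 1 - (s+r-t)^2/(4*s*r) := by
  have hs0 : 0 < s := by linarith
  obtain ⟨σ, hσ⟩ : ∃ σ, σ = s + r := ⟨_, rfl⟩
  have hσ2 : σ^2 = 1 + 2 * (s * r) := by rw [hσ]; linear_combination hr2
  have hσle : σ ≤ q := by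
    have h1 : σ^2 ≤ q^2 := by rw [hσ2, hq]; nlinarith [sq_nonneg (s - r)]
    exact le_of_sq_le_sq h1 (by linarith)
  have hsr : 0.22 ≤ s * r := by
    have hsq : (0.22:ℝ)^2 ≤ (s * r)^2 := by
      rw [mul_pow, hr2]
      have h2 : 0 ≤ (s^2 - 1/4) * (0.96^2 - s^2) := by
        apply mul_nonneg <;> nlinarith
      nlinarith
    have hsr0 : 0 ≤ s * r := by positivity
    exact le_of_sq_le_sq hsq hsr0
  have hσ0 : 0 < σ := by rw [hσ]; linarith
  have hσ12 : 1.2 ≤ σ := by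
    have : (1.2:ℝ)^2 ≤ σ^2 := by rw [hσ2]; linarith
    exact le_of_sq_le_sq this hσ0.le
  have hk1 : (q - t)^2 ≤ 0.3432 := by
    have h1 : 0 ≤ q - t := by linarith
    have h2 : q - t ≤ 0.5858 := by linarith
    nlinarith
  have hpos2 : 0 ≤ (1 - (q - t)^2) * σ - (q - 2 * t + q * t^2) := by
    have h1 : (0.6568:ℝ) * 1.2 ≤ (1 - (q - t)^2) * σ := by
      apply mul_le_mul <;> linarith
    have h2 : q * t^2 ≤ 1.41422 * t^2 := mul_le_mul_of_nonneg_right q2.le (sq_nonneg t)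
    have h3 : 1.41422 * t^2 - 2 * t ≤ -0.6782 := by
      nlinarith [mul_nonneg (show (0:ℝ) ≤ 0.85 - t by linarith) (show (0:ℝ) ≤ t - 0.82842 by linarith)]
    linarith
  have hmain : (σ - t)^2 ≤ (σ^2 - 1) * (q - t)^2 := by
    have := mul_nonneg (sub_nonneg.mpr hσle) hpos2
    rw [← alg_fac hq] at this
    linarith
  rw [alg_v hq]
  have h5 : (s+r-t)^2/(4*s*r) ≤ (q-t)^2/2 := by
    rw [div_le_iff₀ (by positivity), ← hσ]
    have e3 : (q-t)^2 / 2 * (4 * s * r) = (σ^2 - 1) * (q-t)^2 := by rw [hσ2]; ring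
    rw [e3]
    exact hmain
  linarith

/-- tangent from zero, `s < t` -/
lemma caseB {q s t : ℝ} (hq : q^2 = 2) (q1 : 1.41421 < q)
    (ht0 : 0.82842 ≤ t) (ht1 : t ≤ 0.85) (hs : 1/2 ≤ s) (hs578 : s ≤ 0.5781) :
    q * t - t^2/2 ≤ 1 - 1/(27*s*(t-s)) * (1 - s^2) := by
  have hs0 : 0 < s := by linarith
  have hc : 0 < t - s := by linarith
  rw [alg_v hq]
  have : 1 / (27*s*(t-s)) * (1 - s^2) ≤ (q-t)^2/2 := by
    rw [div_mul_eq_mul_div, one_mul, div_le_iff₀ (by positivity)]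
    obtain ⟨x, hx⟩ : ∃ x, s = 1/2 + x := ⟨s - 1/2, by ring⟩
    obtain ⟨y, hy⟩ : ∃ y, t = 0.85 - y := ⟨0.85 - t, by ring⟩
    have hx0 : 0 ≤ x := by linarith
    have hx1 : x ≤ 0.0781 := by linarith
    have hy0 : 0 ≤ y := by linarith
    have hy1 : y ≤ 0.02158 := by linarith
    have hk2 : 0.31833 + 1.1284 * y ≤ (q-t)^2 := by
      have h1 : 0.56421 + y ≤ q - t := by linarith
      have h2 : (0.56421 + y)^2 ≤ (q - t)^2 := pow_le_pow_left₀ (by linarith) h1 2
      nlinarith [sq_nonneg y]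
    have hst : 0 ≤ s * (t - s) := by positivity
    have h7 : (0.31833 + 1.1284 * y) * (27 * (s * (t - s))) ≤ (q-t)^2 * (27 * (s * (t - s))) :=
      mul_le_mul_of_nonneg_right hk2 (by positivity)
    have h8 : 2 * (1 - s^2) ≤ (0.31833 + 1.1284 * y) * (27 * (s * (t - s))) := by
      rw [hx, hy]
      have hA : 0 ≤ 0.0041 + 0.7107 * x - 6.595 * x^2 := by
        nlinarith [mul_nonneg hx0 (sub_nonneg.mpr hx1)]
      have hB : 0 ≤ (0.0041 + 0.7107 * x - 6.595 * x^2) +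
          0.02158 * (0.7054 - 13.823 * x - 30.467 * x^2) := by
        nlinarith [mul_nonneg hx0 (sub_nonneg.mpr hx1)]
      have h1 := mul_nonneg (sub_nonneg.mpr hy1) hA
      have h2 := mul_nonneg hy0 hB
      have h3 : 0 ≤ (0.0041 + 0.7107 * x - 6.595 * x^2) + y * (0.7054 - 13.823 * x - 30.467 * x^2) := by
        nlinarith
      have h4 : 0 ≤ y * (0.02158 - y) := mul_nonneg hy0 (sub_nonneg.mpr hy1)
      have h5 : 0 ≤ x * (y * (0.02158 - y)) := mul_nonneg hx0 h4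
      have h6 : 0 ≤ x^2 := sq_nonneg x
      have h9 : 0 ≤ x * y := mul_nonneg hx0 hy0
      have h10 : 0 ≤ x^2 * y := mul_nonneg h6 hy0
      nlinarith
    linarith
  linarith

/-- tangent from zero, `s > t` -/
lemma caseC {q s t : ℝ} (q1 : 1.41421 < q) (q2 : q < 1.41422)
    (ht0 : 0.82842 ≤ t) (htq : 2 * q - 2 ≤ t) (ht1 : t ≤ 0.85) (hs1 : s ≤ 1) (hc1 : 0.1 ≤ s - t) :
    q * t - t^2/2 ≤ t/s - 1/(27*s*(s-t)) * (1 - s^2) := by
  have hs0 : 0 < s := by linarith
  have hc : 0 < s - t := by linarith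
  obtain ⟨v, hv⟩ : ∃ v, v = q * t - t^2/2 := ⟨_, rfl⟩
  rw [← hv]
  have hv1 : v ≤ t := by
    have : v - t = t * (q - 1 - t/2) := by rw [hv]; ring
    have h2 : t * (q - 1 - t/2) ≤ 0 := mul_nonpos_of_nonneg_of_nonpos (by linarith) (by linarith)
    linarith
  have hv0 : 0.828 ≤ v := by
    have h1 : 1.41421 * t ≤ q * t := mul_le_mul_of_nonneg_right q1.le (by linarith)
    rw [hv]
    nlinarith [mul_nonneg (show (0:ℝ) ≤ 0.85 - t by linarith) (show (0:ℝ) ≤ t - 0.82842 by linarith)]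
  have e : t/s - 1/(27*s*(s-t)) * (1-s^2) - v =
      (27 * (s-t) * (t - v) + (1-s)*(27*(v*(s-t)) - (1+s)))/(27*s*(s-t)) := by
    field_simp
    ring
  have h7 : 0 ≤ (27 * (s-t) * (t - v) + (1-s)*(27*(v*(s-t)) - (1+s)))/(27*s*(s-t)) := by
    apply div_nonneg _ (by positivity)
    have p1 : 0 ≤ 27 * (s-t) * (t - v) := by
      apply mul_nonneg (by positivity); linarith
    have p2 : 0 ≤ 27*(v*(s-t)) - (1+s) := by
      have : (0.828:ℝ) * 0.1 ≤ v * (s-t) := mul_le_mul hv0 hc1 (by norm_num) (by linarith)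
      linarith
    have p3 : 0 ≤ (1-s)*(27*(v*(s-t)) - (1+s)) := mul_nonneg (by linarith) p2
    linarith
  linarith

theorem large_case_t {n : ℕ} {t : ℝ} (ht0 : T0 ≤ t) (ht1 : t ≤ 0.85) (a : Fin (n+1) → ℝ)
    (i : Fin (n+1)) (ha : ∑ j, a j ^ 2 = 1) (hs : 1/2 ≤ |a i|) :
    Real.sqrt 2 * t - t^2/2 ≤ prob a t := by
  obtain ⟨s, hsdef⟩ : ∃ s, |a i| = s := ⟨_, rfl⟩
  rw [hsdef] at hs
  have hs0 : 0 < s := by linarith
  have hs1 : s ≤ 1 := by
    have : a i ^2 ≤ 1 := by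
      rw [← ha]
      exact Finset.single_le_sum (f := fun j => a j ^2) (fun j _ => sq_nonneg _) (Finset.mem_univ i)
    have h2 : s ^ 2 ≤ 1 := by rwa [← hsdef, sq_abs]
    nlinarith
  obtain ⟨q1, q2⟩ := sqrt2_bounds
  have hq : Real.sqrt 2 ^ 2 = 2 := Real.sq_sqrt (by norm_num)
  have hT : T0 = 2 * Real.sqrt 2 - 2 := rfl
  have ht00 : 0.82842 ≤ t := T0_bounds.1.le.trans ht0
  rw [hT] at ht0
  have htp : 0 < t := by linarith
  generalize Real.sqrt 2 = q at *
  obtain ⟨r, hr⟩ : ∃ r, r = Real.sqrt (1 - s^2) := ⟨_, rfl⟩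
  have hr2 : r^2 = 1 - s^2 := by rw [hr]; exact Real.sq_sqrt (by nlinarith)
  have hr0 : 0 ≤ r := by rw [hr]; exact Real.sqrt_nonneg _
  obtain ⟨c, hcdef⟩ : ∃ c, c = |t - s| := ⟨_, rfl⟩
  have hc0 : 0 ≤ c := by rw [hcdef]; exact abs_nonneg _
  have hc2 : c^2 = (t - s)^2 := by rw [hcdef, sq_abs]
  rcases le_total (3 * c) r with hA | hA
  · -- tangent at r
    have h9 : 9 * (t-s)^2 ≤ 1 - s^2 := by
      rw [← hr2, ← hc2]; nlinarith
    have hs96 : s ≤ 0.96 := by
      by_contra hcon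
      push Not at hcon
      nlinarith
    have hrpos : 0 < r := by
      rcases eq_or_lt_of_le hr0 with h | h
      · rw [← h] at hr2; nlinarith
      · exact h
    have key := prob_ge a i (T := t) (α := (min 1 (t/s) - (r-c)^2/(4*s*r) + (r^2-c^2)/(8*s*r)))
      (γ := (r^2-c^2)/(8*s*r^3)) htp.le ha hs0 hsdef (by
      intro v hv
      rw [← hcdef]
      exact cubic1 hs0 hc0 hrpos hA hv)
    refine le_trans ?_ key
    rw [← hr2]
    have e : (min 1 (t/s) - (r-c)^2/(4*s*r) + (r^2-c^2)/(8*s*r)) - (r^2-c^2)/(8*s*r^3) * r^2 =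
      min 1 (t/s) - (r-c)^2/(4*s*r) := by
      field_simp
      ring
    rw [e]
    have e2 : min 1 (t/s) - (r-c)^2/(4*s*r) = 1 - (s+r-t)^2/(4*s*r) := by
      rcases le_total s t with h3 | h3
      · rw [hcdef, abs_of_nonneg (by linarith), min_eq_left (by rw [le_div_iff₀ hs0]; linarith)]
        ring
      · rw [hcdef, abs_of_nonpos (by linarith), min_eq_right (by rw [div_le_iff₀ hs0]; linarith)]
        field_simp
        ring
    rw [e2]
    exact caseA hq q1 q2 ht00 ht1 hs hs96 hrpos hr2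
  · have h9 : 1 - s^2 ≤ 9 * (t-s)^2 := by
      rw [← hr2, ← hc2]; nlinarith
    rcases le_total s t with h3 | h3
    · have hs578 : s ≤ 0.5781 := by
        by_contra hcon
        push Not at hcon
        nlinarith
      have hc : 0 < t - s := by linarith
      have key := prob_ge a i (T := t) (α := 1) (γ := 1/(27*s*(t-s))) htp.le ha hs0 hsdef (by
        intro v hv
        have hmin : min 1 (t/s) = 1 := by
          rw [min_eq_left]; rw [le_div_iff₀ hs0]; linarith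
        rw [hmin]
        have habs : |t - s| = t - s := abs_of_pos hc
        rw [habs]
        exact cubic0 hs0 hc le_rfl hv)
      exact (caseB hq q1 ht00 ht1 hs hs578).trans key
    · have hst : t < s := by
        rcases eq_or_lt_of_le h3 with h | h
        · exfalso
          rw [← h] at h9
          nlinarith
        · exact h
      have hc : 0 < s - t := by linarith
      have hc1 : 0.1 ≤ s - t := by
        by_contra hcon
        push Not at hcon
        nlinarith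
      have key := prob_ge a i (T := t) (α := t/s) (γ := 1/(27*s*(s-t))) htp.le ha hs0 hsdef (by
        intro v hv
        have hmin : min 1 (t/s) = t/s := by
          rw [min_eq_right]; rw [div_le_iff₀ hs0]; linarith
        rw [hmin]
        have habs : |t - s| = s - t := by rw [abs_of_neg (by linarith)]; ring
        rw [habs]
        exact cubic0 hs0 hc le_rfl hv)
      exact (caseC q1 q2 ht00 ht0 ht1 hs1 hc1).trans key

theorem prob_ge_v {n : ℕ} {t : ℝ} (ht0 : T0 ≤ t) (ht1 : t ≤ 0.85) (a : Fin n → ℝ)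
    (ha : ∑ j, a j ^ 2 = 1) : Real.sqrt 2 * t - t^2/2 ≤ prob a t := by
  by_cases h : ∀ j, |a j| ≤ 1/2
  · exact small_case_t (T0_bounds.1.le.trans ht0) ht1 a ha h
  · push Not at h
    obtain ⟨i, hi⟩ := h
    obtain ⟨m, rfl⟩ : ∃ m, n = m + 1 := ⟨n - 1, by have := i.2; omega⟩
    exact large_case_t ht0 ht1 a i ha hi.le

end Pool.Agent.Helper34.Slab
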