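import Pool.Agent.Helper34.Slab.GFun

set_option autoImplicit false
set_option linter.unusedSectionVars false

open MeasureTheory

namespace Pool.Agent.Helper34.Slab

variable {ι : Type*} [DecidableEq ι]

lemma expo_ineq {x q : ℝ} (hx0 : 0 < x) (hx : x ≤ 2.2671) (hq : q = (x^2 - 0.7*x - 0.1225)/2) :
    x^3 + 3*x^2 + 6*x + 6 - q*(x+1) < Real.exp x * (6 - q) := by
  have hexp : 1 + x + x^2/2 + x^3/6 + x^4/24 + x^5/120 + x^6/720 + x^7/5040 + x^8/40320
      ≤ Real.exp x := by
    have h := Real.sum_le_exp_of_nonneg hx0.le 9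
    refine le_trans (le_of_eq ?_) h
    simp [Finset.sum_range_succ, Nat.factorial]
    try ring
  have hq6 : 0 < 6 - q := by rw [hq]; nlinarith
  have h1 : (1 + x + x^2/2 + x^3/6 + x^4/24 + x^5/120 + x^6/720 + x^7/5040 + x^8/40320) * (6 - q)
      ≤ Real.exp x * (6 - q) := mul_le_mul_of_nonneg_right hexp hq6.le
  refine lt_of_lt_of_le ?_ h1
  rw [← sub_pos]
  have key : (1 + x + x^2/2 + x^3/6 + x^4/24 + x^5/120 + x^6/720 + x^7/5040 + x^8/40320) * (6 - q)
      - (x^3 + 3*x^2 + 6*x + 6 - q*(x+1)) =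
      x^2 * (49/1600 + 889/4800*x + 1169/19200*x^2 - 1751/96000*x^3 - 5471/576000*x^4
        - 9991/4032000*x^5 - 15311/32256000*x^6 - 73/806400*x^7 - 1/80640*x^8) := by
    rw [hq]; ring
  rw [key]
  apply mul_pos (by positivity)
  obtain ⟨h, hh⟩ : ∃ h : ℝ, h = 2.2671 := ⟨_, rfl⟩
  rw [← hh] at hx
  have hh0 : (0:ℝ) < h := by norm_num [hh]
  have e3 : x^3 ≤ x^2 * h := by rw [pow_succ]; exact mul_le_mul_of_nonneg_left hx (by positivity)
  have e4 : x^4 ≤ x^2 * h^2 := by
    rw [show x^4 = x^2 * x^2 by ring]; gcongr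
  have e5 : x^5 ≤ x^2 * h^3 := by
    rw [show x^5 = x^2 * x^3 by ring]; gcongr
  have e6 : x^6 ≤ x^2 * h^4 := by
    rw [show x^6 = x^2 * x^4 by ring]; gcongr
  have e7 : x^7 ≤ x^2 * h^5 := by
    rw [show x^7 = x^2 * x^5 by ring]; gcongr
  have e8 : x^8 ≤ x^2 * h^6 := by
    rw [show x^8 = x^2 * x^6 by ring]; gcongr
  have quad : 0 < 49/1600 + 889/4800*x + (1169/19200 - 1751/96000*h - 5471/576000*h^2
        - 9991/4032000*h^3 - 15311/32256000*h^4 - 73/806400*h^5 - 1/80640*h^6) * x^2 := by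
    have hval : -0.0779 ≤ (1169/19200 - 1751/96000*h - 5471/576000*h^2
        - 9991/4032000*h^3 - 15311/32256000*h^4 - 73/806400*h^5 - 1/80640*h^6) := by
      rw [hh]; norm_num
    have h1 := mul_le_mul_of_nonneg_right hval (sq_nonneg x)
    have h2 : x^2 ≤ 2.2671 * x := by rw [sq, ← hh]; exact mul_le_mul_of_nonneg_right hx hx0.le
    linarith
  linarith

lemma tilt_integral {a c L : ℝ} (ha : 0 < a) :
    ∫ z in (0:ℝ)..L, z * (z^2 - c) * Real.exp (-(a * z)) =
      (6/a^4 - c/a^2) - Real.exp (-(a * L)) * (L^3/a + 3*L^2/a^2 + 6*L/a^3 + 6/a^4 - c*(L/a + 1/a^2)) := by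
  have hd : ∀ z ∈ Set.uIcc (0:ℝ) L, HasDerivAt (fun z : ℝ =>
      - Real.exp (-(a * z)) * (z^3/a + 3*z^2/a^2 + 6*z/a^3 + 6/a^4 - c*(z/a + 1/a^2)))
      (z * (z^2 - c) * Real.exp (-(a * z))) z := by
    intro z _
    have h1 : HasDerivAt (fun z : ℝ => - Real.exp (-(a * z))) (- (Real.exp (-(a*z)) * (-a))) z := by
      have := (((hasDerivAt_id z).const_mul a).neg.exp).neg
      refine this.congr_deriv ?_
      simp
    have h2 : HasDerivAt (fun z : ℝ => z^3/a + 3*z^2/a^2 + 6*z/a^3 + 6/a^4 - c*(z/a + 1/a^2))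
        (3*z^2/a + 3*(2*z)/a^2 + 6/a^3 - c*(1/a)) z := by
      have a1 := (hasDerivAt_pow 3 z).div_const a
      have a2 := ((hasDerivAt_pow 2 z).const_mul 3).div_const (a^2)
      have a3 := ((hasDerivAt_id z).const_mul 6).div_const (a^3)
      have a4 := (((hasDerivAt_id z).div_const a).add_const (1/a^2)).const_mul c
      refine ((((a1.add a2).add a3).add_const (6/a^4)).sub a4).congr_deriv ?_
      norm_num
    refine (h1.mul h2).congr_deriv ?_
    field_simp
    ring
  rw [intervalIntegral.integral_eq_sub_of_hasDerivAt hd]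
  · simp
    ring
  · apply Continuous.intervalIntegrable
    fun_prop

lemma tilt_pos {c R L : ℝ} (hc : 0 < c) (hR0 : 0 ≤ R) (hR : R ≤ 14 * c^2)
    (hL : Real.sqrt (2 * (c^2 + R)) + c ≤ L) :
    0 < ∫ z in (0:ℝ)..L, z * (z^2 - R) * Real.exp (-(7/20/c * z)) := by
  set L0 := Real.sqrt (2 * (c^2 + R)) + c with hL0
  set a := 7/20/c with ha
  have hapos : 0 < a := by positivity
  have hs : Real.sqrt (2 * (c^2 + R)) ^ 2 = 2 * (c^2 + R) := Real.sq_sqrt (by positivity)
  have hs0 : 0 ≤ Real.sqrt (2 * (c^2 + R)) := Real.sqrt_nonneg _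
  have hL0pos : 0 < L0 := by positivity
  -- positivity up to L0
  have h1 : 0 < ∫ z in (0:ℝ)..L0, z * (z^2 - R) * Real.exp (-(a * z)) := by
    rw [tilt_integral hapos]
    set x := a * L0 with hx
    set q := a^2 * R with hq
    have hac : a * c = 7/20 := by rw [ha]; field_simp
    have hx0 : 0 < x := by positivity
    have hxs : x = a * Real.sqrt (2 * (c^2 + R)) + 7/20 := by rw [hx, hL0, mul_add, hac]
    have hq' : q = (x^2 - 0.7*x - 0.1225)/2 := by
      have : (x - 7/20)^2 = 2 * ((7/20)^2 + q) := by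
        rw [hxs]
        have : (a * Real.sqrt (2 * (c^2 + R)) + 7/20 - 7/20)^2 = a^2 * Real.sqrt (2 * (c^2 + R))^2 := by ring
        rw [this, hs, hq, ← hac]; ring
      nlinarith
    have hxle : x ≤ 2.2671 := by
      have hq14 : q ≤ 14 * (7/20)^2 := by
        rw [hq, ← hac]
        have : a^2 * R ≤ a^2 * (14 * c^2) := by gcongr
        nlinarith
      by_contra hcon
      push Not at hcon
      nlinarith
    have hE := expo_ineq hx0 hxle hq'
    have hexp : Real.exp (-(a * L0)) * Real.exp x = 1 := by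
      rw [← Real.exp_add, hx]; simp
    have e1 : (6/a^4 - R/a^2) = (6 - q)/a^4 := by rw [hq]; field_simp
    have e2 : (L0^3/a + 3*L0^2/a^2 + 6*L0/a^3 + 6/a^4 - R*(L0/a + 1/a^2)) =
        (x^3 + 3*x^2 + 6*x + 6 - q*(x+1))/a^4 := by
      rw [hq, hx]; field_simp
    rw [e1, e2, ← mul_div_assoc, ← sub_div]
    apply div_pos _ (by positivity)
    have hpos := Real.exp_pos (-(a * L0))
    have h5 : Real.exp (-(a * L0)) * (x^3 + 3*x^2 + 6*x + 6 - q*(x+1)) <
        Real.exp (-(a * L0)) * (Real.exp x * (6 - q)) := mul_lt_mul_of_pos_left hE hpos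
    have h6 : Real.exp (-(a * L0)) * (Real.exp x * (6 - q)) = 6 - q := by
      rw [← mul_assoc, hexp, one_mul]
    linarith
  have hcont : Continuous fun z : ℝ => z * (z^2 - R) * Real.exp (-(a * z)) := by fun_prop
  rw [← intervalIntegral.integral_add_adjacent_intervals (b := L0)
    (hcont.intervalIntegrable _ _) (hcont.intervalIntegrable _ _)]
  have h2 : 0 ≤ ∫ z in L0..L, z * (z^2 - R) * Real.exp (-(a * z)) := by
    apply intervalIntegral.integral_nonneg hL
    intro z hz
    have hz0 : L0 ≤ z := hz.1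
    have : R ≤ z^2 := by nlinarith
    have hz1 : 0 ≤ z := hL0pos.le.trans hz0
    have : 0 ≤ z^2 - R := by linarith
    positivity
  linarith

/-- Lemma A. -/
lemma lemmaA {b : ι → ℝ} {k : ℕ} {r : Finset ι} (hr : r.card = k + 2) (hb : ∀ i ∈ r, 0 < b i)
    {c u L : ℝ} (hc : 0 < c) (hR : ∑ i ∈ r, b i ^ 2 ≤ 14 * c^2)
    (hu : Real.sqrt (2 * (c^2 + ∑ i ∈ r, b i ^ 2)) - c ≤ u) (hL : u + 2 * c ≤ L) :
    - Q b k r L ≤ (- Q b k r u) / 2 := by
  by_contra hcon
  push Not at hcon
  set R := ∑ i ∈ r, b i ^ 2 with hRdef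
  have hRpos : 0 < R := by
    apply Finset.sum_pos (fun i hi => by have := hb i hi; positivity)
    rw [← Finset.card_pos, hr]; omega
  obtain ⟨hnn, -⟩ := G_logconcave k r hr hb
  set ρ := Real.sqrt R with hρ
  have hρ0 : 0 < ρ := Real.sqrt_pos.mpr hRpos
  have hρ2 : ρ^2 = R := Real.sq_sqrt hRpos.le
  have hρu : ρ ≤ u := by
    refine le_trans ?_ hu
    rw [le_sub_iff_add_le]
    apply Real.le_sqrt_of_sq_le
    nlinarith [sq_nonneg (ρ - c)]
  have hu0 : 0 < u := lt_of_lt_of_le hρ0 hρu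
  have huL : u ≤ L := by linarith
  have hL0 : 0 < L := by linarith
  set a := 7/20/c with ha
  have hapos : 0 < a := by positivity
  set H : ℝ → ℝ := fun z => Real.exp (a * z) * - Q b k r z with hH
  have hHnn : ∀ z, 0 < z → 0 ≤ H z := fun z hz => mul_nonneg (Real.exp_pos _).le (hnn z hz)
  have htilt : ∀ {x y z : ℝ}, 0 < x → x ≤ y → y ≤ z → min (H x) (H z) ≤ H y :=
    fun hx hxy hyz => G_tilt hr hb a hx hxy hyz
  -- H u < H L
  have hexp2 : 2 ≤ Real.exp (2 * (a * c)) := by
    have hac : a * c = 7/20 := by rw [ha]; field_simp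
    rw [hac]
    have h := Real.sum_le_exp_of_nonneg (show (0:ℝ) ≤ 2 * (7/20) by norm_num) 5
    refine le_trans ?_ h
    simp [Finset.sum_range_succ, Nat.factorial]
    norm_num
  have hHuL : H u < H L := by
    have h1 : Real.exp (a * u) * 2 ≤ Real.exp (a * L) := by
      have : Real.exp (a * u) * Real.exp (2 * (a * c)) ≤ Real.exp (a * L) := by
        rw [← Real.exp_add]
        apply Real.exp_le_exp.mpr
        nlinarith
      have h3 := mul_le_mul_of_nonneg_left hexp2 (Real.exp_pos (a * u)).le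
      linarith
    have hGu := hnn u hu0
    have h2 : Real.exp (a * L) * ((- Q b k r u) / 2) < H L := by
      apply mul_lt_mul_of_pos_left hcon (Real.exp_pos _)
    have h3 : H u ≤ Real.exp (a * L) * ((- Q b k r u) / 2) := by
      have : Real.exp (a * u) * 2 * ((- Q b k r u) / 2) ≤ Real.exp (a * L) * ((- Q b k r u) / 2) :=
        mul_le_mul_of_nonneg_right h1 (by linarith)
      have e : H u = Real.exp (a * u) * 2 * ((- Q b k r u) / 2) := by rw [hH]; ring
      rw [e]; exact this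
    linarith
  have hmono : ∀ {x y : ℝ}, 0 < x → x ≤ y → y ≤ u → H x ≤ H y := by
    intro x y hx hxy hyu
    by_contra hlt
    push Not at hlt
    have h1 := htilt hx hxy (hyu.trans huL)
    have h2 := htilt (lt_of_lt_of_le hx hxy) hyu huL
    rcases min_le_iff.mp h1 with h | h
    · linarith
    · rcases min_le_iff.mp h2 with h' | h'
      · linarith
      · linarith
  have hge : ∀ {z : ℝ}, ρ ≤ z → z ≤ L → H ρ ≤ H z := by
    intro z hz hzL
    rcases le_total z u with h | h
    · exact hmono hρ0 hz h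
    · have h1 := htilt hu0 h hzL
      rw [min_eq_left hHuL.le] at h1
      exact (hmono hρ0 hρu le_rfl).trans h1
  have hle : ∀ {z : ℝ}, 0 < z → z ≤ ρ → H z ≤ H ρ := fun hz hzρ => hmono hz hzρ hρu
  -- moments
  set Z := max (∑ i ∈ r, b i) L with hZ
  have hLZ : L ≤ Z := le_max_right _ _
  have hmom := fun c' : ℝ => G_moments hr hb (le_max_left _ _ : ∑ i ∈ r, b i ≤ Z) c'
  rw [← hRdef] at hmom
  have hint : ∀ (c' x y : ℝ), IntervalIntegrable (fun z => z * (z^2 - c') * (- Q b k r z)) volume x y := by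
    intro c' x y
    apply IntervalIntegrable.continuousOn_mul (Q_intervalIntegrable b k r x y).neg
    fun_prop
  have hGH : ∀ z, - Q b k r z = Real.exp (-(a * z)) * H z := by
    intro z
    rw [hH]
    simp only
    rw [← mul_assoc, ← Real.exp_add]
    simp
  have hsplit := intervalIntegral.integral_add_adjacent_intervals (hint R 0 L) (hint R L Z)
  rw [hmom R, sub_self, zero_div] at hsplit
  have hupper : 0 ≤ ∫ z in L..Z, z * (z^2 - R) * (- Q b k r z) := by
    apply intervalIntegral.integral_nonneg hLZ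
    intro z hz
    have hz1 : L ≤ z := hz.1
    have h1 : 0 ≤ z^2 - R := by rw [← hρ2]; nlinarith
    have h2 : 0 ≤ z := by linarith
    exact mul_nonneg (mul_nonneg h2 h1) (hnn z (by linarith))
  have hcontE : Continuous fun z : ℝ => z * (z^2 - R) * Real.exp (-(a * z)) := by fun_prop
  have hlower : (∫ z in (0:ℝ)..L, z * (z^2 - R) * Real.exp (-(a * z))) * H ρ ≤
      ∫ z in (0:ℝ)..L, z * (z^2 - R) * (- Q b k r z) := by
    rw [← intervalIntegral.integral_mul_const]
    have hcontE' : Continuous fun z : ℝ => z * (z^2 - R) * Real.exp (-(a * z)) * H ρ := by fun_prop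
    apply intervalIntegral.integral_mono_on_of_le_Ioo hL0.le
      (hcontE'.intervalIntegrable _ _) (hint R 0 L)
    intro z hz
    obtain ⟨hz0, hzL⟩ := hz
    rw [hGH z]
    have hE := Real.exp_pos (-(a * z))
    have : z * (z^2 - R) * (Real.exp (-(a * z)) * H z) - z * (z^2 - R) * Real.exp (-(a * z)) * H ρ =
        z * Real.exp (-(a * z)) * ((z^2 - R) * (H z - H ρ)) := by ring
    rw [← sub_nonneg, this]
    apply mul_nonneg (by positivity)
    rcases le_total z ρ with h | h
    · have h1 : z^2 - R ≤ 0 := by rw [← hρ2]; nlinarith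
      have h2 : H z - H ρ ≤ 0 := by linarith [hle hz0 h]
      nlinarith
    · have h1 : 0 ≤ z^2 - R := by rw [← hρ2]; nlinarith
      have h2 : 0 ≤ H z - H ρ := by linarith [hge h hzL.le]
      positivity
  have hI := tilt_pos hc hRpos.le hR (L := L) (by linarith)
  have hHρ : H ρ = 0 := by
    have h1 := hHnn ρ hρ0
    by_contra hne
    have h2 : 0 < H ρ := lt_of_le_of_ne h1 (Ne.symm hne)
    have := mul_pos hI h2
    linarith
  -- then G vanishes on (0, ρ]
  have hG0 : ∀ z, 0 < z → z ≤ ρ → - Q b k r z = 0 := by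
    intro z hz hzρ
    have h1 := hle hz hzρ
    have h2 := hHnn z hz
    rw [hHρ] at h1
    have : H z = 0 := le_antisymm h1 h2
    rw [hGH z, this, mul_zero]
  have hZ0 : 0 ≤ Z := hL0.le.trans hLZ
  have hnonneg : 0 ≤ᵐ[volume.restrict (Set.Ioc 0 Z)] fun z => z * (z^2 - R) * (- Q b k r z) := by
    rw [Filter.EventuallyLE, ae_restrict_iff' measurableSet_Ioc]
    filter_upwards with z hz
    rcases le_total z ρ with h | h
    · rw [hG0 z hz.1 h]; simp
    · have h1 : 0 ≤ z^2 - R := by rw [← hρ2]; nlinarith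
      exact mul_nonneg (mul_nonneg hz.1.le h1) (hnn z hz.1)
  have hzero := (intervalIntegral.integral_eq_zero_iff_of_le_of_nonneg_ae hZ0 hnonneg (hint R 0 Z)).mp
    (by rw [hmom R, sub_self, zero_div])
  have hfin : ∫ z in (0:ℝ)..Z, z * (z^2 - (R - 1)) * (- Q b k r z) = 0 := by
    rw [intervalIntegral.integral_of_le hZ0]
    have h0 : (fun z => z * (z^2 - (R - 1)) * (- Q b k r z)) =ᵐ[volume.restrict (Set.Ioc 0 Z)] 0 := by
      have hne : ∀ᵐ z ∂(volume.restrict (Set.Ioc (0:ℝ) Z)), z ≠ ρ := by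
        apply ae_restrict_of_ae
        exact Measure.ae_ne volume ρ
      have hmem : ∀ᵐ z ∂(volume.restrict (Set.Ioc (0:ℝ) Z)), z ∈ Set.Ioc (0:ℝ) Z :=
        ae_restrict_mem measurableSet_Ioc
      filter_upwards [hzero, hne, hmem] with z hz hz1 hz2
      simp only [Pi.zero_apply] at hz ⊢
      have : - Q b k r z = 0 := by
        rcases mul_eq_zero.mp hz with h | h
        · exfalso
          rcases mul_eq_zero.mp h with h' | h'
          · exact hz2.1.ne' h'
          · rw [← hρ2] at h'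
            have : z = ρ := by nlinarith [hz2.1, sq_nonneg (z - ρ), mul_pos hz2.1 hρ0]
            exact hz1 this
        · exact h
      rw [this, mul_zero]
    rw [integral_congr_ae h0]
    simp
  rw [hmom] at hfin
  linarith

end Pool.Agent.Helper34.Slab
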