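import Pool.Agent.Helper34.Slab.Convex

set_option autoImplicit false
set_option linter.unusedSectionVars false

open MeasureTheory

namespace Pool.Agent.Helper34.Slab

variable {ι : Type*} [DecidableEq ι]

/-- the fourth and higher statement: `Q b (m+1) s` is antitone where `Q b m s ≤ 0`. -/
lemma Q_antitone {b : ι → ℝ} {m : ℕ} {s : Finset ι} {T : ℝ} (h : ∀ z, T ≤ z → Q b m s z ≤ 0) :
    AntitoneOn (Q b (m + 1) s) (Set.Ici T) := by
  intro x hx y hy hxy
  have h1 := Q_integral b m s x y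
  have h2 : 0 ≤ ∫ z in x..y, - Q b m s z := by
    apply intervalIntegral.integral_nonneg hxy
    intro z hz
    have := h z (le_trans hx hz.1)
    linarith
  rw [intervalIntegral.integral_neg] at h2
  linarith

section

variable {b : ι → ℝ} {m : ℕ} {s : Finset ι} {T t : ℝ}

/-- `M(y) = g(t-y) - g(t+y)` is convex on `[0, Y]`. -/
lemma M_convex (h : ∀ z, T ≤ z → Q b m s z ≤ 0) {Y : ℝ} (hY : T ≤ t - Y) :
    ConvexOn ℝ (Set.Icc 0 Y) (fun y => Q b (m + 3) s (t - y) - Q b (m + 3) s (t + y)) := by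
  have hanti := Q_antitone h
  have d1 : ∀ y, HasDerivAt (fun y => Q b (m + 3) s (t - y) - Q b (m + 3) s (t + y))
      (- Q b (m + 2) s (t - y) - Q b (m + 2) s (t + y)) y := by
    intro y
    have a1 := (Q_deriv b (m + 1) s (t - y)).comp_const_sub t y
    have a2 := (Q_deriv b (m + 1) s (t + y)).comp_const_add t y
    exact a1.sub a2
  have d2 : ∀ y, HasDerivAt (fun y => - Q b (m + 2) s (t - y) - Q b (m + 2) s (t + y))
      (Q b (m + 1) s (t - y) - Q b (m + 1) s (t + y)) y := by
    intro y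
    have a1 := ((Q_deriv b m s (t - y)).comp_const_sub t y).neg
    have a2 := (Q_deriv b m s (t + y)).comp_const_add t y
    refine (a1.sub a2).congr_deriv ?_
    ring
  have e1 : deriv (fun y => Q b (m + 3) s (t - y) - Q b (m + 3) s (t + y)) =
      fun y => - Q b (m + 2) s (t - y) - Q b (m + 2) s (t + y) := by
    ext y; exact (d1 y).deriv
  apply convexOn_of_deriv2_nonneg (convex_Icc 0 Y)
  · exact fun y _ => (d1 y).continuousAt.continuousWithinAt
  · exact fun y _ => (d1 y).differentiableAt.differentiableWithinAt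
  · rw [e1]
    exact fun y _ => (d2 y).differentiableAt.differentiableWithinAt
  · intro y hy
    rw [interior_Icc] at hy
    rw [Function.iterate_succ, Function.iterate_one, Function.comp_apply, e1, (d2 y).deriv]
    have := hanti (show t - y ∈ Set.Ici T by simp only [Set.mem_Ici]; linarith [hy.2])
      (show t + y ∈ Set.Ici T by simp only [Set.mem_Ici]; linarith [hy.2, hy.1])
      (by linarith [hy.1])
    linarith

/-- slab probability of the rest, shifted. -/
noncomputable def ff (b : ι → ℝ) (m : ℕ) (s : Finset ι) (t y : ℝ) : ℝ :=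
  Q b (m + 4) s (t + y) + Q b (m + 4) s (t - y) - 1

lemma ff_cont : Continuous (ff b m s t) := by
  have := Q_cont b (m + 3) s
  unfold ff
  fun_prop

lemma ff_deriv (y : ℝ) : HasDerivAt (ff b m s t)
    (- (Q b (m + 3) s (t - y) - Q b (m + 3) s (t + y))) y := by
  have a1 := (Q_deriv b (m + 2) s (t - y)).comp_const_sub t y
  have a2 := (Q_deriv b (m + 2) s (t + y)).comp_const_add t y
  refine ((a2.add a1).sub_const 1).congr_deriv ?_
  ring

lemma ff_sqrt_concave (h : ∀ z, T ≤ z → Q b m s z ≤ 0) {W : ℝ} (hW : T ≤ t - Real.sqrt W) :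
    ConcaveOn ℝ (Set.Icc 0 W) (fun w => ff b m s t (Real.sqrt w)) := by
  have hM := M_convex h hW
  set M : ℝ → ℝ := fun y => Q b (m + 3) s (t - y) - Q b (m + 3) s (t + y) with hMdef
  have hM0 : M 0 = 0 := by simp [hMdef]
  have hd : ∀ w, 0 < w → HasDerivAt (fun w => ff b m s t (Real.sqrt w))
      (- M (Real.sqrt w) * (1 / (2 * Real.sqrt w))) w := by
    intro w hw
    have h1 := Real.hasDerivAt_sqrt hw.ne'
    exact (ff_deriv (Real.sqrt w)).comp w h1
  have hderiv : ∀ w, 0 < w → deriv (fun w => ff b m s t (Real.sqrt w)) w =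
      - (M (Real.sqrt w) / (2 * Real.sqrt w)) := by
    intro w hw
    rw [(hd w hw).deriv]; ring
  apply AntitoneOn.concaveOn_of_deriv (convex_Icc 0 W)
  · exact (ff_cont.comp Real.continuous_sqrt).continuousOn
  · intro w hw
    rw [interior_Icc] at hw
    exact (hd w hw.1).differentiableAt.differentiableWithinAt
  · rw [interior_Icc]
    intro w hw w' hw' hww'
    rw [hderiv w hw.1, hderiv w' hw'.1, neg_le_neg_iff]
    have hy0 : 0 < Real.sqrt w := Real.sqrt_pos.mpr hw.1
    have hy0' : 0 < Real.sqrt w' := Real.sqrt_pos.mpr hw'.1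
    have hyy : Real.sqrt w ≤ Real.sqrt w' := Real.sqrt_le_sqrt hww'
    have hyW : Real.sqrt w' ≤ Real.sqrt W := Real.sqrt_le_sqrt hw'.2.le
    -- M(y)/y is nondecreasing
    have hconv := hM.2 (show Real.sqrt w' ∈ Set.Icc 0 (Real.sqrt W) from ⟨hy0'.le, hyW⟩)
      (show (0:ℝ) ∈ Set.Icc 0 (Real.sqrt W) from ⟨le_rfl, (Real.sqrt_nonneg _)⟩)
      (show 0 ≤ Real.sqrt w / Real.sqrt w' by positivity)
      (show 0 ≤ 1 - Real.sqrt w / Real.sqrt w' by rw [sub_nonneg, div_le_one hy0']; exact hyy)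
      (by ring)
    simp only [smul_eq_mul, mul_zero, add_zero] at hconv
    rw [show Real.sqrt w / Real.sqrt w' * Real.sqrt w' = Real.sqrt w by field_simp] at hconv
    have hconv' : M (Real.sqrt w) ≤ Real.sqrt w / Real.sqrt w' * M (Real.sqrt w') := by
      have : (1 - Real.sqrt w / Real.sqrt w') * M 0 = 0 := by rw [hM0, mul_zero]
      simpa [hMdef] using hconv
    rw [div_le_div_iff₀ (by positivity) (by positivity)]
    have h5 := mul_le_mul_of_nonneg_right hconv' (show 0 ≤ 2 * Real.sqrt w' by positivity)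
    have h6 : Real.sqrt w / Real.sqrt w' * M (Real.sqrt w') * (2 * Real.sqrt w') =
        M (Real.sqrt w') * (2 * Real.sqrt w) := by field_simp
    linarith

/-- `Φ(w) = E f(√w U)`. -/
noncomputable def Phi (b : ι → ℝ) (m : ℕ) (s : Finset ι) (t w : ℝ) : ℝ :=
  ∫ σ in (0:ℝ)..1, ff b m s t (Real.sqrt w * σ)

lemma Phi_concave (h : ∀ z, T ≤ z → Q b m s z ≤ 0) {W : ℝ} (hW : T ≤ t - Real.sqrt W) :
    ConcaveOn ℝ (Set.Icc 0 W) (Phi b m s t) := by
  have hf := ff_sqrt_concave h hW
  refine ⟨convex_Icc 0 W, ?_⟩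
  intro w hw w' hw' α β hα hβ hαβ
  have hcont := ff_cont (b := b) (m := m) (s := s) (t := t)
  have hw'' := (convex_Icc (0:ℝ) W) hw hw' hα hβ hαβ
  simp only [smul_eq_mul] at hw'' ⊢
  unfold Phi
  rw [← intervalIntegral.integral_const_mul, ← intervalIntegral.integral_const_mul,
    ← intervalIntegral.integral_add]
  · apply intervalIntegral.integral_mono_on (by norm_num)
    · apply Continuous.intervalIntegrable; fun_prop
    · apply Continuous.intervalIntegrable; fun_prop
    · intro σ hσ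
      have key : ∀ v : ℝ, 0 ≤ v → Real.sqrt v * σ = Real.sqrt (v * σ ^ 2) := by
        intro v hv
        rw [Real.sqrt_mul hv, Real.sqrt_sq hσ.1]
      have hσ2 : σ ^ 2 ≤ 1 := by nlinarith [hσ.1, hσ.2]
      have hσ0 : 0 ≤ σ ^ 2 := sq_nonneg _
      have hmem : ∀ v ∈ Set.Icc (0:ℝ) W, v * σ ^ 2 ∈ Set.Icc (0:ℝ) W := by
        intro v hv
        refine ⟨mul_nonneg hv.1 hσ0, ?_⟩
        nlinarith [hv.1, hv.2]
      rw [key w hw.1, key w' hw'.1, key _ hw''.1]
      have := hf.2 (hmem w hw) (hmem w' hw') hα hβ hαβ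
      simp only [smul_eq_mul] at this
      rw [show (α * w + β * w') * σ ^ 2 = α * (w * σ ^ 2) + β * (w' * σ ^ 2) by ring]
      exact this
  · apply Continuous.intervalIntegrable; fun_prop
  · apply Continuous.intervalIntegrable; fun_prop

/-- second primitive -/
noncomputable def EE (b : ι → ℝ) (m : ℕ) (s : Finset ι) (t R : ℝ) : ℝ :=
  Q b (m + 6) s (t + R) + Q b (m + 6) s (t - R) - R ^ 2 / 2

lemma EE_neg (R : ℝ) : EE b m s t (-R) = EE b m s t R := by
  unfold EE
  rw [show t + -R = t - R by ring, show t - -R = t + R by ring]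
  ring

lemma EE_deriv (R : ℝ) : HasDerivAt (EE b m s t)
    (Q b (m + 5) s (t + R) - Q b (m + 5) s (t - R) - R) R := by
  have a1 := (Q_deriv b (m + 4) s (t - R)).comp_const_sub t R
  have a2 := (Q_deriv b (m + 4) s (t + R)).comp_const_add t R
  have a3 := (hasDerivAt_pow 2 R).div_const 2
  refine ((a2.add a1).sub a3).congr_deriv ?_
  norm_num
  ring

lemma EE_deriv_eq {R : ℝ} :
    Q b (m + 5) s (t + R) - Q b (m + 5) s (t - R) - R =
      R * ∫ σ in (0:ℝ)..1, ff b m s t (R * σ) := by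
  have h1 := intervalIntegral.mul_integral_comp_mul_left (a := 0) (b := 1) (f := ff b m s t) R
  rw [h1, mul_zero, mul_one]
  have h2 : ∀ y ∈ Set.uIcc 0 R, HasDerivAt (fun y => Q b (m + 5) s (t + y) - Q b (m + 5) s (t - y) - y)
      (ff b m s t y) y := by
    intro y _
    have a1 := (Q_deriv b (m + 3) s (t - y)).comp_const_sub t y
    have a2 := (Q_deriv b (m + 3) s (t + y)).comp_const_add t y
    refine ((a2.sub a1).sub (hasDerivAt_id y)).congr_deriv ?_
    unfold ff
    ring
  rw [intervalIntegral.integral_eq_sub_of_hasDerivAt h2 (ff_cont.intervalIntegrable _ _)]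
  simp

lemma EE_sqrt_deriv {w : ℝ} (hw : 0 < w) :
    HasDerivAt (fun w => EE b m s t (Real.sqrt w)) (Phi b m s t w / 2) w := by
  have h1 := Real.hasDerivAt_sqrt hw.ne'
  have h2 := (EE_deriv (b := b) (m := m) (s := s) (t := t) (Real.sqrt w)).comp w h1
  refine h2.congr_deriv ?_
  rw [EE_deriv_eq]
  have : 0 < Real.sqrt w := Real.sqrt_pos.mpr hw
  unfold Phi
  field_simp

lemma EE_cont : Continuous (EE b m s t) := by
  have := Q_cont b (m + 5) s
  unfold EE
  fun_prop

/-- `D(u) = Ê(S+u) - Ê(S-u)` is concave. -/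
lemma D_concave (h : ∀ z, T ≤ z → Q b m s z ≤ 0) {S : ℝ} (hS : T ≤ t - Real.sqrt (2 * S)) :
    ConcaveOn ℝ (Set.Icc 0 S) (fun u => EE b m s t (Real.sqrt (S + u)) - EE b m s t (Real.sqrt (S - u))) := by
  have hPhi := Phi_concave h hS
  have hd : ∀ u ∈ Set.Ioo 0 S, HasDerivAt
      (fun u => EE b m s t (Real.sqrt (S + u)) - EE b m s t (Real.sqrt (S - u)))
      (Phi b m s t (S + u) / 2 + Phi b m s t (S - u) / 2) u := by
    intro u hu
    have a1 := (EE_sqrt_deriv (b := b) (m := m) (s := s) (t := t)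
      (show 0 < S + u by linarith [hu.1, hu.2])).comp_const_add S u
    have a2 := (EE_sqrt_deriv (b := b) (m := m) (s := s) (t := t)
      (show 0 < S - u by linarith [hu.1, hu.2])).comp_const_sub S u
    refine (a1.sub a2).congr_deriv ?_
    ring
  apply AntitoneOn.concaveOn_of_deriv (convex_Icc 0 S)
  · have c1 := EE_cont (b := b) (m := m) (s := s) (t := t)
    exact Continuous.continuousOn (by fun_prop)
  · intro u hu
    rw [interior_Icc] at hu
    exact (hd u hu).differentiableAt.differentiableWithinAt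
  · rw [interior_Icc]
    intro u hu u' hu' huu'
    rw [(hd u hu).deriv, (hd u' hu').deriv]
    -- S ± u are convex combinations of S ± u'
    have hu'0 : 0 < u' := hu'.1
    have hm1 : S + u' ∈ Set.Icc (0:ℝ) (2 * S) := ⟨by linarith [hu'.1, hu'.2], by linarith [hu'.2]⟩
    have hm2 : S - u' ∈ Set.Icc (0:ℝ) (2 * S) := ⟨by linarith [hu'.2], by linarith [hu'.1, hu'.2]⟩
    set α := (1 + u / u') / 2 with hα
    set β := (1 - u / u') / 2 with hβ
    have hq : u / u' ≤ 1 := by rw [div_le_one hu'0]; exact huu'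
    have hq0 : 0 ≤ u / u' := div_nonneg hu.1.le hu'0.le
    have hα0 : 0 ≤ α := by rw [hα]; linarith
    have hβ0 : 0 ≤ β := by rw [hβ]; linarith
    have hαβ : α + β = 1 := by rw [hα, hβ]; ring
    have e1 : α * (S + u') + β * (S - u') = S + u := by
      rw [hα, hβ]; field_simp; ring
    have e2 : β * (S + u') + α * (S - u') = S - u := by
      rw [hα, hβ]; field_simp; ring
    have i1 := hPhi.2 hm1 hm2 hα0 hβ0 hαβ
    have i2 := hPhi.2 hm1 hm2 hβ0 hα0 (by rw [add_comm]; exact hαβ)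
    simp only [smul_eq_mul] at i1 i2
    rw [e1] at i1
    rw [e2] at i2
    have e3 : (α * Phi b m s t (S + u') + β * Phi b m s t (S - u')) +
        (β * Phi b m s t (S + u') + α * Phi b m s t (S - u')) =
        Phi b m s t (S + u') + Phi b m s t (S - u') := by
      have : (α * Phi b m s t (S + u') + β * Phi b m s t (S - u')) +
        (β * Phi b m s t (S + u') + α * Phi b m s t (S - u')) =
        (α + β) * (Phi b m s t (S + u') + Phi b m s t (S - u')) := by ring
      rw [this, hαβ, one_mul]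
    linarith

/-- The pair inequality. -/
lemma pair_ineq (h : ∀ z, T ≤ z → Q b m s z ≤ 0) {p q : ℝ} (hp : 0 < p) (hq : 0 < q)
    (hS : T ≤ t - Real.sqrt (2 * (p ^ 2 + q ^ 2))) {r : ℝ} (hr : 0 < r) (hr2 : 2 * r ^ 2 = p ^ 2 + q ^ 2) :
    (EE b m s t (r + r) - EE b m s t (r - r)) / (2 * r * r) ≤
      (EE b m s t (p + q) - EE b m s t (p - q)) / (2 * p * q) := by
  set S := p ^ 2 + q ^ 2 with hSdef
  have hS0 : 0 < S := by positivity
  have hD := D_concave h hS
  have habs : ∀ x : ℝ, EE b m s t |x| = EE b m s t x := by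
    intro x
    rcases abs_choice x with h | h
    · rw [h]
    · rw [h, EE_neg]
  have e1 : EE b m s t (p + q) - EE b m s t (p - q) =
      EE b m s t (Real.sqrt (S + 2 * p * q)) - EE b m s t (Real.sqrt (S - 2 * p * q)) := by
    rw [show S + 2 * p * q = (p + q) ^ 2 by rw [hSdef]; ring,
      show S - 2 * p * q = (p - q) ^ 2 by rw [hSdef]; ring, Real.sqrt_sq_eq_abs, Real.sqrt_sq_eq_abs,
      habs, habs]
  have e2 : EE b m s t (r + r) - EE b m s t (r - r) =
      EE b m s t (Real.sqrt (S + S)) - EE b m s t (Real.sqrt (S - S)) := by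
    rw [show S + S = (r + r) ^ 2 by rw [← hr2]; ring, show S - S = (r - r) ^ 2 by ring,
      Real.sqrt_sq_eq_abs, Real.sqrt_sq_eq_abs, habs, habs]
  have e3 : 2 * r * r = S := by rw [← hr2]; ring
  rw [e1, e2, e3]
  set u := 2 * p * q with hu
  have hu0 : 0 < u := by positivity
  have huS : u ≤ S := by rw [hu, hSdef]; nlinarith [sq_nonneg (p - q)]
  have hc := hD.2 (show S ∈ Set.Icc 0 S from ⟨hS0.le, le_rfl⟩)
    (show (0:ℝ) ∈ Set.Icc 0 S from ⟨le_rfl, hS0.le⟩)
    (show 0 ≤ u / S by positivity)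
    (show 0 ≤ 1 - u / S by rw [sub_nonneg, div_le_one hS0]; exact huS) (by ring)
  simp only [smul_eq_mul, mul_zero, add_zero, sub_zero, sub_self] at hc
  rw [show u / S * S = u by field_simp] at hc
  rw [div_le_div_iff₀ hS0 hu0, sub_self]
  have h5 := mul_le_mul_of_nonneg_left hc hS0.le
  have h6 : S * (u / S * (EE b m s t (Real.sqrt (S + S)) - EE b m s t (Real.sqrt 0))) =
    (EE b m s t (Real.sqrt (S + S)) - EE b m s t (Real.sqrt 0)) * u := by field_simp
  rw [h6, mul_comm S] at h5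
  exact h5

end

/-- slab probability through the spline. -/
noncomputable def slabP (b : ι → ℝ) (s : Finset ι) (t : ℝ) : ℝ := 2 * Q b s.card s t - 1

lemma slabP_pair {b : ι → ℝ} {m : ℕ} {s : Finset ι} (hs : s.card = m + 4) {i j : ι}
    (hij : i ≠ j) (hi : i ∉ s) (hj : j ∉ s) (hbi : 0 < b i) (hbj : 0 < b j) (t : ℝ) :
    slabP b (insert i (insert j s)) t =
      (EE b m s t (b i + b j) - EE b m s t (b i - b j)) / (2 * b i * b j) := by
  have hi' : i ∉ insert j s := by
    rw [Finset.mem_insert, not_or]; exact ⟨hij, hi⟩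
  unfold slabP
  rw [Finset.card_insert_of_notMem hi', Finset.card_insert_of_notMem hj, hs,
    Q_insert _ hi', Q_insert _ hj, Q_insert _ hj]
  unfold EE
  rw [show t + (b i + b j) = t + b i + b j by ring, show t - (b i + b j) = t - b i - b j by ring,
    show t + (b i - b j) = t + b i - b j by ring, show t - (b i - b j) = t - b i + b j by ring]
  field_simp
  ring

lemma Q_congr {b b' : ι → ℝ} {k : ℕ} {s : Finset ι} (h : ∀ i ∈ s, b i = b' i) (z : ℝ) :
    Q b k s z = Q b' k s z := by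
  unfold Q N
  rw [Finset.prod_congr rfl (fun i hi => by rw [h i hi]), Finset.sum_congr rfl h]
  congr 1
  apply Finset.sum_congr rfl
  intro T hT
  rw [Finset.sum_congr rfl (fun i hi => h i (Finset.mem_powerset.mp hT hi))]

/-- The pair step. -/
theorem pair_step {b b' : ι → ℝ} {m : ℕ} {s : Finset ι} (hs : s.card = m + 4) {i j : ι}
    (hij : i ≠ j) (hi : i ∉ s) (hj : j ∉ s) (hb : ∀ l ∈ insert i (insert j s), 0 < b l)
    (hbb : ∀ l ∈ s, b l = b' l) {r : ℝ} (hr : 0 < r) (hi' : b' i = r) (hj' : b' j = r)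
    (hr2 : 2 * r ^ 2 = b i ^ 2 + b j ^ 2) {t : ℝ}
    (ht : Real.sqrt (5 * ∑ l ∈ insert i (insert j s), b l ^ 2) ≤ t) :
    slabP b' (insert i (insert j s)) t ≤ slabP b (insert i (insert j s)) t := by
  have hbs : ∀ l ∈ s, 0 < b l := fun l hl =>
    hb l (Finset.mem_insert_of_mem (Finset.mem_insert_of_mem hl))
  have hbi : 0 < b i := hb i (Finset.mem_insert_self _ _)
  have hbj : 0 < b j := hb j (Finset.mem_insert_of_mem (Finset.mem_insert_self _ _))
  rw [slabP_pair hs hij hi hj hbi hbj, slabP_pair hs hij hi hj (by rw [hi']; exact hr) (by rw [hj']; exact hr),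
    hi', hj']
  have hE : ∀ R, EE b' m s t R = EE b m s t R := by
    intro R
    unfold EE
    rw [Q_congr hbb, Q_congr hbb]
  rw [hE, hE]
  have hne : s.Nonempty := by rw [← Finset.card_pos, hs]; omega
  obtain ⟨i₁, h1, hmax⟩ := Finset.exists_max_image s b hne
  apply pair_ineq (T := TT b s i₁) (fun z hz => third_nonpos m s hs hbs i₁ h1 hmax z hz) hbi hbj _ hr hr2
  -- Cauchy–Schwarz
  have hi0 : i ∉ insert j s := by
    rw [Finset.mem_insert, not_or]; exact ⟨hij, hi⟩
  rw [Finset.sum_insert hi0, Finset.sum_insert hj, ← Finset.add_sum_erase s (fun l => b l ^ 2) h1] at ht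
  unfold TT
  set X := ∑ l ∈ s.erase i₁, b l ^ 2 with hX
  have hX0 : 0 ≤ X := Finset.sum_nonneg (fun _ _ => sq_nonneg _)
  have hb1 := hbs i₁ h1
  rw [le_sub_iff_add_le]
  refine le_trans ?_ ht
  apply Real.le_sqrt_of_sq_le
  set A1 := Real.sqrt (2 * X) with hA1
  set A2 := Real.sqrt (2 * (b i ^ 2 + b j ^ 2)) with hA2
  have q1 : A1 ^ 2 = 2 * X := Real.sq_sqrt (by positivity)
  have q2 : A2 ^ 2 = 2 * (b i ^ 2 + b j ^ 2) := Real.sq_sqrt (by positivity)
  have : (b i₁ + A1 + A2) ^ 2 ≤ 5 * b i₁ ^ 2 + (5 / 2) * A1 ^ 2 + (5 / 2) * A2 ^ 2 := by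
    nlinarith [sq_nonneg (A1 - A2), sq_nonneg (2 * b i₁ - A1), sq_nonneg (2 * b i₁ - A2)]
  rw [q1, q2] at this
  linarith

end Pool.Agent.Helper34.Slab
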